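import Mathlib

set_option autoImplicit false

open Finset

namespace Pool.Agent.Lib.MP_a17b09_nt

lemma two_rpow_ge {x : ℝ} (hx : 0 ≤ x) : 1 + x / 2 ≤ (2 : ℝ) ^ x := by
  rw [Real.rpow_def_of_pos (by norm_num)]
  have h1 := Real.add_one_le_exp (Real.log 2 * x)
  have h2 : (1 : ℝ) / 2 ≤ Real.log 2 := by
    have := Real.log_two_gt_d9
    linarith
  have h3 : x / 2 ≤ Real.log 2 * x := by
    calc x / 2 = 1 / 2 * x := by ring
      _ ≤ Real.log 2 * x := by gcongr
  linarith

/-- the divisor bound -/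
theorem card_divisors_le (θ : ℝ) (hθ : 0 < θ) :
    ∃ C : ℝ, 1 ≤ C ∧ ∀ n : ℕ, 0 < n → (n.divisors.card : ℝ) ≤ C * (n : ℝ) ^ θ := by
  set Q : ℕ := ⌈(2 : ℝ) ^ (1 / θ)⌉₊ with hQ
  set C1 : ℝ := 1 + 2 / θ with hC1
  have hC1' : 1 ≤ C1 := by
    rw [hC1]
    have : 0 < 2 / θ := by positivity
    linarith
  refine ⟨C1 ^ Q, one_le_pow₀ hC1', ?_⟩
  intro n hn
  have hQ2 : ∀ p : ℕ, Q ≤ p → (2 : ℝ) ≤ (p : ℝ) ^ θ := by
    intro p hp
    have h1 : (2 : ℝ) ^ (1 / θ) ≤ p := (Nat.le_ceil _).trans (by exact_mod_cast hp)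
    calc (2 : ℝ) = ((2 : ℝ) ^ (1 / θ)) ^ θ := by
          rw [← Real.rpow_mul (by norm_num), one_div, inv_mul_cancel₀ hθ.ne', Real.rpow_one]
      _ ≤ (p : ℝ) ^ θ := by gcongr
  have hloc : ∀ p ∈ n.primeFactors, ((n.factorization p + 1 : ℕ) : ℝ) ≤
      (if p < Q then C1 else 1) * (((p : ℝ) ^ n.factorization p) ^ θ) := by
    intro p hp
    have hp' : p.Prime := Nat.prime_of_mem_primeFactors hp
    set v := n.factorization p with hv
    have hp0 : (0 : ℝ) ≤ p := by positivity
    have hp2 : (2 : ℝ) ≤ p := by exact_mod_cast hp'.two_le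
    push_cast
    split_ifs with hpQ
    · have h1 : (2 : ℝ) ^ (θ * v) ≤ ((p : ℝ) ^ v) ^ θ := by
        rw [← Real.rpow_natCast, ← Real.rpow_mul hp0, mul_comm θ]
        gcongr
      have h2 := two_rpow_ge (x := θ * v) (by positivity)
      have h3 : (v : ℝ) + 1 ≤ C1 * (1 + θ * v / 2) := by
        rw [hC1]
        have : (1 + 2 / θ) * (1 + θ * v / 2) = 1 + v + (θ * v / 2 + 2 / θ) := by
          field_simp
          ring
        rw [this]
        have : 0 ≤ θ * v / 2 + 2 / θ := by positivity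
        linarith
      calc (v : ℝ) + 1 ≤ C1 * (1 + θ * v / 2) := h3
        _ ≤ C1 * (2 : ℝ) ^ (θ * v) := by gcongr
        _ ≤ C1 * (((p : ℝ) ^ v) ^ θ) := by gcongr
    · push Not at hpQ
      rw [one_mul]
      have h1 : (2 : ℝ) ^ v ≤ ((p : ℝ) ^ v) ^ θ := by
        have e : ((p : ℝ) ^ v) ^ θ = ((p : ℝ) ^ θ) ^ v := by
          rw [← Real.rpow_natCast, ← Real.rpow_mul hp0, mul_comm, Real.rpow_mul hp0,
            Real.rpow_natCast]
        rw [e]
        have := hQ2 p hpQ
        gcongr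
      have h2 : (v : ℝ) + 1 ≤ (2 : ℝ) ^ v := by
        have := Nat.lt_two_pow_self (n := v)
        have : v + 1 ≤ 2 ^ v := this
        exact_mod_cast this
      linarith
  have hcard := Nat.card_divisors hn.ne'
  rw [hcard, Nat.cast_prod]
  calc ∏ p ∈ n.primeFactors, ((n.factorization p + 1 : ℕ) : ℝ) ≤
      ∏ p ∈ n.primeFactors, ((if p < Q then C1 else 1) * (((p : ℝ) ^ n.factorization p) ^ θ)) := by
        apply prod_le_prod
        · intro p _; positivity
        · exact hloc
    _ = (∏ p ∈ n.primeFactors, (if p < Q then C1 else 1)) *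
        ∏ p ∈ n.primeFactors, (((p : ℝ) ^ n.factorization p) ^ θ) := prod_mul_distrib
    _ = (∏ p ∈ n.primeFactors, (if p < Q then C1 else 1)) * (n : ℝ) ^ θ := by
        congr 1
        rw [Real.finsetProd_rpow _ _ (by intro p _; positivity)]
        congr 1
        have h := Nat.prod_factorization_pow_eq_self hn.ne'
        rw [Finsupp.prod, Nat.support_factorization] at h
        exact_mod_cast h
    _ ≤ C1 ^ Q * (n : ℝ) ^ θ := by
        have : ∏ p ∈ n.primeFactors, (if p < Q then C1 else 1) ≤ C1 ^ Q := by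
          rw [prod_ite, prod_const, prod_const_one, mul_one]
          apply pow_le_pow_right₀ hC1'
          have hsub : n.primeFactors.filter (fun p => p < Q) ⊆ range Q := by
            intro p hp
            rw [mem_filter] at hp
            exact mem_range.2 hp.2
          have := card_le_card hsub
          rwa [card_range] at this
        gcongr

end Pool.Agent.Lib.MP_a17b09_nt
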