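import Mathlib

set_option autoImplicit false

open Set MeasureTheory intervalIntegral

namespace Pool.Agent.Lib.MP_a17b09_nt

/-- `1 + b u + c u²` -/
def qf (b c : ℝ) (u : ℝ) : ℝ := 1 + b * u + c * u ^ 2

/-- truncated inverse of `qf` -/
noncomputable def gg (b c : ℝ) (u : ℝ) : ℝ := (max (qf b c u) (1 / 8))⁻¹

/-- additive coordinate -/
noncomputable def AA (b c : ℝ) (s : ℝ) : ℝ := ∫ x in (0 : ℝ)..s, gg b c x

lemma continuous_qf (b c : ℝ) : Continuous (qf b c) := by
  unfold qf; fun_prop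

lemma continuous_gg (b c : ℝ) : Continuous (gg b c) := by
  unfold gg
  apply Continuous.inv₀
  · exact (continuous_qf b c).max continuous_const
  · intro x
    have : (0 : ℝ) < max (qf b c x) (1 / 8) := lt_of_lt_of_le (by norm_num) (le_max_right _ _)
    exact this.ne'

lemma gg_pos (b c u : ℝ) : 0 < gg b c u := by
  unfold gg
  exact inv_pos.2 (lt_of_lt_of_le (by norm_num) (le_max_right _ _))

lemma gg_le (b c u : ℝ) : gg b c u ≤ 8 := by
  unfold gg
  have h : (1 / 8 : ℝ) ≤ max (qf b c u) (1 / 8) := le_max_right _ _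
  calc (max (qf b c u) (1 / 8))⁻¹ ≤ (1 / 8 : ℝ)⁻¹ := inv_anti₀ (by norm_num) h
    _ = 8 := by norm_num

lemma hasDerivAt_AA (b c s : ℝ) : HasDerivAt (AA b c) (gg b c s) s := by
  unfold AA
  exact intervalIntegral.integral_hasDerivAt_right ((continuous_gg b c).intervalIntegrable _ _)
    ((continuous_gg b c).stronglyMeasurableAtFilter _ _) (continuous_gg b c).continuousAt

lemma AA_zero (b c : ℝ) : AA b c 0 = 0 := by simp [AA]

lemma continuous_AA (b c : ℝ) : Continuous (AA b c) :=
  continuous_iff_continuousAt.2 fun s => (hasDerivAt_AA b c s).continuousAt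

lemma strictMono_AA (b c : ℝ) : StrictMono (AA b c) := by
  apply strictMono_of_deriv_pos
  intro x
  rw [(hasDerivAt_AA b c x).deriv]
  exact gg_pos b c x

lemma AA_lipschitz (b c s t : ℝ) : |AA b c t - AA b c s| ≤ 8 * |t - s| := by
  have h := Convex.norm_image_sub_le_of_norm_hasDerivWithin_le (f := AA b c) (f' := gg b c)
    (C := 8) (s := univ) (x := s) (y := t)
    (fun x _ => (hasDerivAt_AA b c x).hasDerivWithinAt)
    (fun x _ => by
      rw [Real.norm_eq_abs, abs_of_pos (gg_pos b c x)]; exact gg_le b c x)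
    convex_univ (mem_univ _) (mem_univ _)
  simpa [Real.norm_eq_abs] using h

section bounds

variable {b c B : ℝ}

lemma qf_ge (hB : 1 ≤ B) (hb : |b| ≤ B) (hc : |c| ≤ B) {u : ℝ} (hu : |u| ≤ 1 / (2 * B)) :
    1 / 4 ≤ qf b c u := by
  have hB0 : 0 < B := by linarith
  have h1 : |b * u| ≤ 1 / 2 := by
    rw [abs_mul]
    calc |b| * |u| ≤ B * (1 / (2 * B)) := by gcongr
      _ = 1 / 2 := by field_simp
  have h2 : |c * u ^ 2| ≤ 1 / 4 := by
    rw [abs_mul, abs_pow]
    calc |c| * |u| ^ 2 ≤ B * (1 / (2 * B)) ^ 2 := by gcongr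
      _ = 1 / (4 * B) := by field_simp; norm_num
      _ ≤ 1 / 4 := by
        apply one_div_le_one_div_of_le (by norm_num); linarith
  unfold qf
  have := abs_le.1 h1
  have := abs_le.1 h2
  linarith

lemma gg_eq (hB : 1 ≤ B) (hb : |b| ≤ B) (hc : |c| ≤ B) {u : ℝ} (hu : |u| ≤ 1 / (2 * B)) :
    gg b c u = (qf b c u)⁻¹ := by
  unfold gg
  rw [max_eq_left]
  have := qf_ge hB hb hc hu
  linarith

lemma contDiffOn_AA (hB : 1 ≤ B) (hb : |b| ≤ B) (hc : |c| ≤ B) (n : ℕ) :
    ContDiffOn ℝ n (AA b c) (Ioo (-(1 / (2 * B))) (1 / (2 * B))) := by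
  rcases n with _ | n
  · exact contDiffOn_zero.2 (continuous_AA b c).continuousOn
  · have : ((n + 1 : ℕ) : WithTop ℕ∞) = (n : WithTop ℕ∞) + 1 := by push_cast; rfl
    rw [this, contDiffOn_succ_iff_deriv_of_isOpen isOpen_Ioo]
    refine ⟨fun x _ => (hasDerivAt_AA b c x).differentiableAt.differentiableWithinAt, ?_, ?_⟩
    · intro h
      exact absurd h (by simp)
    · have hq : ContDiffOn ℝ n (fun u => (qf b c u)⁻¹) (Ioo (-(1 / (2 * B))) (1 / (2 * B))) := by
        apply ContDiffOn.inv
        · unfold qf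
          fun_prop
        · intro x hx
          have : |x| ≤ 1 / (2 * B) := abs_le.2 ⟨hx.1.le, hx.2.le⟩
          have := qf_ge hB hb hc this
          linarith
      refine hq.congr ?_
      intro x hx
      rw [(hasDerivAt_AA b c x).deriv]
      exact gg_eq hB hb hc (abs_le.2 ⟨hx.1.le, hx.2.le⟩)

/-- the group law on slopes -/
noncomputable def oplus (b c s t : ℝ) : ℝ := (s + t + b * s * t) / (1 - c * s * t)

lemma small_prod (hB : 1 ≤ B) (hc : |c| ≤ B) {s t : ℝ} (hs : 0 ≤ s) (hs' : s ≤ 1 / (8 * B))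
    (ht : 0 ≤ t) (ht' : t ≤ 1 / (8 * B)) : |c * s * t| ≤ 1 / 64 := by
  have hB0 : 0 < B := by linarith
  rw [abs_mul, abs_mul, abs_of_nonneg hs, abs_of_nonneg ht]
  calc |c| * s * t ≤ B * (1 / (8 * B)) * (1 / (8 * B)) := by gcongr
    _ = 1 / (64 * B) := by field_simp; norm_num
    _ ≤ 1 / 64 := by apply one_div_le_one_div_of_le (by norm_num); linarith

lemma oplus_bound (hB : 1 ≤ B) (hb : |b| ≤ B) (hc : |c| ≤ B) {s t : ℝ} (hs : 0 ≤ s)
    (hs' : s ≤ 1 / (8 * B)) (ht : 0 ≤ t) (ht' : t ≤ 1 / (8 * B)) :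
    |oplus b c s t| ≤ 1 / (2 * B) := by
  have hB0 : 0 < B := by linarith
  have h1 := abs_le.1 (small_prod hB hc hs hs' ht ht')
  have hden : 63 / 64 ≤ 1 - c * s * t := by linarith
  have hden0 : 0 < 1 - c * s * t := by linarith
  unfold oplus
  rw [abs_div, abs_of_pos hden0, div_le_iff₀ hden0]
  have h2 : |s + t + b * s * t| ≤ 17 / 64 * (1 / B) := by
    have e1 : |b * s * t| ≤ 1 / 64 * (1 / B) := by
      rw [abs_mul, abs_mul, abs_of_nonneg hs, abs_of_nonneg ht]
      calc |b| * s * t ≤ B * (1 / (8 * B)) * (1 / (8 * B)) := by gcongr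
        _ = 1 / 64 * (1 / B) := by field_simp; norm_num
    have e2 : |s + t| ≤ 16 / 64 * (1 / B) := by
      rw [abs_of_nonneg (by positivity)]
      calc s + t ≤ 1 / (8 * B) + 1 / (8 * B) := by gcongr
        _ = 16 / 64 * (1 / B) := by field_simp; norm_num
    calc |s + t + b * s * t| ≤ |s + t| + |b * s * t| := abs_add_le _ _
      _ ≤ 16 / 64 * (1 / B) + 1 / 64 * (1 / B) := by gcongr
      _ = 17 / 64 * (1 / B) := by ring
  calc |s + t + b * s * t| ≤ 17 / 64 * (1 / B) := h2
    _ ≤ 1 / (2 * B) * (63 / 64) := by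
      have : (0 : ℝ) < 1 / B := by positivity
      have e : 1 / (2 * B) = 1 / 2 * (1 / B) := by field_simp
      rw [e]; nlinarith
    _ ≤ 1 / (2 * B) * (1 - c * s * t) := by gcongr

lemma AA_oplus (hB : 1 ≤ B) (hb : |b| ≤ B) (hc : |c| ≤ B) {s t : ℝ} (hs : 0 ≤ s)
    (hs' : s ≤ 1 / (8 * B)) (ht : 0 ≤ t) (ht' : t ≤ 1 / (8 * B)) :
    AA b c (oplus b c s t) = AA b c s + AA b c t := by
  have hB0 : 0 < B := by linarith
  set F : ℝ → ℝ := fun x => AA b c (oplus b c x t) - AA b c x with hF
  have hder : ∀ x, 0 ≤ x → x ≤ 1 / (8 * B) → HasDerivAt F 0 x := by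
    intro x hx hx'
    have h1 := abs_le.1 (small_prod hB hc hx hx' ht ht')
    have hden0 : 1 - c * x * t ≠ 0 := by
      have : 63 / 64 ≤ 1 - c * x * t := by linarith
      linarith
    have hnum : HasDerivAt (fun x => x + t + b * x * t) (1 + b * t) x := by
      have h := HasDerivAt.fun_add ((hasDerivAt_id x).add_const t)
        (((hasDerivAt_id x).const_mul b).mul_const t)
      simpa using h
    have hden : HasDerivAt (fun x => 1 - c * x * t) (-(c * t)) x := by
      have h := (((hasDerivAt_id x).const_mul c).mul_const t).const_sub 1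
      simpa using h
    have hop : HasDerivAt (fun y => oplus b c y t)
        (((1 + b * t) * (1 - c * x * t) - (x + t + b * x * t) * -(c * t)) / (1 - c * x * t) ^ 2) x :=
      HasDerivAt.fun_div hnum hden hden0
    have hcomp : HasDerivAt (fun y => AA b c (oplus b c y t)) (gg b c (oplus b c x t) *
        (((1 + b * t) * (1 - c * x * t) - (x + t + b * x * t) * -(c * t)) / (1 - c * x * t) ^ 2))
        x :=
      HasDerivAt.comp (h₂ := AA b c) (h := fun y => oplus b c y t) x
        (hasDerivAt_AA b c (oplus b c x t)) hop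
    have hsub := HasDerivAt.fun_sub hcomp (hasDerivAt_AA b c x)
    have hxb : |x| ≤ 1 / (2 * B) := by
      rw [abs_of_nonneg hx]
      calc x ≤ 1 / (8 * B) := hx'
        _ ≤ 1 / (2 * B) := by
          apply one_div_le_one_div_of_le (by positivity); linarith
    have hob := oplus_bound hB hb hc hx hx' ht ht'
    rw [gg_eq hB hb hc hxb, gg_eq hB hb hc hob] at hsub
    have hq1 : qf b c x ≠ 0 := by have := qf_ge hB hb hc hxb; linarith
    have htb : |t| ≤ 1 / (2 * B) := by
      rw [abs_of_nonneg ht]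
      calc t ≤ 1 / (8 * B) := ht'
        _ ≤ 1 / (2 * B) := by
          apply one_div_le_one_div_of_le (by positivity); linarith
    have hq3 : qf b c t ≠ 0 := by have := qf_ge hB hb hc htb; linarith
    have hz : oplus b c x t * (1 - c * x * t) = x + t + b * x * t := by
      unfold oplus; exact div_mul_cancel₀ _ hden0
    have hqo : qf b c (oplus b c x t) = qf b c x * qf b c t / (1 - c * x * t) ^ 2 := by
      rw [eq_div_iff (pow_ne_zero 2 hden0)]
      unfold qf
      linear_combination (b * (1 - c * x * t) +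
        c * (oplus b c x t * (1 - c * x * t) + (x + t + b * x * t))) * hz
    have hnum2 : (1 + b * t) * (1 - c * x * t) - (x + t + b * x * t) * -(c * t) = qf b c t := by
      unfold qf; ring
    refine hsub.congr_deriv ?_
    rw [hqo, hnum2]
    have hd2 : (1 - c * x * t) ^ 2 ≠ 0 := pow_ne_zero 2 hden0
    generalize qf b c x = q1 at *
    generalize qf b c t = q3 at *
    generalize (1 - c * x * t) ^ 2 = d2 at *
    field_simp
    simp
  have hconst : ∀ x ∈ Icc (0 : ℝ) (1 / (8 * B)), F x = F 0 := by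
    apply constant_of_has_deriv_right_zero
    · intro x hx
      exact (hder x hx.1 hx.2).continuousAt.continuousWithinAt
    · intro x hx
      exact (hder x hx.1 hx.2.le).hasDerivWithinAt
  have h := hconst s ⟨hs, hs'⟩
  have h0 : F 0 = AA b c t := by
    simp only [hF]
    have : oplus b c 0 t = t := by simp [oplus]
    rw [this, AA_zero]; ring
  rw [h0] at h
  simp only [hF] at h
  linarith

end bounds

/-- finite differences are bounded by derivatives -/
lemma fwdDiff_bound (r : ℝ) : ∀ n : ℕ, ∀ φ : ℝ → ℝ, ContDiffOn ℝ n φ (Ioo (-r) r) →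
    ∀ r' : ℝ, r' < r → ∃ C : ℝ, 0 ≤ C ∧ ∀ s h : ℝ, -r' ≤ s → 0 ≤ h → s + n * h ≤ r' →
      |(fwdDiff h)^[n] φ s| ≤ C * h ^ n := by
  intro n
  induction n with
  | zero =>
    intro φ hφ r' hr'
    have hcont : ContinuousOn φ (Icc (-r') r') :=
      hφ.continuousOn.mono (fun x hx => ⟨by linarith [hx.1], by linarith [hx.2]⟩)
    obtain ⟨C, hC⟩ := isCompact_Icc.exists_bound_of_continuousOn hcont
    refine ⟨max C 0, le_max_right _ _, ?_⟩
    intro s h hs hh hsh
    simp only [Function.iterate_zero, id_eq, pow_zero, mul_one]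
    have := hC s ⟨hs, by simpa using hsh⟩
    rw [Real.norm_eq_abs] at this
    exact this.trans (le_max_left _ _)
  | succ n ih =>
    intro φ hφ r' hr'
    have hn1 : ((n + 1 : ℕ) : WithTop ℕ∞) = (n : WithTop ℕ∞) + 1 := by push_cast; rfl
    have hφ' := hφ
    rw [hn1, contDiffOn_succ_iff_deriv_of_isOpen isOpen_Ioo] at hφ'
    obtain ⟨hdiff, _, hcd⟩ := hφ'
    obtain ⟨C, hC0, hC⟩ := ih (deriv φ) hcd r' hr'
    refine ⟨C, hC0, ?_⟩
    intro s h hs hh hsh
    rw [Function.iterate_succ', Function.comp_apply, fwdDiff]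
    set ψ : ℝ → ℝ := (fwdDiff h)^[n] φ with hψ
    have hder : ∀ x ∈ Icc s (s + h), HasDerivAt ψ ((fwdDiff h)^[n] (deriv φ) x) x := by
      intro x hx
      have e1 : ψ = fun y => ∑ k ∈ Finset.range (n + 1),
          ((-1 : ℤ) ^ (n - k) * (n.choose k : ℤ)) • φ (y + k • h) := by
        funext y
        rw [hψ, fwdDiff_iter_eq_sum_shift]
      rw [e1, fwdDiff_iter_eq_sum_shift]
      simp only [zsmul_eq_mul]
      apply HasDerivAt.fun_sum
      intro k hk
      have hk' : (k : ℝ) ≤ n := by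
        have := Finset.mem_range.1 hk
        exact_mod_cast (by omega : k ≤ n)
      have hmem : x + k • h ∈ Ioo (-r) r := by
        rw [nsmul_eq_mul]
        have h1 : 0 ≤ (k : ℝ) * h := by positivity
        have h2 : (k : ℝ) * h ≤ n * h := by gcongr
        push_cast at hsh
        constructor
        · linarith [hx.1]
        · nlinarith [hx.2]
      have hd : HasDerivAt φ (deriv φ (x + k • h)) (x + k • h) :=
        ((hdiff _ hmem).differentiableAt (isOpen_Ioo.mem_nhds hmem)).hasDerivAt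
      have hd2 : HasDerivAt (fun y => φ (y + k • h)) (deriv φ (x + k • h)) x := by
        have := hd.comp_add_const x (k • h)
        simpa using this
      exact hd2.const_mul _
    have hbd : ∀ x ∈ Icc s (s + h), ‖(fwdDiff h)^[n] (deriv φ) x‖ ≤ C * h ^ n := by
      intro x hx
      rw [Real.norm_eq_abs]
      apply hC x h (by linarith [hx.1]) hh
      push_cast at hsh
      nlinarith [hx.2]
    have := Convex.norm_image_sub_le_of_norm_hasDerivWithin_le (f := ψ)
      (f' := fun x => (fwdDiff h)^[n] (deriv φ) x) (C := C * h ^ n) (s := Icc s (s + h))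
      (x := s) (y := s + h) (fun x hx => (hder x hx).hasDerivWithinAt) hbd (convex_Icc _ _)
      ⟨le_refl _, by linarith⟩ ⟨by linarith, le_refl _⟩
    rw [Real.norm_eq_abs, Real.norm_eq_abs] at this
    calc |ψ (s + h) - ψ s| ≤ C * h ^ n * |s + h - s| := this
      _ = C * h ^ (n + 1) := by
        rw [add_sub_cancel_left, abs_of_nonneg hh]; ring

end Pool.Agent.Lib.MP_a17b09_nt
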