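import Mathlib

set_option autoImplicit false

namespace Pool.Agent.Lib.MP_a17b09_nt

open Classical in
/-- The number of prime factors of `n` lying in `P`, counted with multiplicity. -/
noncomputable def cnt (P : Set ℕ) (n : ℕ) : ℕ :=
  n.primeFactorsList.countP (fun p => decide (p ∈ P))

/-- the norm form `x² + b x y + c y²`. -/
def nrm (b c : ℤ) (u : ℤ × ℤ) : ℤ := u.1 ^ 2 + b * u.1 * u.2 + c * u.2 ^ 2

/-- multiplication in `ℤ[ω]`, `ω² = b ω - c`. -/
def mulp (b c : ℤ) (u v : ℤ × ℤ) : ℤ × ℤ :=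
  (u.1 * v.1 - c * u.2 * v.2, u.1 * v.2 + u.2 * v.1 + b * u.2 * v.2)

/-- determinant -/
def det (u v : ℤ × ℤ) : ℤ := u.1 * v.2 - u.2 * v.1

/-- label -/
def lab (b c : ℤ) (u v : ℤ × ℤ) : ℤ := u.1 * v.1 + b * v.1 * u.2 + c * u.2 * v.2

lemma nrm_mulp (b c : ℤ) (u v : ℤ × ℤ) : nrm b c (mulp b c u v) = nrm b c u * nrm b c v := by
  simp only [nrm, mulp]; ring

lemma nrm_mul_nrm (b c : ℤ) (u v : ℤ × ℤ) :
    nrm b c u * nrm b c v =
      (lab b c u v) ^ 2 + b * (lab b c u v) * (det u v) + c * (det u v) ^ 2 := by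
  simp only [nrm, lab, det]; ring

/-- sign attached to an integer -/
noncomputable def sgn (P : Set ℕ) (n : ℤ) : ℤ := (-1) ^ (cnt P n.natAbs)

lemma cnt_mul (P : Set ℕ) {m n : ℕ} (hm : m ≠ 0) (hn : n ≠ 0) :
    cnt P (m * n) = cnt P m + cnt P n := by
  classical
  unfold cnt
  rw [(Nat.perm_primeFactorsList_mul hm hn).countP_eq, List.countP_append]

lemma sgn_mul (P : Set ℕ) {m n : ℤ} (hm : m ≠ 0) (hn : n ≠ 0) :
    sgn P (m * n) = sgn P m * sgn P n := by
  unfold sgn
  rw [Int.natAbs_mul, cnt_mul P (Int.natAbs_ne_zero.2 hm) (Int.natAbs_ne_zero.2 hn), pow_add]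

lemma sgn_eq_or (P : Set ℕ) (n : ℤ) : sgn P n = 1 ∨ sgn P n = -1 := neg_one_pow_eq_or ℤ _

lemma sgn_mul_self (P : Set ℕ) (n : ℤ) : sgn P n * sgn P n = 1 := by
  rcases sgn_eq_or P n with h | h <;> rw [h] <;> norm_num

lemma sgn_ne_zero (P : Set ℕ) (n : ℤ) : sgn P n ≠ 0 := by
  rcases sgn_eq_or P n with h | h <;> rw [h] <;> norm_num

lemma sgn_sq_mul (P : Set ℕ) {d n : ℤ} (hd : d ≠ 0) (hn : n ≠ 0) :
    sgn P (d ^ 2 * n) = sgn P n := by
  rw [sgn_mul P (pow_ne_zero 2 hd) hn, sq, sgn_mul P hd hd, sgn_mul_self, one_mul]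

lemma sgn_mul_eq_neg_one {P : Set ℕ} {m n : ℤ} (hm : m ≠ 0) (hn : n ≠ 0)
    (h : sgn P m ≠ sgn P n) : sgn P (m * n) = -1 := by
  rw [sgn_mul P hm hn]
  rcases sgn_eq_or P m with h1 | h1 <;> rcases sgn_eq_or P n with h2 | h2
  · exact absurd (h1.trans h2.symm) h
  · rw [h1, h2]; norm_num
  · rw [h1, h2]; norm_num
  · exact absurd (h1.trans h2.symm) h

lemma sgn_eq_neg_one_iff (P : Set ℕ) (n : ℤ) : sgn P n = -1 ↔ Odd (cnt P n.natAbs) := by
  unfold sgn
  rw [neg_one_pow_eq_neg_one_iff_odd (by norm_num)]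

lemma sgn_prime {P : Set ℕ} {p : ℕ} (hp : p.Prime) (hP : p ∈ P) : sgn P (p : ℤ) = -1 := by
  rw [sgn_eq_neg_one_iff]
  simp only [Int.natAbs_natCast]
  unfold cnt
  rw [Nat.primeFactorsList_prime hp]
  simp [hP]

lemma four_nrm (b c : ℤ) (u : ℤ × ℤ) :
    4 * nrm b c u = (2 * u.1 + b * u.2) ^ 2 - (b ^ 2 - 4 * c) * u.2 ^ 2 := by
  simp only [nrm]; ring

lemma isSquare_of_sq_eq_mul_sq' (D x y : ℤ) (hy : y ≠ 0) (h : x ^ 2 = D * y ^ 2) : IsSquare D := by
  have h1 : y ^ 2 ∣ x ^ 2 := ⟨D, by rw [h]; ring⟩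
  have h2 : y ∣ x := (Int.pow_dvd_pow_iff (two_ne_zero)).1 h1
  obtain ⟨k, rfl⟩ := h2
  refine ⟨k, ?_⟩
  have hy2 : y ^ 2 ≠ 0 := pow_ne_zero 2 hy
  have : y ^ 2 * (k * k) = y ^ 2 * D := by
    calc y ^ 2 * (k * k) = (y * k) ^ 2 := by ring
      _ = y ^ 2 * D := by rw [h]; ring
  exact (mul_left_cancel₀ hy2 this).symm

lemma nrm_ne_zero {b c : ℤ} (hD : ¬ IsSquare (b ^ 2 - 4 * c)) {u : ℤ × ℤ} (hu : u ≠ 0) :
    nrm b c u ≠ 0 := by
  intro h0
  have h4 := four_nrm b c u
  rw [h0, mul_zero] at h4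
  by_cases hy : u.2 = 0
  · apply hu
    have hx : u.1 = 0 := by
      rw [hy] at h4
      have : (2 * u.1 + b * 0) ^ 2 = 0 := by linarith
      have := pow_eq_zero_iff (two_ne_zero) |>.1 this
      linarith
    exact Prod.ext hx hy
  · exact hD (isSquare_of_sq_eq_mul_sq' _ (2 * u.1 + b * u.2) _ hy (by linarith))

/-- colour of a vector -/
noncomputable def col (P : Set ℕ) (b c : ℤ) (u : ℤ × ℤ) : ℤ := sgn P (nrm b c u)

lemma col_eq_or (P : Set ℕ) (b c : ℤ) (u : ℤ × ℤ) : col P b c u = 1 ∨ col P b c u = -1 :=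
  sgn_eq_or _ _

lemma mulp_ne_zero {b c : ℤ} (hD : ¬ IsSquare (b ^ 2 - 4 * c)) {u v : ℤ × ℤ} (hu : u ≠ 0)
    (hv : v ≠ 0) : mulp b c u v ≠ 0 := by
  intro h
  have := nrm_mulp b c u v
  rw [h] at this
  have h0 : nrm b c 0 = 0 := by simp [nrm]
  rw [h0] at this
  exact mul_ne_zero (nrm_ne_zero hD hu) (nrm_ne_zero hD hv) this.symm

lemma col_mulp (P : Set ℕ) {b c : ℤ} (hD : ¬ IsSquare (b ^ 2 - 4 * c)) {u v : ℤ × ℤ}
    (hu : u ≠ 0) (hv : v ≠ 0) : col P b c (mulp b c u v) = col P b c u * col P b c v := by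
  unfold col
  rw [nrm_mulp, sgn_mul P (nrm_ne_zero hD hu) (nrm_ne_zero hD hv)]

lemma col_smul (P : Set ℕ) {b c : ℤ} (hD : ¬ IsSquare (b ^ 2 - 4 * c)) {d : ℤ} (hd : d ≠ 0)
    {u : ℤ × ℤ} (hu : u ≠ 0) : col P b c (d * u.1, d * u.2) = col P b c u := by
  unfold col
  have : nrm b c (d * u.1, d * u.2) = d ^ 2 * nrm b c u := by simp only [nrm]; ring
  rw [this, sgn_sq_mul P hd (nrm_ne_zero hD hu)]

/-- The path lemma: between two primitive vectors of different colours there is a unimodular pair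
of different colours, in the cone they span and not larger. -/
theorem path_lemma (P : Set ℕ) (b c : ℤ) (X : ℤ) :
    ∀ n : ℕ, ∀ u v : ℤ × ℤ, 0 < n → det u v = n → IsCoprime u.1 u.2 → IsCoprime v.1 v.2 →
      0 < u.1 → 0 < v.1 → u.1 ≤ X → v.1 ≤ X → col P b c u ≠ col P b c v →
      ∃ u' v' : ℤ × ℤ, det u' v' = 1 ∧ 0 < u'.1 ∧ 0 < v'.1 ∧ u'.1 ≤ X ∧ v'.1 ≤ X ∧
        col P b c u' ≠ col P b c v' ∧ 0 ≤ det u u' ∧ 0 ≤ det u' v ∧ 0 ≤ det u v' ∧
        0 ≤ det v' v := by
  intro n
  induction n using Nat.strong_induction_on with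
  | _ n ih =>
    intro u v hn hdet hu hv hu1 hv1 huX hvX hcol
    rcases Nat.lt_or_ge 1 n with h1 | h1
    swap
    · have hn1 : n = 1 := by omega
      subst hn1
      refine ⟨u, v, by simpa using hdet, hu1, hv1, huX, hvX, hcol, ?_, ?_, ?_, ?_⟩
      · simp [det, mul_comm]
      · rw [hdet]; simp
      · rw [hdet]; simp
      · simp [det, mul_comm]
    · -- n > 1
      obtain ⟨p, q, hpq⟩ := hu
      -- w0 = (-q, p) has det u w0 = 1
      have hw0 : u.1 * p + u.2 * q = 1 := by linarith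
      set α : ℤ := v.1 * p + v.2 * q with hα
      have hv1' : v.1 = α * u.1 + n * (-q) := by
        have : (n : ℤ) = u.1 * v.2 - u.2 * v.1 := by rw [← hdet]; rfl
        rw [hα, this]
        linear_combination (-v.1) * hw0
      have hv2' : v.2 = α * u.2 + n * p := by
        have : (n : ℤ) = u.1 * v.2 - u.2 * v.1 := by rw [← hdet]; rfl
        rw [hα, this]
        linear_combination (-v.2) * hw0
      have hnpos : (0 : ℤ) < n := by exact_mod_cast hn
      set j : ℤ := (-α) % n with hj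
      have hj0 : 0 ≤ j := Int.emod_nonneg _ hnpos.ne'
      have hjn : j < n := Int.emod_lt_of_pos _ hnpos
      obtain ⟨t, ht⟩ : ∃ t : ℤ, α + j = n * t := by
        refine ⟨-((-α) / n), ?_⟩
        have := Int.emod_add_mul_ediv (-α) n
        rw [hj]; linarith
      set w : ℤ × ℤ := (t * u.1 - q, t * u.2 + p) with hw
      have hw1 : n * w.1 = v.1 + j * u.1 := by
        rw [hw]; simp only
        linear_combination (-u.1) * ht - hv1'
      have hw2 : n * w.2 = v.2 + j * u.2 := by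
        rw [hw]; simp only
        linear_combination (-u.2) * ht - hv2'
      have hjpos : 0 < j := by
        rcases lt_or_eq_of_le hj0 with h | h
        · exact h
        · exfalso
          rw [← h] at hw1 hw2
          obtain ⟨r, s, hrs⟩ := hv
          have : (n : ℤ) ∣ 1 := by
            refine ⟨r * w.1 + s * w.2, ?_⟩
            have e1 : v.1 = n * w.1 := by linarith
            have e2 : v.2 = n * w.2 := by linarith
            rw [← hrs, e1, e2]; ring
          have := Int.eq_one_of_dvd_one hnpos.le this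
          omega
      have hdetuw : det u w = 1 := by
        rw [hw]; simp only [det]; linear_combination hw0
      have hdetwv : det w v = j := by
        have h2 : (n : ℤ) * det w v = n * j := by
          have e : (n : ℤ) * det w v = (n * w.1) * v.2 - (n * w.2) * v.1 := by
            simp only [det]; ring
          rw [e, hw1, hw2]
          have e2 : det u v = n := hdet
          simp only [det] at e2
          linear_combination j * e2
        exact mul_left_cancel₀ hnpos.ne' h2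
      have hwcop : IsCoprime w.1 w.2 := by
        refine ⟨-u.2, u.1, ?_⟩
        simp only [det] at hdetuw
        linarith
      have hwpos : 0 < w.1 := by
        have : 0 < (n : ℤ) * w.1 := by rw [hw1]; positivity
        exact (mul_pos_iff_of_pos_left hnpos).1 this
      have hwX : w.1 ≤ X := by
        have h3 : (n : ℤ) * w.1 ≤ n * X := by
          rw [hw1]
          have : j * u.1 ≤ (n - 1) * X := by
            have hX : 0 ≤ X := by linarith
            calc j * u.1 ≤ j * X := by gcongr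
              _ ≤ (n - 1) * X := by
                have : j ≤ (n : ℤ) - 1 := by linarith
                gcongr
          linarith
        exact le_of_mul_le_mul_left h3 hnpos
      by_cases hc : col P b c u = col P b c w
      · -- use IH on (w, v)
        have hjn' : j.toNat < n := by omega
        have hcol' : col P b c w ≠ col P b c v := by rw [← hc]; exact hcol
        obtain ⟨u', v', h1', h2', h3', h4', h5', h6', h7', h8', h9', h10'⟩ :=
          ih j.toNat hjn' w v (by omega) (by rw [hdetwv]; omega) hwcop hv hwpos hv1 hwX hvX hcol'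
        have key : ∀ z : ℤ × ℤ, 0 < z.1 → 0 ≤ det w z → 0 ≤ det u z := by
          intro z hz hz2
          have e : det u z * w.1 = det u w * z.1 + det w z * u.1 := by simp only [det]; ring
          have : 0 ≤ det u z * w.1 := by
            rw [e, hdetuw]; positivity
          exact nonneg_of_mul_nonneg_left this hwpos
        exact ⟨u', v', h1', h2', h3', h4', h5', h6', key u' h2' h7', h8', key v' h3' h9', h10'⟩
      · refine ⟨u, w, hdetuw, hu1, hwpos, huX, hwX, hc, ?_, ?_, ?_, ?_⟩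
        · simp [det, mul_comm]
        · rw [hdet]; exact hnpos.le
        · rw [hdetuw]; norm_num
        · rw [hdetwv]; exact hj0

end Pool.Agent.Lib.MP_a17b09_nt
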