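import Mathlib

set_option autoImplicit false

namespace Pool.Agent.Lib.MP_a17b09_nt

lemma isSquare_of_sq_eq_mul_sq (D x y : ℤ) (hy : y ≠ 0) (h : x ^ 2 = D * y ^ 2) : IsSquare D := by
  have h1 : y ^ 2 ∣ x ^ 2 := ⟨D, by rw [h]; ring⟩
  have h2 : y ∣ x := (Int.pow_dvd_pow_iff (two_ne_zero)).1 h1
  obtain ⟨k, rfl⟩ := h2
  refine ⟨k, ?_⟩
  have hy2 : y ^ 2 ≠ 0 := pow_ne_zero 2 hy
  have : y ^ 2 * (k * k) = y ^ 2 * D := by
    calc y ^ 2 * (k * k) = (y * k) ^ 2 := by ring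
      _ = y ^ 2 * D := by rw [h]; ring
  exact (mul_left_cancel₀ hy2 this).symm

lemma case_aux (p d D x y z Q : ℤ) (hp : 0 < p) (hd : 0 < d) (hD0 : D ≠ 0) (hdab : d = |D|)
    (hx : x ^ 2 < p * d) (hy : y ^ 2 < p) (hz : z ^ 2 < d)
    (hQ : Q = x ^ 2 - D * y ^ 2 - p * z ^ 2) (hdvd : p * d ∣ Q) : Q = 0 ∨ Q = - p * D := by
  obtain ⟨k, hk⟩ := hdvd
  have hpd : 0 < p * d := mul_pos hp hd
  have h1 : d * y ^ 2 < d * p := (mul_lt_mul_iff_right₀ hd).2 hy
  have h2 : p * z ^ 2 < p * d := (mul_lt_mul_iff_right₀ hp).2 hz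
  have h3 : 0 ≤ d * y ^ 2 := mul_nonneg hd.le (sq_nonneg y)
  have h4 : 0 ≤ p * z ^ 2 := mul_nonneg hp.le (sq_nonneg z)
  have h5 : 0 ≤ x ^ 2 := sq_nonneg x
  have h6 : d * p = p * d := mul_comm d p
  rcases lt_or_gt_of_ne hD0 with hneg | hpos
  · have hDd : D = - d := by rw [hdab, abs_of_neg hneg]; ring
    have e : D * y ^ 2 = - (d * y ^ 2) := by rw [hDd]; ring
    have hlow : -(p * d) < Q := by linarith
    have hup : Q < 2 * (p * d) := by linarith
    have hk1 : -1 < k := by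
      by_contra hcon
      have hcon' : k ≤ -1 := by linarith
      have : p * d * k ≤ p * d * (-1) := mul_le_mul_of_nonneg_left hcon' hpd.le
      linarith
    have hk2 : k < 2 := by
      by_contra hcon
      have hcon' : 2 ≤ k := by linarith
      have : p * d * 2 ≤ p * d * k := mul_le_mul_of_nonneg_left hcon' hpd.le
      linarith
    have : k = 0 ∨ k = 1 := by omega
    rcases this with rfl | rfl
    · left; rw [hk]; ring
    · right; rw [hk, hDd]; ring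
  · have hDd : D = d := by rw [hdab, abs_of_pos hpos]
    have e : D * y ^ 2 = d * y ^ 2 := by rw [hDd]
    have hup : Q < p * d := by linarith
    have hlow : -2 * (p * d) < Q := by linarith
    have hk1 : -2 < k := by
      by_contra hcon
      have hcon' : k ≤ -2 := by linarith
      have : p * d * k ≤ p * d * (-2) := mul_le_mul_of_nonneg_left hcon' hpd.le
      linarith
    have hk2 : k < 1 := by
      by_contra hcon
      have hcon' : 1 ≤ k := by linarith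
      have : p * d * 1 ≤ p * d * k := mul_le_mul_of_nonneg_left hcon' hpd.le
      linarith
    have : k = 0 ∨ k = -1 := by omega
    rcases this with rfl | rfl
    · left; rw [hk]; ring
    · right; rw [hk, hDd]; ring

lemma aux_pd (p d : ℤ) (hp : 1 ≤ p) (hd : 1 ≤ d) : p * d ≤ 4 * p * d ^ 2 := by
  have h1 : p * d * 1 ≤ p * d * d := mul_le_mul_of_nonneg_left hd (by positivity)
  have h2 : 0 ≤ p * d * d := by positivity
  linarith [show 4 * p * d ^ 2 = 4 * (p * d * d) by ring]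

lemma aux_p (p d : ℤ) (hp : 1 ≤ p) (hd : 1 ≤ d) : p ≤ 4 * p * d := by
  have h1 : p * 1 ≤ p * d := mul_le_mul_of_nonneg_left hd (by positivity)
  have h2 : 0 ≤ p * d := by positivity
  linarith [show 4 * p * d = 4 * (p * d) by ring]

lemma aux_z (z d : ℤ) (hd : 1 ≤ d) (hz : z ^ 2 < d) : |z| ≤ 2 * d := by
  have h0 : d * 1 ≤ d * d := mul_le_mul_of_nonneg_left hd (by linarith)
  have h1 : |z| ^ 2 < (2 * d) ^ 2 := by
    rw [sq_abs]
    have : 0 ≤ d * d := mul_self_nonneg d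
    linarith [show (2 * d) ^ 2 = 4 * (d * d) by ring]
  exact (lt_of_pow_lt_pow_left₀ 2 (by linarith) h1).le

lemma aux_sq1 (x y z D : ℤ) : (x * z + D * y) ^ 2 ≤ 2 * (x ^ 2 * z ^ 2) + 2 * (D ^ 2 * y ^ 2) := by
  have := sq_nonneg (x * z - D * y)
  linarith [show (x * z - D * y) ^ 2 = 2 * (x ^ 2 * z ^ 2) + 2 * (D ^ 2 * y ^ 2) -
    (x * z + D * y) ^ 2 by ring]

lemma aux_sq2 (x y z : ℤ) : (x + y * z) ^ 2 ≤ 2 * x ^ 2 + 2 * (y ^ 2 * z ^ 2) := by
  have := sq_nonneg (x - y * z)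
  linarith [show (x - y * z) ^ 2 = 2 * x ^ 2 + 2 * (y ^ 2 * z ^ 2) - (x + y * z) ^ 2 by ring]

/-- For a nonsquare `D` and a prime `p ≡ 1 (mod 4|D|)` the ternary form `x² - D y² - p z²` has a
small zero with `z ≠ 0`. -/
theorem exists_small_norm_eq (D : ℤ) (hD : ¬ IsSquare D) (p : ℕ) (hp : p.Prime)
    (hp1 : p % (4 * D.natAbs) = 1) :
    ∃ x y z : ℤ, z ≠ 0 ∧ x ^ 2 - D * y ^ 2 = p * z ^ 2 ∧ x ^ 2 ≤ 4 * p * D.natAbs ^ 2 ∧
      y ^ 2 ≤ 4 * p * D.natAbs ∧ |z| ≤ 2 * D.natAbs := by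
  have : Fact p.Prime := ⟨hp⟩
  have hD0 : D ≠ 0 := by
    rintro rfl; exact hD ⟨0, by simp⟩
  set d : ℕ := D.natAbs with hd
  have hdpos : 0 < d := Int.natAbs_pos.2 hD0
  have hp4 : p % 4 = 1 := by
    have h := Nat.mod_mod_of_dvd p (Dvd.intro d rfl : 4 ∣ 4 * d)
    rw [hp1] at h
    omega
  have hpd : p ≡ 1 [MOD d] := by
    have h := Nat.mod_mod_of_dvd p (Dvd.intro_left 4 rfl : d ∣ 4 * d)
    rw [hp1] at h
    exact h.symm
  have hodd : Odd p := by
    rw [Nat.odd_iff]; omega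
  have hcop : Nat.Coprime p d := by
    have : Nat.gcd p d = Nat.gcd 1 d := hpd.gcd_eq
    simpa [Nat.Coprime] using this
  -- `D` is a square mod `p`
  have hJ : jacobiSym D p = 1 := by
    rw [jacobiSym.mod_right D hodd, ← hd, hp1]
    simp
  have hsq : IsSquare (D : ZMod p) := ZMod.isSquare_of_jacobiSym_eq_one hJ
  obtain ⟨r0, hr0⟩ := hsq
  obtain ⟨r, rfl⟩ := ZMod.intCast_surjective r0
  have hr : (p : ℤ) ∣ r ^ 2 - D := by
    rw [← ZMod.intCast_zmod_eq_zero_iff_dvd]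
    push_cast
    rw [hr0]; ring
  -- Bezout
  obtain ⟨u, v, huv⟩ : ∃ u v : ℤ, u * p + v * d = 1 := by
    have h := Int.isCoprime_iff_gcd_eq_one.2 (by simpa using hcop : Int.gcd (p : ℤ) (d : ℤ) = 1)
    obtain ⟨u, v, h⟩ := h
    exact ⟨u, v, h⟩
  set β : ℤ := r * v * d with hβ
  set γ : ℤ := u * p with hγ
  have hppos : 0 < p := hp.pos
  have hMpos : 0 < p * d := Nat.mul_pos hppos hdpos
  have : NeZero (p * d) := ⟨hMpos.ne'⟩
  set a := Nat.sqrt (p * d - 1) + 1 with ha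
  set b := Nat.sqrt (p - 1) + 1 with hb
  set c := Nat.sqrt (d - 1) + 1 with hc
  have ha2 : p * d ≤ a ^ 2 := by
    have h := Nat.lt_succ_sqrt' (p * d - 1)
    rw [Nat.succ_eq_add_one] at h
    rw [ha]; omega
  have hb2 : p ≤ b ^ 2 := by
    have h := Nat.lt_succ_sqrt' (p - 1)
    rw [Nat.succ_eq_add_one] at h
    rw [hb]; omega
  have hb2' : p < b ^ 2 := by
    rcases lt_or_eq_of_le hb2 with h | h
    · exact h
    · exfalso
      have : ¬ Nat.Prime (b ^ 2) := by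
        apply Nat.Prime.not_prime_pow (le_refl 2)
      exact this (h ▸ hp)
  have hc2 : d ≤ c ^ 2 := by
    have h := Nat.lt_succ_sqrt' (d - 1)
    rw [Nat.succ_eq_add_one] at h
    rw [hc]; omega
  have habc : p * d < a * b * c := by
    have h1 : (p * d) ^ 2 < (a * b * c) ^ 2 := by
      calc (p * d) ^ 2 = (p * d) * p * d := by ring
        _ ≤ (a ^ 2) * p * d := by gcongr
        _ < (a ^ 2) * (b ^ 2) * d := by
            gcongr
        _ ≤ a ^ 2 * b ^ 2 * c ^ 2 := by gcongr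
        _ = (a * b * c) ^ 2 := by ring
    exact lt_of_pow_lt_pow_left₀ 2 (by positivity) h1
  let S : Finset (ℕ × ℕ × ℕ) := Finset.range a ×ˢ (Finset.range b ×ˢ Finset.range c)
  let F : ℕ × ℕ × ℕ → ZMod (p * d) := fun t => (((t.1 : ℤ) - β * (t.2.1 : ℤ) - γ * (t.2.2 : ℤ) : ℤ) : ZMod (p * d))
  have hcard : (Finset.univ : Finset (ZMod (p * d))).card < S.card := by
    have : S.card = a * b * c := by simp [S, mul_assoc]
    rw [this, Finset.card_univ, ZMod.card]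
    exact habc
  obtain ⟨t1, ht1, t2, ht2, hne, hF⟩ := Finset.exists_ne_map_eq_of_card_lt_of_maps_to hcard
    (f := F) (fun x _ => Finset.mem_coe.2 (Finset.mem_univ _))
  obtain ⟨x1, y1, z1⟩ := t1
  obtain ⟨x2, y2, z2⟩ := t2
  simp only [S, Finset.mem_product, Finset.mem_range] at ht1 ht2
  obtain ⟨hx1, hy1, hz1⟩ := ht1
  obtain ⟨hx2, hy2, hz2⟩ := ht2
  set x : ℤ := (x1 : ℤ) - x2 with hx
  set y : ℤ := (y1 : ℤ) - y2 with hy
  set z : ℤ := (z1 : ℤ) - z2 with hz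
  have hdiv : ((p * d : ℕ) : ℤ) ∣ x - β * y - γ * z := by
    have h := hF
    simp only [F] at h
    rw [← sub_eq_zero, ← Int.cast_sub, ZMod.intCast_zmod_eq_zero_iff_dvd] at h
    convert h using 1
    rw [hx, hy, hz]; ring
  have hx2b : x ^ 2 < p * d := by
    have hab : |x| ≤ (Nat.sqrt (p * d - 1) : ℤ) := by
      rw [abs_le]; constructor <;> rw [hx] <;> omega
    have h1 : x ^ 2 ≤ (Nat.sqrt (p * d - 1) : ℤ) ^ 2 := by
      rw [← sq_abs x]; gcongr
    have h2 : (Nat.sqrt (p * d - 1)) ^ 2 ≤ p * d - 1 := Nat.sqrt_le' _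
    have h3 : ((Nat.sqrt (p * d - 1) : ℤ)) ^ 2 ≤ (p * d : ℤ) - 1 := by
      have : (((Nat.sqrt (p * d - 1)) ^ 2 : ℕ) : ℤ) ≤ ((p * d - 1 : ℕ) : ℤ) := by exact_mod_cast h2
      rw [Nat.cast_sub (by omega)] at this
      push_cast at this
      exact this
    linarith
  have hy2b : y ^ 2 < p := by
    have hab : |y| ≤ (Nat.sqrt (p - 1) : ℤ) := by
      rw [abs_le]; constructor <;> rw [hy] <;> omega
    have h1 : y ^ 2 ≤ (Nat.sqrt (p - 1) : ℤ) ^ 2 := by
      rw [← sq_abs y]; gcongr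
    have h2 : (Nat.sqrt (p - 1)) ^ 2 ≤ p - 1 := Nat.sqrt_le' _
    have h3 : ((Nat.sqrt (p - 1) : ℤ)) ^ 2 ≤ (p : ℤ) - 1 := by
      have : (((Nat.sqrt (p - 1)) ^ 2 : ℕ) : ℤ) ≤ ((p - 1 : ℕ) : ℤ) := by exact_mod_cast h2
      rw [Nat.cast_sub (by omega)] at this
      push_cast at this
      exact this
    linarith
  have hz2b : z ^ 2 < d := by
    have hab : |z| ≤ (Nat.sqrt (d - 1) : ℤ) := by
      rw [abs_le]; constructor <;> rw [hz] <;> omega
    have h1 : z ^ 2 ≤ (Nat.sqrt (d - 1) : ℤ) ^ 2 := by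
      rw [← sq_abs z]; gcongr
    have h2 : (Nat.sqrt (d - 1)) ^ 2 ≤ d - 1 := Nat.sqrt_le' _
    have h3 : ((Nat.sqrt (d - 1) : ℤ)) ^ 2 ≤ (d : ℤ) - 1 := by
      have : (((Nat.sqrt (d - 1)) ^ 2 : ℕ) : ℤ) ≤ ((d - 1 : ℕ) : ℤ) := by exact_mod_cast h2
      rw [Nat.cast_sub (by omega)] at this
      push_cast at this
      exact this
    linarith
  -- divisibility of Q
  set Q : ℤ := x ^ 2 - D * y ^ 2 - p * z ^ 2 with hQ
  have hdD : (d : ℤ) ∣ D := by rw [hd]; exact Int.natAbs_dvd.2 (dvd_refl D)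
  obtain ⟨w, hw⟩ := hdiv
  push_cast at hw
  obtain ⟨s, hs⟩ := hr
  have hQp : (p : ℤ) ∣ Q := by
    have hxr : (p : ℤ) ∣ x - r * y := by
      refine ⟨d * w + u * z - r * u * y, ?_⟩
      have : x = β * y + γ * z + p * d * w := by linarith
      rw [this, hβ, hγ]
      have h2 : v * d = 1 - u * p := by linarith
      calc r * v * ↑d * y + u * ↑p * z + ↑p * ↑d * w - r * y
          = r * (v * d) * y + u * p * z + p * d * w - r * y := by ring
        _ = _ := by rw [h2]; ring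
    have : Q = (x - r * y) * (x + r * y) + (r ^ 2 - D) * y ^ 2 - p * z ^ 2 := by rw [hQ]; ring
    rw [this]
    apply dvd_sub
    · apply dvd_add
      · exact Dvd.dvd.mul_right hxr _
      · exact Dvd.dvd.mul_right ⟨s, hs⟩ _
    · exact Dvd.intro _ rfl
  have hp1d : (d : ℤ) ∣ (p : ℤ) - 1 := by
    have := (Nat.modEq_iff_dvd.1 hpd.symm)
    simpa using this
  have hQd : (d : ℤ) ∣ Q := by
    have hxz : (d : ℤ) ∣ x - z := by
      refine ⟨p * w + r * v * y - v * z, ?_⟩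
      have : x = β * y + γ * z + p * d * w := by linarith
      rw [this, hβ, hγ]
      have h2 : u * p = 1 - v * d := by linarith
      calc r * v * ↑d * y + u * ↑p * z + ↑p * ↑d * w - z
          = r * v * d * y + (u * p) * z + p * d * w - z := by ring
        _ = _ := by rw [h2]; ring
    have : Q = (x - z) * (x + z) - (p - 1) * z ^ 2 - D * y ^ 2 := by rw [hQ]; ring
    rw [this]
    apply dvd_sub
    · apply dvd_sub
      · exact Dvd.dvd.mul_right hxz _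
      · exact Dvd.dvd.mul_right hp1d _
    · exact Dvd.dvd.mul_right hdD _
  have hQpd : ((p : ℤ) * d) ∣ Q := by
    apply IsCoprime.mul_dvd _ hQp hQd
    exact ⟨u, v, huv⟩
  have hppos' : (0 : ℤ) < p := by exact_mod_cast hppos
  have hdpos' : (0 : ℤ) < d := by exact_mod_cast hdpos
  have hpdpos : (0 : ℤ) < p * d := by positivity
  have hcase : Q = 0 ∨ Q = - p * D := by
    have hdab : (d : ℤ) = |D| := by rw [hd]; simp
    exact case_aux (p : ℤ) d D x y z Q hppos' hdpos' hD0 hdab hx2b hy2b hz2b hQ hQpd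
  have hd1 : (1 : ℤ) ≤ d := by exact_mod_cast hdpos
  have hp1' : (1 : ℤ) ≤ p := by exact_mod_cast hppos
  rcases hcase with h0 | h1
  · refine ⟨x, y, z, ?_, by linarith, ?_, ?_, ?_⟩
    rotate_left
    · exact hx2b.le.trans (aux_pd p d hp1' hd1)
    · exact hy2b.le.trans (aux_p p d hp1' hd1)
    · exact aux_z z d hd1 hz2b
    intro hz0
    have hxy : x ^ 2 = D * y ^ 2 := by rw [hQ, hz0] at h0; linarith
    by_cases hy0 : y = 0
    · have hx0 : x = 0 := by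
        rw [hy0] at hxy
        have : x ^ 2 = 0 := by rw [hxy]; ring
        exact pow_eq_zero_iff (two_ne_zero) |>.1 this
      apply hne
      have e1 : x1 = x2 := by rw [hx] at hx0; omega
      have e2 : y1 = y2 := by rw [hy] at hy0; omega
      have e3 : z1 = z2 := by rw [hz] at hz0; omega
      rw [e1, e2, e3]
    · exact hD (isSquare_of_sq_eq_mul_sq D x y hy0 hxy)
  · have hD2 : D ^ 2 = (d : ℤ) ^ 2 := by
      have hdab : (d : ℤ) = |D| := by rw [hd]; simp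
      rw [hdab, sq_abs]
    have hDle : |D| ≤ (d : ℤ) := by
      have hdab : (d : ℤ) = |D| := by rw [hd]; simp
      rw [hdab]
    have h5 : 0 ≤ z ^ 2 := sq_nonneg z
    have hxz : x ^ 2 * z ^ 2 ≤ (p : ℤ) * d * d :=
      mul_le_mul hx2b.le hz2b.le h5 hpdpos.le
    have hyz : y ^ 2 * z ^ 2 ≤ (p : ℤ) * d :=
      mul_le_mul hy2b.le hz2b.le h5 hppos'.le
    have hDy : D ^ 2 * y ^ 2 ≤ (p : ℤ) * d * d := by
      rw [hD2]
      have h6 : (d : ℤ) ^ 2 * y ^ 2 ≤ (d : ℤ) ^ 2 * p :=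
        mul_le_mul_of_nonneg_left hy2b.le (by positivity)
      linarith [h6, show (d : ℤ) ^ 2 * p = (p : ℤ) * d * d by ring]
    refine ⟨x * z + D * y, x + y * z, z ^ 2 - D, ?_, ?_, ?_, ?_, ?_⟩
    · intro hcon
      apply hD
      exact ⟨z, by linarith [sq z]⟩
    · have hxy : x ^ 2 - D * y ^ 2 = p * (z ^ 2 - D) := by rw [hQ] at h1; linarith
      calc (x * z + D * y) ^ 2 - D * (x + y * z) ^ 2 = (x ^ 2 - D * y ^ 2) * (z ^ 2 - D) := by ring
        _ = p * (z ^ 2 - D) ^ 2 := by rw [hxy]; ring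
    · have h5 := aux_sq1 x y z D
      have h7 : 4 * (p : ℤ) * (d : ℤ) ^ 2 = 2 * ((p : ℤ) * d * d) + 2 * ((p : ℤ) * d * d) := by ring
      rw [h7]
      linarith
    · have h5 := aux_sq2 x y z
      have h7 : 4 * (p : ℤ) * (d : ℤ) = 2 * ((p : ℤ) * d) + 2 * ((p : ℤ) * d) := by ring
      rw [h7]
      linarith
    · have h6 : |z ^ 2 - D| ≤ |z ^ 2| + |D| := abs_sub _ _
      rw [abs_of_nonneg (sq_nonneg z)] at h6
      linarith

theorem exists_norm_eq_prime_mul_sq (D : ℤ) (hD : ¬ IsSquare D) (p : ℕ) (hp : p.Prime)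
    (hp1 : p % (4 * D.natAbs) = 1) :
    ∃ x y z : ℤ, z ≠ 0 ∧ x ^ 2 - D * y ^ 2 = p * z ^ 2 := by
  obtain ⟨x, y, z, hz, h, -⟩ := exists_small_norm_eq D hD p hp hp1
  exact ⟨x, y, z, hz, h⟩

end Pool.Agent.Lib.MP_a17b09_nt
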