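import Pool.Agent.Lib.MP_a17b09_nt.Basic
import Pool.Agent.Lib.MP_a17b09_nt.Legendre

set_option autoImplicit false

namespace Pool.Agent.Lib.MP_a17b09_nt

/-- `P` contains a prime congruent to one modulo every positive `m` -/
def Dense (P : Set ℕ) : Prop := ∀ m : ℕ, 0 < m → ∃ p ∈ P, p.Prime ∧ p ≡ 1 [MOD m]

/-- there is `δ` with second coordinate divisible by `J`, positive norm and colour `-1` -/
lemma exists_delta0 {P : Set ℕ} (hP : Dense P) {b c : ℤ} (hD : ¬ IsSquare (b ^ 2 - 4 * c))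
    (J : ℕ) (hJ : 0 < J) :
    ∃ δ : ℤ × ℤ, 0 < nrm b c δ ∧ (J : ℤ) ∣ δ.2 ∧ col P b c δ = -1 := by
  set D : ℤ := b ^ 2 - 4 * c with hDdef
  set D' : ℤ := (J : ℤ) ^ 2 * D with hD'
  have hJz : (J : ℤ) ≠ 0 := by exact_mod_cast hJ.ne'
  have hns : ¬ IsSquare D' := by
    rintro ⟨k, hk⟩
    apply hD
    exact isSquare_of_sq_eq_mul_sq' D k J hJz (by rw [sq, ← hk, hD']; ring)
  have hD'0 : D' ≠ 0 := by
    intro h
    exact hns ⟨0, by rw [h]; rfl⟩
  have hm : 0 < 4 * D'.natAbs := by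
    have := Int.natAbs_pos.2 hD'0
    omega
  obtain ⟨p, hpP, hp, hpm⟩ := hP _ hm
  have hp1 : p % (4 * D'.natAbs) = 1 := by
    have h1 : 1 % (4 * D'.natAbs) = 1 := by
      apply Nat.mod_eq_of_lt
      omega
    rw [← h1]
    exact hpm
  obtain ⟨x, y, z, hz, hxyz⟩ := exists_norm_eq_prime_mul_sq D' hns p hp hp1
  refine ⟨(x - b * J * y, 2 * J * y), ?_, ?_, ?_⟩
  · have : nrm b c (x - b * J * y, 2 * J * y) = p * z ^ 2 := by
      rw [← hxyz, hD', hDdef]; simp only [nrm]; ring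
    rw [this]
    have : (0 : ℤ) < p := by exact_mod_cast hp.pos
    positivity
  · exact ⟨2 * y, by ring⟩
  · have : nrm b c (x - b * J * y, 2 * J * y) = z ^ 2 * p := by
      have : nrm b c (x - b * J * y, 2 * J * y) = p * z ^ 2 := by
        rw [← hxyz, hD', hDdef]; simp only [nrm]; ring
      rw [this]; ring
    unfold col
    rw [this, sgn_sq_mul P hz (by exact_mod_cast hp.ne_zero), sgn_prime hp hpP]

lemma not_isSquare_of_sgn {P : Set ℕ} {n : ℤ} (hn : n ≠ 0) (h : sgn P n = -1) : ¬ IsSquare n := by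
  rintro ⟨k, rfl⟩
  have hk : k ≠ 0 := by rintro rfl; simp at hn
  rw [sgn_mul P hk hk, sgn_mul_self] at h
  norm_num at h

/-- small slope version, from a given vector -/
lemma exists_delta_of {P : Set ℕ} {b c : ℤ} (hD : ¬ IsSquare (b ^ 2 - 4 * c))
    (J : ℕ) (hex : ∃ δ : ℤ × ℤ, 0 < nrm b c δ ∧ (J : ℤ) ∣ δ.2 ∧ col P b c δ = -1)
    (K : ℤ) (hK : 0 < K) :
    ∃ R S : ℤ, 0 < R ∧ 0 < S ∧ (J : ℤ) ∣ S ∧ K * S ≤ R ∧ col P b c (R, S) = -1 := by
  -- normalise the trace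
  obtain ⟨δ, hN, hJd, hcol, htr⟩ : ∃ δ : ℤ × ℤ, 0 < nrm b c δ ∧ (J : ℤ) ∣ δ.2 ∧
      col P b c δ = -1 ∧ 0 ≤ 2 * δ.1 + b * δ.2 := by
    obtain ⟨δ, hN, hJd, hcol⟩ := hex
    rcases le_total 0 (2 * δ.1 + b * δ.2) with h | h
    · exact ⟨δ, hN, hJd, hcol, h⟩
    · have e : nrm b c (-δ.1, -δ.2) = nrm b c δ := by simp only [nrm]; ring
      refine ⟨(-δ.1, -δ.2), ?_, ?_, ?_, ?_⟩
      · rw [e]; exact hN
      · exact (dvd_neg).2 hJd
      · unfold col at *; rw [e]; exact hcol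
      · simp only; linarith
  obtain ⟨d1, d2⟩ := δ
  simp only at hJd htr
  set N : ℤ := nrm b c (d1, d2) with hNdef
  have hNns : ¬ IsSquare N := not_isSquare_of_sgn hN.ne' hcol
  have hd2 : d2 ≠ 0 := by
    rintro rfl
    apply hNns
    exact ⟨d1, by rw [hNdef]; simp only [nrm]; ring⟩
  set m : ℤ := 3 * |d1| + 3 * K * |d2| + 1 with hm
  have hmpos : 0 < m := by rw [hm]; positivity
  have hN1 : 1 ≤ N := hN
  set M : ℕ := (m ^ 2 * N).toNat with hM
  have hMz : (M : ℤ) = m ^ 2 * N := by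
    rw [hM]; exact Int.toNat_of_nonneg (by positivity)
  set t0 : ℕ := Nat.sqrt M with ht0
  have hs1 : (t0 : ℤ) * t0 ≤ m ^ 2 * N := by
    rw [← hMz]; exact_mod_cast Nat.sqrt_le M
  have hs2 : m ^ 2 * N < ((t0 : ℤ) + 1) * (t0 + 1) := by
    rw [← hMz]; exact_mod_cast Nat.lt_succ_sqrt M
  have hns : ∀ k : ℤ, k * k ≠ m ^ 2 * N := by
    intro k hk
    apply hNns
    exact isSquare_of_sq_eq_mul_sq' N k m hmpos.ne' (by rw [sq, hk]; ring)
  have hs1' : (t0 : ℤ) * t0 < m ^ 2 * N := lt_of_le_of_ne hs1 (hns _)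
  have ht0m : m ≤ t0 := by
    by_contra h
    push Not at h
    have h1 : (t0 : ℤ) + 1 ≤ m := h
    have h0 : (0 : ℤ) ≤ t0 := by positivity
    have : ((t0 : ℤ) + 1) * (t0 + 1) ≤ m * m := by gcongr
    have : m * m ≤ m ^ 2 * N := by
      calc m * m = m ^ 2 * 1 := by ring
        _ ≤ m ^ 2 * N := by gcongr
    linarith
  -- choose t
  obtain ⟨t, htpos, htS, htb⟩ : ∃ t : ℤ, 0 < t ∧ 0 < (t ^ 2 - m ^ 2 * N) * d2 ∧
      |t ^ 2 - m ^ 2 * N| ≤ 3 * t := by
    rcases lt_or_gt_of_ne hd2 with h | h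
    · refine ⟨t0, by linarith, ?_, ?_⟩
      · apply mul_pos_of_neg_of_neg _ h
        rw [sq]; linarith
      · rw [abs_le]
        constructor
        · rw [sq]; nlinarith
        · rw [sq]; nlinarith
    · refine ⟨t0 + 1, by linarith, ?_, ?_⟩
      · apply mul_pos _ h
        rw [sq]; linarith
      · rw [abs_le]
        constructor
        · rw [sq]; nlinarith
        · rw [sq]; nlinarith
  set R : ℤ := t ^ 2 * d1 + 2 * t * m * N + m ^ 2 * N * (d1 + b * d2) with hR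
  set S : ℤ := (t ^ 2 - m ^ 2 * N) * d2 with hS
  have hRlow : t * (2 * m * N - 3 * |d1|) ≤ R := by
    have e : R = 2 * t * m * N + m ^ 2 * N * (2 * d1 + b * d2) + (t ^ 2 - m ^ 2 * N) * d1 := by
      rw [hR]; ring
    have h1 : 0 ≤ m ^ 2 * N * (2 * d1 + b * d2) := by positivity
    have h2 : -(3 * t * |d1|) ≤ (t ^ 2 - m ^ 2 * N) * d1 := by
      have : |(t ^ 2 - m ^ 2 * N) * d1| ≤ 3 * t * |d1| := by
        rw [abs_mul]; gcongr
      exact (abs_le.1 this).1
    rw [e]; linarith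
  have hSup : S ≤ 3 * t * |d2| := by
    calc S ≤ |S| := le_abs_self S
      _ = |t ^ 2 - m ^ 2 * N| * |d2| := by rw [hS, abs_mul]
      _ ≤ 3 * t * |d2| := by gcongr
  have hmN : m ≤ m * N := by
    calc m = m * 1 := by ring
      _ ≤ m * N := by gcongr
  have hd1 : 0 ≤ |d1| := abs_nonneg _
  have hd2' : 0 ≤ |d2| := abs_nonneg _
  have hKd : 0 ≤ K * |d2| := by positivity
  have hbig : 3 * K * |d2| + 1 ≤ 2 * m * N - 3 * |d1| := by
    have : 2 * m * N = 2 * (m * N) := by ring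
    rw [this]
    linarith
  have hRK : K * S ≤ R := by
    calc K * S ≤ K * (3 * t * |d2|) := by gcongr
      _ = t * (3 * K * |d2|) := by ring
      _ ≤ t * (2 * m * N - 3 * |d1|) := by gcongr; linarith
      _ ≤ R := hRlow
  have hRpos : 0 < R := by
    refine lt_of_lt_of_le ?_ hRlow
    apply mul_pos htpos
    linarith
  refine ⟨R, S, hRpos, htS, ?_, hRK, ?_⟩
  · rw [hS]; exact Dvd.dvd.mul_left hJd _
  · -- colour
    set ξ : ℤ × ℤ := (t + m * (d1 + b * d2), -(m * d2)) with hξ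
    have hξ0 : ξ ≠ 0 := by
      intro h
      have : -(m * d2) = 0 := congrArg Prod.snd h
      have : m * d2 = 0 := by linarith
      rcases mul_eq_zero.1 this with h | h
      · exact hmpos.ne' h
      · exact hd2 h
    have hδ0 : ((d1, d2) : ℤ × ℤ) ≠ 0 := by
      intro h
      exact hd2 (congrArg Prod.snd h)
    have e : ((R, S) : ℤ × ℤ) = mulp b c (mulp b c (d1, d2) ξ) ξ := by
      simp only [mulp, hξ, hR, hS, hNdef, nrm]
      apply Prod.ext
      · simp only; ring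
      · simp only; ring
    have h1 := mulp_ne_zero hD hδ0 hξ0
    rw [e, col_mulp P hD h1 hξ0, col_mulp P hD hδ0 hξ0, hcol]
    rcases col_eq_or P b c ξ with h | h <;> rw [h] <;> norm_num

/-- small slope version -/
lemma exists_delta {P : Set ℕ} (hP : Dense P) {b c : ℤ} (hD : ¬ IsSquare (b ^ 2 - 4 * c))
    (J : ℕ) (hJ : 0 < J) (K : ℤ) (hK : 0 < K) :
    ∃ R S : ℤ, 0 < R ∧ 0 < S ∧ (J : ℤ) ∣ S ∧ K * S ≤ R ∧ col P b c (R, S) = -1 :=
  exists_delta_of hD J (exists_delta0 hP hD J hJ) K hK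

/-- Step lemma. -/
lemma exists_step {P : Set ℕ} {b c : ℤ} {R S : ℤ} {J : ℕ} (hJ : 0 < J)
    (hR : 0 < R) (hS : 0 < S) (hJS : (J : ℤ) ∣ S) (hD : ¬ IsSquare (b ^ 2 - 4 * c))
    (hcol : col P b c (R, S) = -1) (m : ℕ) (hm : 0 < m) :
    ∃ y : ℤ, 0 ≤ y ∧ y + J ≤ m * S ∧ col P b c (m * R, y) * col P b c (m * R, y + J) = -1 := by
  obtain ⟨s, hs⟩ := hJS
  have hJpos : (0 : ℤ) < J := by exact_mod_cast hJ
  have hspos : 0 < s := by
    rw [hs] at hS
    exact (mul_pos_iff_of_pos_left hJpos).1 hS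
  have hmz : (0 : ℤ) < m := by exact_mod_cast hm
  by_contra hcon
  push Not at hcon
  have key : ∀ i : ℕ, (i : ℤ) ≤ m * s → col P b c (m * R, i * J) = 1 := by
    intro i
    induction i with
    | zero =>
      intro _
      have e : nrm b c (m * R, ((0 : ℕ) : ℤ) * J) = (m * R) * (m * R) := by
        simp only [nrm]; push_cast; ring
      unfold col
      have hmR : (m : ℤ) * R ≠ 0 := by positivity
      rw [e, sgn_mul P hmR hmR, sgn_mul_self]
    | succ i ih =>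
      intro hi
      have hi' : (i : ℤ) ≤ m * s := by push_cast at hi; linarith
      have h1 := ih hi'
      have h2 := hcon (i * J) (by positivity) (by
        calc (i : ℤ) * J + J = ((i + 1 : ℕ) : ℤ) * J := by push_cast; ring
          _ ≤ (m * s) * J := by gcongr
          _ = m * S := by rw [hs]; ring)
      rw [h1, one_mul] at h2
      have e : ((i + 1 : ℕ) : ℤ) * J = i * J + J := by push_cast; ring
      rw [e]
      rcases col_eq_or P b c (m * R, i * J + J) with h | h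
      · exact h
      · exact absurd h h2
  have hlast := key (m * s).toNat (by rw [Int.toNat_of_nonneg (by positivity)])
  rw [Int.toNat_of_nonneg (by positivity)] at hlast
  have e : ((m : ℤ) * R, (m : ℤ) * s * J) = ((m : ℤ) * (R, S).1, (m : ℤ) * (R, S).2) := by
    simp only [hs]
    apply Prod.ext
    · rfl
    · simp only; ring
  have hRS : ((R, S) : ℤ × ℤ) ≠ 0 := by
    intro h
    exact hR.ne' (congrArg Prod.fst h)
  rw [e, col_smul P hD hmz.ne' hRS, hcol] at hlast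
  norm_num at hlast

end Pool.Agent.Lib.MP_a17b09_nt
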