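import Pool.Agent.Lib.MP_a17b09_nt.Sector
import Pool.Agent.Lib.MP_a17b09_nt.Delta

set_option autoImplicit false

open Finset

namespace Pool.Agent.Lib.MP_a17b09_nt

/-- window of length two -/
def Win (b c : ℤ) (L : ℕ) (Xm : ℤ) (j : ℕ) (u : ℤ × ℤ) : Prop :=
  0 < u.1 ∧ u.1 ≤ Xm ∧ (j : ℝ) ≤ L * ang b c u ∧ L * ang b c u < j + 2

/-- populated interval -/
def Pop (b c : ℤ) (L : ℕ) (X0 : ℤ) (j : ℕ) : Prop :=
  ∃ u : ℤ × ℤ, 0 < u.1 ∧ u.1 ≤ X0 ∧ (j : ℝ) ≤ L * ang b c u ∧ L * ang b c u < j + 1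

/-- monochromatic window -/
def Mono (P : Set ℕ) (b c : ℤ) (L : ℕ) (Xm : ℤ) (j : ℕ) : Prop :=
  ∀ u v : ℤ × ℤ, Win b c L Xm j u → Win b c L Xm j v → col P b c u = col P b c v

/-- nice index -/
def Nice (P : Set ℕ) (b c : ℤ) (L : ℕ) (X0 Xm : ℤ) (j : ℕ) : Prop :=
  Mono P b c L Xm j ∧ Pop b c L X0 j

open Classical in
/-- colour of an index -/
noncomputable def cc (P : Set ℕ) (b c : ℤ) (L : ℕ) (Xm : ℤ) (j : ℕ) : ℤ :=
  if ∃ u : ℤ × ℤ, Win b c L Xm j u ∧ col P b c u = 1 then 1 else -1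

/-- offset -/
noncomputable def off (b c : ℤ) (L : ℕ) (κ : ℤ × ℤ) : ℕ := ⌊(L : ℝ) * ang b c κ⌋₊

lemma cc_eq {P : Set ℕ} {b c : ℤ} {L : ℕ} {Xm : ℤ} {j : ℕ} (hM : Mono P b c L Xm j) {u : ℤ × ℤ}
    (hu : Win b c L Xm j u) : cc P b c L Xm j = col P b c u := by
  unfold cc
  split_ifs with h
  · obtain ⟨v, hv, hv1⟩ := h
    rw [hM u v hu hv, hv1]
  · rcases col_eq_or P b c u with h1 | h1
    · exact absurd ⟨u, hu, h1⟩ h
    · exact h1.symm

lemma cc_succ {P : Set ℕ} {b c : ℤ} {L : ℕ} {X0 Xm : ℤ} (hX0 : X0 ≤ Xm) {j : ℕ}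
    (hj : Nice P b c L X0 Xm j) (hj1 : Nice P b c L X0 Xm (j + 1)) :
    cc P b c L Xm (j + 1) = cc P b c L Xm j := by
  obtain ⟨u, h1, h2, h3, h4⟩ := hj1.2
  have hw1 : Win b c L Xm (j + 1) u := ⟨h1, h2.trans hX0, h3, by linarith⟩
  have hw0 : Win b c L Xm j u := ⟨h1, h2.trans hX0, by push_cast at h3; linarith,
    by push_cast at h4; linarith⟩
  rw [cc_eq hj.1 hw0, cc_eq hj1.1 hw1]

lemma cc_step {P : Set ℕ} {b c : ℤ} (hD : ¬ IsSquare (b ^ 2 - 4 * c)) {L : ℕ} (hL : 0 < L)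
    {X0 Xm Kx : ℤ} (hX0 : X0 ≤ Xm)
    (hX : 2 * (X0 * Kx) ≤ Xm) {j : ℕ} (hjL : (j : ℝ) + 1 ≤ L * a0 b c) {κ : ℤ × ℤ}
    (hκ : Sec b c κ) (hκK : κ.1 ≤ Kx) (hj : Nice P b c L X0 Xm j)
    (hj1 : Nice P b c L X0 Xm (j + off b c L κ)) :
    cc P b c L Xm (j + off b c L κ) = cc P b c L Xm j * col P b c κ := by
  obtain ⟨u, h1, h2, h3, h4⟩ := hj.2
  have hLr : (0 : ℝ) < L := by exact_mod_cast hL
  have hang0 : 0 ≤ ang b c u := by
    have : 0 ≤ (L : ℝ) * ang b c u := le_trans (by positivity) h3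
    exact nonneg_of_mul_nonneg_right this hLr
  have hanga : ang b c u ≤ a0 b c := by
    have : (L : ℝ) * ang b c u ≤ L * a0 b c := by linarith
    exact le_of_mul_le_mul_left this hLr
  have hu : Sec b c u := sec_of_ang h1 hang0 hanga
  have hang := ang_mulp hu hκ
  have hx := mulp_fst_bounds hu hκ
  have hκa := ang_nonneg hκ
  have hoff1 : (off b c L κ : ℝ) ≤ L * ang b c κ := Nat.floor_le (by positivity)
  have hoff2 : (L : ℝ) * ang b c κ < off b c L κ + 1 := Nat.lt_floor_add_one _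
  have hw0 : Win b c L Xm j u := ⟨h1, h2.trans hX0, h3, by linarith⟩
  have hw1 : Win b c L Xm (j + off b c L κ) (mulp b c u κ) := by
    refine ⟨hx.1, hx.2.trans (le_trans ?_ hX), ?_, ?_⟩
    · have hX0pos : 0 ≤ X0 := by linarith
      have hκ1 := hκ.1
      have : u.1 * κ.1 ≤ X0 * Kx := by gcongr
      linarith
    · rw [hang, mul_add]; push_cast; linarith
    · rw [hang, mul_add]; push_cast; linarith
  rw [cc_eq hj1.1 hw1, cc_eq hj.1 hw0, col_mulp P hD hu.ne_zero hκ.ne_zero]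

lemma cc_walk {P : Set ℕ} {b c : ℤ} (hD : ¬ IsSquare (b ^ 2 - 4 * c)) {L : ℕ} (hL : 0 < L)
    {X0 Xm Kx : ℤ} (hX0 : X0 ≤ Xm) (hX : 2 * (X0 * Kx) ≤ Xm) (l : List (ℤ × ℤ)) :
    (∀ κ ∈ l, Sec b c κ ∧ κ.1 ≤ Kx) → ∀ j : ℕ,
    (∀ i ≤ l.length, Nice P b c L X0 Xm (j + ((l.take i).map (off b c L)).sum)) →
    ((j : ℝ) + (l.map (off b c L)).sum + 1 ≤ L * a0 b c) →
    cc P b c L Xm (j + (l.map (off b c L)).sum) =
      cc P b c L Xm j * (l.map (col P b c)).prod := by
  induction l with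
  | nil => intro _ j _ _; simp
  | cons κ l ih =>
    intro hl j hnice hjL
    have hκ := hl κ (by simp)
    have hj0 : Nice P b c L X0 Xm j := by simpa using hnice 0 (by simp)
    have hj1 : Nice P b c L X0 Xm (j + off b c L κ) := by
      have := hnice 1 (by simp)
      simpa using this
    simp only [List.map_cons, List.sum_cons, List.prod_cons] at hjL ⊢
    rw [Nat.cast_add] at hjL
    have hpos : (0 : ℝ) ≤ ((l.map (off b c L)).sum : ℝ) := by positivity
    have hpos2 : (0 : ℝ) ≤ (off b c L κ : ℝ) := by positivity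
    have h1 := cc_step hD hL hX0 hX (j := j) (by linarith) hκ.1 hκ.2 hj0 hj1
    have h2 := ih (fun κ' hκ' => hl κ' (by simp [hκ'])) (j + off b c L κ) (by
      intro i hi
      have := hnice (i + 1) (by simpa using hi)
      simpa [add_assoc] using this) (by rw [Nat.cast_add]; linarith)
    rw [← add_assoc, h2, h1, mul_assoc]

lemma cc_const {P : Set ℕ} {b c : ℤ} {L : ℕ} {X0 Xm : ℤ} (hX0 : X0 ≤ Xm) (x : ℕ) :
    ∀ d : ℕ, (∀ i, x ≤ i → i ≤ x + d → Nice P b c L X0 Xm i) →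
      cc P b c L Xm (x + d) = cc P b c L Xm x := by
  intro d
  induction d with
  | zero => intro _; simp
  | succ d ih =>
    intro h
    rw [← add_assoc, cc_succ hX0 (h (x + d) (by omega) (by omega)) (h (x + d + 1) (by omega)
      (by omega))]
    exact ih (fun i hi hi' => h i hi (by omega))

lemma sum_take_le (f : ℤ × ℤ → ℕ) (l : List (ℤ × ℤ)) (i : ℕ) :
    ((l.take i).map f).sum ≤ (l.map f).sum := by
  conv_rhs => rw [← List.take_append_drop i l, List.map_append, List.sum_append]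
  exact Nat.le_add_right _ _

/-- the finite set of offsets -/
noncomputable def OO (b c : ℤ) (L n : ℕ) (l1 l2 : List (ℤ × ℤ)) : Finset ℕ :=
  ((range (n + 1)).image fun i => ((l1.take i).map (off b c L)).sum) ∪
  ((range (n + 1)).image fun i => ((l2.take i).map (off b c L)).sum) ∪
  Finset.Icc (min (l1.map (off b c L)).sum (l2.map (off b c L)).sum)
    (max (l1.map (off b c L)).sum (l2.map (off b c L)).sum)

lemma OO_le {b c : ℤ} {L n : ℕ} {l1 l2 : List (ℤ × ℤ)} {o : ℕ} (ho : o ∈ OO b c L n l1 l2) :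
    o ≤ max (l1.map (off b c L)).sum (l2.map (off b c L)).sum := by
  unfold OO at ho
  simp only [mem_union, mem_image, mem_range, Finset.mem_Icc] at ho
  rcases ho with (⟨i, _, rfl⟩ | ⟨i, _, rfl⟩) | h
  · exact (sum_take_le _ _ _).trans (le_max_left _ _)
  · exact (sum_take_le _ _ _).trans (le_max_right _ _)
  · exact h.2

lemma OO_card {b c : ℤ} {L n : ℕ} {l1 l2 : List (ℤ × ℤ)}
    (h12 : (l1.map (off b c L)).sum ≤ (l2.map (off b c L)).sum + (n + 1))
    (h21 : (l2.map (off b c L)).sum ≤ (l1.map (off b c L)).sum + (n + 1)) :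
    (OO b c L n l1 l2).card ≤ 3 * n + 4 := by
  unfold OO
  refine (card_union_le _ _).trans ?_
  have h1 := card_union_le ((range (n + 1)).image fun i => ((l1.take i).map (off b c L)).sum)
    ((range (n + 1)).image fun i => ((l2.take i).map (off b c L)).sum)
  have h2 := card_image_le (s := range (n + 1)) (f := fun i => ((l1.take i).map (off b c L)).sum)
  have h3 := card_image_le (s := range (n + 1)) (f := fun i => ((l2.take i).map (off b c L)).sum)
  rw [card_range] at h2 h3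
  rw [Nat.card_Icc]
  omega

/-- chain lemma -/
lemma chain {P : Set ℕ} {b c : ℤ} (hD : ¬ IsSquare (b ^ 2 - 4 * c)) {L n : ℕ} (hL : 0 < L)
    {X0 Xm Kx : ℤ} (hX0 : X0 ≤ Xm) (hX : 2 * (X0 * Kx) ≤ Xm) {l1 l2 : List (ℤ × ℤ)}
    (hl1 : ∀ κ ∈ l1, Sec b c κ ∧ κ.1 ≤ Kx) (hl2 : ∀ κ ∈ l2, Sec b c κ ∧ κ.1 ≤ Kx)
    (hn1 : l1.length ≤ n) (hn2 : l2.length ≤ n)
    (hprod : (l1.map (col P b c)).prod ≠ (l2.map (col P b c)).prod)
    (j : ℕ) (hj : (j : ℝ) + (max (l1.map (off b c L)).sum (l2.map (off b c L)).sum : ℕ) + 1 ≤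
      L * a0 b c) : ∃ o ∈ OO b c L n l1 l2, ¬ Nice P b c L X0 Xm (j + o) := by
  by_contra hcon
  push Not at hcon
  set T1 := (l1.map (off b c L)).sum with hT1
  set T2 := (l2.map (off b c L)).sum with hT2
  have m1 : ((T1 : ℕ) : ℝ) ≤ (max T1 T2 : ℕ) := by exact_mod_cast le_max_left _ _
  have m2 : ((T2 : ℕ) : ℝ) ≤ (max T1 T2 : ℕ) := by exact_mod_cast le_max_right _ _
  have w1 := cc_walk hD hL hX0 hX l1 hl1 j (by
    intro i hi
    apply hcon
    unfold OO
    simp only [mem_union, mem_image, mem_range]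
    exact Or.inl (Or.inl ⟨i, by omega, rfl⟩)) (by rw [← hT1]; linarith)
  have w2 := cc_walk hD hL hX0 hX l2 hl2 j (by
    intro i hi
    apply hcon
    unfold OO
    simp only [mem_union, mem_image, mem_range]
    exact Or.inl (Or.inr ⟨i, by omega, rfl⟩)) (by rw [← hT2]; linarith)
  rw [← hT1] at w1
  rw [← hT2] at w2
  have hmid : ∀ i, j + min T1 T2 ≤ i → i ≤ j + max T1 T2 → Nice P b c L X0 Xm i := by
    intro i hi1 hi2
    have h := hcon (i - j) (by
      unfold OO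
      rw [mem_union]
      right
      rw [Finset.mem_Icc, ← hT1, ← hT2]
      omega)
    have e : j + (i - j) = i := by omega
    rwa [e] at h
  have heq : cc P b c L Xm (j + T1) = cc P b c L Xm (j + T2) := by
    rcases le_total T1 T2 with h | h
    · have h3 := cc_const (P := P) (b := b) (c := c) (L := L) hX0 (j + T1) (T2 - T1) (by
        intro i hi hi'
        apply hmid i
        · rw [min_eq_left h]; exact hi
        · rw [max_eq_right h]; omega)
      have e : j + T1 + (T2 - T1) = j + T2 := by omega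
      rw [e] at h3
      exact h3.symm
    · have h3 := cc_const (P := P) (b := b) (c := c) (L := L) hX0 (j + T2) (T1 - T2) (by
        intro i hi hi'
        apply hmid i
        · rw [min_eq_right h]; exact hi
        · rw [max_eq_left h]; omega)
      have e : j + T2 + (T1 - T2) = j + T1 := by omega
      rw [e] at h3
      exact h3
  rw [w1, w2] at heq
  apply hprod
  have hne : cc P b c L Xm j ≠ 0 := by
    unfold cc; split_ifs <;> norm_num
  exact mul_left_cancel₀ hne heq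

/-- pigeonhole -/
lemma pigeon (bad : ℕ → Prop) [DecidablePred bad] (M M' : ℕ) (O : Finset ℕ)
    (hO : ∀ j < M, ∃ o ∈ O, bad (j + o)) (hM' : ∀ o ∈ O, M + o ≤ M') :
    M ≤ O.card * ((range M').filter bad).card := by
  have h1 : range M ⊆ O.biUnion (fun o => (range M).filter (fun j => bad (j + o))) := by
    intro j hj
    rw [mem_range] at hj
    obtain ⟨o, ho, hb⟩ := hO j hj
    rw [mem_biUnion]
    exact ⟨o, ho, by rw [mem_filter, mem_range]; exact ⟨hj, hb⟩⟩
  have h2 := (card_le_card h1).trans (card_biUnion_le_card_mul _ _ _ (by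
    intro o ho
    have : ((range M).filter (fun j => bad (j + o))).card ≤ ((range M').filter bad).card := by
      apply card_le_card_of_injOn (fun j => j + o)
      · intro j hj
        simp only [coe_filter, mem_range, Set.mem_ofPred_eq] at hj ⊢
        have := hM' o ho
        exact ⟨by omega, hj.2⟩
      · intro x _ y _ hxy
        simpa using hxy
    exact this))
  rwa [card_range] at h2

/-- list with multiplicities -/
def mkl (κ : ℕ → ℤ × ℤ) (w : ℕ → ℕ) : ℕ → List (ℤ × ℤ)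
  | 0 => []
  | m + 1 => mkl κ w m ++ List.replicate (w m) (κ m)

lemma mkl_sum {M : Type} [AddCommMonoid M] (κ : ℕ → ℤ × ℤ) (w : ℕ → ℕ) (g : ℤ × ℤ → M) (m : ℕ) :
    ((mkl κ w m).map g).sum = ∑ i ∈ range m, w i • g (κ i) := by
  induction m with
  | zero => simp [mkl]
  | succ m ih =>
    rw [sum_range_succ, ← ih]
    simp [mkl]

lemma mkl_prod {M : Type} [CommMonoid M] (κ : ℕ → ℤ × ℤ) (w : ℕ → ℕ) (g : ℤ × ℤ → M) (m : ℕ) :
    ((mkl κ w m).map g).prod = ∏ i ∈ range m, g (κ i) ^ w i := by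
  induction m with
  | zero => simp [mkl]
  | succ m ih =>
    rw [prod_range_succ, ← ih]
    simp [mkl]

lemma mkl_length (κ : ℕ → ℤ × ℤ) (w : ℕ → ℕ) (m : ℕ) :
    (mkl κ w m).length = ∑ i ∈ range m, w i := by
  induction m with
  | zero => simp [mkl]
  | succ m ih =>
    rw [sum_range_succ, ← ih]
    simp [mkl]

lemma mkl_mem {κ : ℕ → ℤ × ℤ} {w : ℕ → ℕ} {m : ℕ} {x : ℤ × ℤ} (h : x ∈ mkl κ w m) :
    ∃ i < m, x = κ i := by
  induction m with
  | zero => simp [mkl] at h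
  | succ m ih =>
    simp only [mkl, List.mem_append, List.mem_replicate] at h
    rcases h with h | h
    · obtain ⟨i, hi, e⟩ := ih h
      exact ⟨i, by omega, e⟩
    · exact ⟨m, by omega, h.2⟩

lemma off_sum_le {b c : ℤ} {L : ℕ} (l : List (ℤ × ℤ)) :
    (∀ κ ∈ l, Sec b c κ) →
    (((l.map (off b c L)).sum : ℕ) : ℝ) ≤ (l.map (fun κ => (L : ℝ) * ang b c κ)).sum ∧
    (l.map (fun κ => (L : ℝ) * ang b c κ)).sum ≤ ((l.map (off b c L)).sum : ℕ) + (l.length : ℝ) := by
  induction l with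
  | nil => intro _; simp
  | cons κ l ih =>
    intro hl
    have h := ih (fun κ' hκ' => hl κ' (by simp [hκ']))
    have hκ := ang_nonneg (hl κ (by simp))
    have hoff1 : (off b c L κ : ℝ) ≤ L * ang b c κ := Nat.floor_le (by positivity)
    have hoff2 : (L : ℝ) * ang b c κ < off b c L κ + 1 := Nat.lt_floor_add_one _
    simp only [List.map_cons, List.sum_cons, List.length_cons]
    rw [Nat.cast_add, Nat.cast_add]
    constructor
    · linarith [h.1]
    · rw [Nat.cast_one]; linarith [h.2]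

end Pool.Agent.Lib.MP_a17b09_nt
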