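import Pool.Agent.Lib.MP_a17b09_nt.Chain

set_option autoImplicit false

open Finset

namespace Pool.Agent.Lib.MP_a17b09_nt

/-- the polynomial -/
def ff (b c t : ℤ) : ℤ := t ^ 2 + b * t + c

lemma exists_primitive (P : Set ℕ) {b c : ℤ} (hD : ¬ IsSquare (b ^ 2 - 4 * c)) {u : ℤ × ℤ}
    (hu : 0 < u.1) : ∃ u1 : ℤ × ℤ, IsCoprime u1.1 u1.2 ∧ 0 < u1.1 ∧ u1.1 ≤ u.1 ∧
      slope u1 = slope u ∧ col P b c u1 = col P b c u := by
  have hg : 0 < Int.gcd u.1 u.2 := Int.gcd_pos_of_ne_zero_left _ hu.ne'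
  obtain ⟨m', n', hcop, hm, hn⟩ := Int.exists_gcd_one hg
  set g : ℤ := (Int.gcd u.1 u.2 : ℤ) with hgdef
  have hg' : 0 < g := by rw [hgdef]; exact_mod_cast hg
  have hm0 : 0 < m' := by
    rw [hm] at hu
    exact (mul_pos_iff_of_pos_right hg').1 hu
  refine ⟨(m', n'), Int.isCoprime_iff_gcd_eq_one.2 hcop, hm0, ?_, ?_, ?_⟩
  · simp only
    rw [hm]
    have : 1 ≤ g := hg'
    nlinarith
  · unfold slope
    simp only
    rw [hm, hn]
    have h1 : (m' : ℝ) ≠ 0 := by exact_mod_cast hm0.ne'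
    have h2 : (g : ℝ) ≠ 0 := by exact_mod_cast hg'.ne'
    push_cast
    field_simp
  · have h0 : ((m', n') : ℤ × ℤ) ≠ 0 := by
      intro h; exact hm0.ne' (congrArg Prod.fst h)
    have h := col_smul P hD hg'.ne' h0
    rw [← h]
    congr 1
    apply Prod.ext
    · simp only; rw [hm]; ring
    · simp only; rw [hn]; ring

lemma slope_le_of_det {u v : ℤ × ℤ} (hu : 0 < u.1) (hv : 0 < v.1) (h : 0 ≤ det u v) :
    slope u ≤ slope v := by
  unfold slope
  have h1 : (0 : ℝ) < u.1 := by exact_mod_cast hu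
  have h2 : (0 : ℝ) < v.1 := by exact_mod_cast hv
  rw [div_le_div_iff₀ h1 h2]
  simp only [det] at h
  have : (0 : ℝ) ≤ u.1 * v.2 - u.2 * v.1 := by exact_mod_cast h
  linarith

lemma ang_mono {b c : ℤ} {u v : ℤ × ℤ} (h : slope u ≤ slope v) : ang b c u ≤ ang b c v :=
  (strictMono_AA (b : ℝ) (c : ℝ)).monotone h

lemma bad_exists {P : Set ℕ} {b c : ℤ} (hD : ¬ IsSquare (b ^ 2 - 4 * c)) {L : ℕ}
    {Xm : ℤ} {j : ℕ} (hj : ¬ Mono P b c L Xm j) :
    ∃ u v : ℤ × ℤ, det u v = 1 ∧ Win b c L Xm j u ∧ Win b c L Xm j v ∧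
      col P b c u ≠ col P b c v := by
  unfold Mono at hj
  push Not at hj
  obtain ⟨u0, v0, hu0, hv0, hcol0⟩ := hj
  obtain ⟨u1, hcu, hu1, hu1X, hus, huc⟩ := exists_primitive P hD hu0.1
  obtain ⟨v1, hcv, hv1, hv1X, hvs, hvc⟩ := exists_primitive P hD hv0.1
  have hcol : col P b c u1 ≠ col P b c v1 := by rw [huc, hvc]; exact hcol0
  have hLr : (0 : ℝ) ≤ L := by positivity
  have main : ∀ u v : ℤ × ℤ, IsCoprime u.1 u.2 → IsCoprime v.1 v.2 → 0 < u.1 → 0 < v.1 →
      u.1 ≤ Xm → v.1 ≤ Xm → (j : ℝ) ≤ L * ang b c u → L * ang b c v < j + 2 → 0 < det u v →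
      col P b c u ≠ col P b c v → ∃ u v : ℤ × ℤ, det u v = 1 ∧ Win b c L Xm j u ∧
        Win b c L Xm j v ∧ col P b c u ≠ col P b c v := by
    intro u v hcu hcv hu hv huX hvX hjL hjL' hdet hcol
    obtain ⟨u', v', h1, h2, h3, h4, h5, h6, h7, h8, h9, h10⟩ :=
      path_lemma P b c Xm (det u v).toNat u v (by omega) (by omega) hcu hcv hu hv huX hvX hcol
    refine ⟨u', v', h1, ⟨h2, h4, ?_, ?_⟩, ⟨h3, h5, ?_, ?_⟩, h6⟩
    · have := ang_mono (b := b) (c := c) (slope_le_of_det hu h2 h7)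
      calc (j : ℝ) ≤ L * ang b c u := hjL
        _ ≤ L * ang b c u' := by gcongr
    · have := ang_mono (b := b) (c := c) (slope_le_of_det h2 hv h8)
      calc (L : ℝ) * ang b c u' ≤ L * ang b c v := by gcongr
        _ < j + 2 := hjL'
    · have := ang_mono (b := b) (c := c) (slope_le_of_det hu h3 h9)
      calc (j : ℝ) ≤ L * ang b c u := hjL
        _ ≤ L * ang b c v' := by gcongr
    · have := ang_mono (b := b) (c := c) (slope_le_of_det h3 hv h10)
      calc (L : ℝ) * ang b c v' ≤ L * ang b c v := by gcongr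
        _ < j + 2 := hjL'
  have eu : ang b c u1 = ang b c u0 := by unfold ang; rw [hus]
  have ev : ang b c v1 = ang b c v0 := by unfold ang; rw [hvs]
  rcases lt_trichotomy (det u1 v1) 0 with h | h | h
  · have hd : 0 < det v1 u1 := by simp only [det] at h ⊢; linarith
    exact main v1 u1 hcv hcu hv1 hu1 (hv1X.trans hv0.2.1) (hu1X.trans hu0.2.1)
      (by rw [ev]; exact hv0.2.2.1) (by rw [eu]; exact hu0.2.2.2) hd hcol.symm
  · exfalso
    apply hcol
    simp only [det] at h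
    have h1 : u1.1 ∣ v1.1 := by
      have : u1.1 ∣ u1.2 * v1.1 := ⟨v1.2, by linarith⟩
      exact hcu.dvd_of_dvd_mul_left this
    have h2 : v1.1 ∣ u1.1 := by
      have : v1.1 ∣ v1.2 * u1.1 := ⟨u1.2, by linarith⟩
      exact hcv.dvd_of_dvd_mul_left this
    have h3 : u1.1 = v1.1 := by
      have e1 := Int.le_of_dvd hv1 h1
      have e2 := Int.le_of_dvd hu1 h2
      linarith
    have h4 : u1.2 = v1.2 := by
      rw [h3] at h
      have : v1.1 * v1.2 = v1.1 * u1.2 := by linarith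
      exact (mul_left_cancel₀ hv1.ne' this).symm
    rw [Prod.ext h3 h4]
  · exact main u1 v1 hcu hcv hu1 hv1 (hu1X.trans hu0.2.1) (hv1X.trans hv0.2.1)
      (by rw [eu]; exact hu0.2.2.1) (by rw [ev]; exact hv0.2.2.2) h hcol

lemma sec_of_win {b c : ℤ} {L : ℕ} (hL : 0 < L) {Xm : ℤ} {j : ℕ}
    (hj : (j : ℝ) + 2 ≤ L * a0 b c) {u : ℤ × ℤ} (hu : Win b c L Xm j u) : Sec b c u := by
  have hLr : (0 : ℝ) < L := by exact_mod_cast hL
  obtain ⟨h1, h2, h3, h4⟩ := hu
  apply sec_of_ang h1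
  · have : 0 ≤ (L : ℝ) * ang b c u := le_trans (by positivity) h3
    exact nonneg_of_mul_nonneg_right this hLr
  · have : (L : ℝ) * ang b c u ≤ L * a0 b c := by linarith
    exact le_of_mul_le_mul_left this hLr

theorem bad_count {P : Set ℕ} {b c : ℤ} (hD : ¬ IsSquare (b ^ 2 - 4 * c)) {L : ℕ} (hL : 0 < L)
    {Xm : ℤ} (M' : ℕ) (hM' : (M' : ℝ) + 1 ≤ L * a0 b c) (bad : Finset ℕ)
    (hbad : ∀ j ∈ bad, j < M' ∧ ¬ Mono P b c L Xm j) (S : Finset ℕ)
    (hS : ∀ t : ℕ, 0 < t → (t : ℤ) ≤ 2 * Xm ^ 2 → 0 < ff b c t → sgn P (ff b c t) = -1 → t ∈ S)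
    (Dm : ℕ) (hDm : ∀ t ∈ S, (ff b c t).natAbs.divisors.card ≤ Dm) :
    bad.card ≤ S.card * (2 * Dm) := by
  classical
  have hex : ∀ j ∈ bad, ∃ u v : ℤ × ℤ, det u v = 1 ∧ Win b c L Xm j u ∧ Win b c L Xm j v ∧
      col P b c u ≠ col P b c v := fun j hj => bad_exists hD (hbad j hj).2
  choose! u v hdet hwu hwv hcol using hex
  have hj2 : ∀ j ∈ bad, (j : ℝ) + 2 ≤ L * a0 b c := by
    intro j hj
    have : (j : ℝ) + 1 ≤ M' := by exact_mod_cast (hbad j hj).1
    linarith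
  have hsu : ∀ j ∈ bad, Sec b c (u j) := fun j hj => sec_of_win hL (hj2 j hj) (hwu j hj)
  have hsv : ∀ j ∈ bad, Sec b c (v j) := fun j hj => sec_of_win hL (hj2 j hj) (hwv j hj)
  set T : Finset (Σ _ : ℕ, ℕ × ℕ) :=
    S.sigma (fun t => (ff b c t).natAbs.divisors ×ˢ range 2) with hT
  have hTcard : T.card ≤ S.card * (2 * Dm) := by
    rw [hT, card_sigma]
    calc ∑ t ∈ S, ((ff b c t).natAbs.divisors ×ˢ range 2).card ≤ ∑ _t ∈ S, 2 * Dm := by
          apply sum_le_sum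
          intro t ht
          rw [card_product, card_range]
          have := hDm t ht
          omega
      _ = S.card * (2 * Dm) := by rw [sum_const, smul_eq_mul]
  refine le_trans ?_ hTcard
  have hlabpos : ∀ j ∈ bad, 0 < lab b c (u j) (v j) := fun j hj => lab_pos (hsu j hj) (hsv j hj)
  have hff : ∀ j ∈ bad, ff b c (lab b c (u j) (v j)) = nrm b c (u j) * nrm b c (v j) := by
    intro j hj
    rw [nrm_mul_nrm, hdet j hj]
    unfold ff
    ring
  apply card_le_card_of_injOn (fun j => (⟨(lab b c (u j) (v j)).toNat,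
    ((nrm b c (u j)).natAbs, j % 2)⟩ : Σ _ : ℕ, ℕ × ℕ))
  · intro j hj
    have hj : j ∈ bad := hj
    have hl := hlabpos j hj
    have hcast : (((lab b c (u j) (v j)).toNat : ℕ) : ℤ) = lab b c (u j) (v j) :=
      Int.toNat_of_nonneg hl.le
    have hnu := nrm_pos (hsu j hj)
    have hnv := nrm_pos (hsv j hj)
    simp only [hT, coe_sigma, Set.mem_sigma_iff, mem_coe, mem_product, mem_range]
    refine ⟨?_, ?_, ?_⟩
    · apply hS
      · omega
      · rw [hcast]
        have h1 := (lab_bounds (hsu j hj) (hsv j hj)).2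
        have hu1 := (hwu j hj).1
        have hv1 := (hwv j hj).1
        have hu2 := (hwu j hj).2.1
        have hv2 := (hwv j hj).2.1
        have h2 : (u j).1 * (v j).1 ≤ Xm * Xm := by
          have : 0 ≤ Xm := by linarith
          gcongr
        have h3 : 0 < (u j).1 * (v j).1 := mul_pos hu1 hv1
        rw [sq]
        linarith
      · rw [hcast, hff j hj]; positivity
      · rw [hcast, hff j hj]
        exact sgn_mul_eq_neg_one hnu.ne' hnv.ne' (hcol j hj)
    · rw [hcast, hff j hj, Nat.mem_divisors]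
      constructor
      · rw [Int.natAbs_mul]; exact dvd_mul_right _ _
      · rw [Int.natAbs_ne_zero]; positivity
    · exact Nat.mod_lt _ (by norm_num)
  · intro j hj j' hj' heq
    have hj : j ∈ bad := hj
    have hj' : j' ∈ bad := hj'
    simp only [Sigma.mk.injEq, heq_eq_eq, Prod.mk.injEq] at heq
    obtain ⟨h1, h2, h3⟩ := heq
    have hl := hlabpos j hj
    have hl' := hlabpos j' hj'
    have hleq : lab b c (u j) (v j) = lab b c (u j') (v j') := by omega
    have hnu := nrm_pos (hsu j hj)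
    have hnu' := nrm_pos (hsu j' hj')
    have hneq : nrm b c (u j) = nrm b c (u j') := by omega
    obtain ⟨hu, -⟩ := fiber_lemma (hsu j hj) (hsu j' hj') (hdet j hj) (hdet j' hj') hleq hneq
    have w1 := hwu j hj
    have w2 := hwu j' hj'
    rw [← hu] at w2
    have k1 : (j : ℝ) < j' + 2 := lt_of_le_of_lt w1.2.2.1 w2.2.2.2
    have k2 : (j' : ℝ) < j + 2 := lt_of_le_of_lt w2.2.2.1 w1.2.2.2
    have k1' : j < j' + 2 := by exact_mod_cast k1
    have k2' : j' < j + 2 := by exact_mod_cast k2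
    omega

end Pool.Agent.Lib.MP_a17b09_nt
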