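import Pool.Agent.Lib.MP_a17b09_nt.Delta

set_option autoImplicit false

namespace Pool.Agent.Lib.MP_a17b09_nt

/-- uniform version of `exists_delta0` with a size bound -/
lemma exists_delta0B {b c : ℤ} (hD : ¬ IsSquare (b ^ 2 - 4 * c)) (J : ℕ) (hJ : 0 < J) :
    ∃ m0 : ℕ, 0 < m0 ∧ ∃ C1 : ℤ, 1 ≤ C1 ∧ ∀ P : Set ℕ, ∀ p ∈ P, p.Prime → p ≡ 1 [MOD m0] →
    ∃ δ : ℤ × ℤ, 0 < nrm b c δ ∧ (J : ℤ) ∣ δ.2 ∧ col P b c δ = -1 ∧ |δ.1| ≤ C1 * p ∧
      |δ.2| ≤ C1 * p := by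
  set D : ℤ := b ^ 2 - 4 * c with hDdef
  set D' : ℤ := (J : ℤ) ^ 2 * D with hD'
  have hJz : (J : ℤ) ≠ 0 := by exact_mod_cast hJ.ne'
  have hJ1 : (1 : ℤ) ≤ J := by exact_mod_cast hJ
  have hns : ¬ IsSquare D' := by
    rintro ⟨k, hk⟩
    apply hD
    exact isSquare_of_sq_eq_mul_sq' D k J hJz (by rw [sq, ← hk, hD']; ring)
  have hD'0 : D' ≠ 0 := by
    intro h
    exact hns ⟨0, by rw [h]; rfl⟩
  have hdpos : 0 < D'.natAbs := Int.natAbs_pos.2 hD'0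
  set d : ℤ := (D'.natAbs : ℤ) with hd
  have hd1 : 1 ≤ d := by rw [hd]; exact_mod_cast hdpos
  have hb0 : 0 ≤ |b| := abs_nonneg b
  refine ⟨4 * D'.natAbs, by omega, 2 * d * (1 + |b| * J) + 4 * J * d, ?_, ?_⟩
  · have h1 : 0 ≤ 2 * d * (1 + |b| * J) := by positivity
    have h2 : 1 * 1 ≤ J * d := mul_le_mul hJ1 hd1 (by norm_num) (by positivity)
    linarith [show 4 * (J : ℤ) * d = 4 * (J * d) by ring]
  intro P p hpP hp hpm
  have hp1 : p % (4 * D'.natAbs) = 1 := by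
    have h1 : 1 % (4 * D'.natAbs) = 1 := by
      apply Nat.mod_eq_of_lt
      omega
    rw [← h1]
    exact hpm
  obtain ⟨x, y, z, hz, hxyz, hxb, hyb, -⟩ := exists_small_norm_eq D' hns p hp hp1
  have hpz : (1 : ℤ) ≤ p := by exact_mod_cast hp.pos
  have hx : |x| ≤ 2 * d * p := by
    apply abs_le_of_sq_le_sq _ (by positivity)
    calc x ^ 2 ≤ 4 * p * d ^ 2 := hxb
      _ = 4 * d ^ 2 * (p * 1) := by ring
      _ ≤ 4 * d ^ 2 * (p * p) := by gcongr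
      _ = (2 * d * p) ^ 2 := by ring
  have hy : |y| ≤ 2 * d * p := by
    apply abs_le_of_sq_le_sq _ (by positivity)
    calc y ^ 2 ≤ 4 * p * d := hyb
      _ = 4 * ((p * 1) * (d * 1)) := by ring
      _ ≤ 4 * ((p * p) * (d * d)) := by gcongr
      _ = (2 * d * p) ^ 2 := by ring
  have hnrm : nrm b c (x - b * J * y, 2 * J * y) = z ^ 2 * p := by
    have : nrm b c (x - b * J * y, 2 * J * y) = x ^ 2 - D' * y ^ 2 := by
      rw [hD', hDdef]; simp only [nrm]; ring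
    rw [this, hxyz]; ring
  refine ⟨(x - b * J * y, 2 * J * y), ?_, ?_, ?_, ?_, ?_⟩
  · rw [hnrm]
    have : (0 : ℤ) < p := by linarith
    positivity
  · exact ⟨2 * y, by ring⟩
  · unfold col
    rw [hnrm, sgn_sq_mul P hz (by exact_mod_cast hp.ne_zero), sgn_prime hp hpP]
  · simp only
    have h1 : |x - b * J * y| ≤ |x| + |b * J * y| := abs_sub _ _
    have h2 : |b * J * y| = |b| * J * |y| := by
      rw [abs_mul, abs_mul, Nat.abs_cast]
    have h3 : |b| * J * |y| ≤ |b| * J * (2 * d * p) := by gcongr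
    have h4 : 0 ≤ 4 * (J : ℤ) * d * p := by positivity
    have h5 : (2 * d * (1 + |b| * J) + 4 * J * d) * p = 2 * d * p + |b| * J * (2 * d * p) +
      4 * (J : ℤ) * d * p := by ring
    rw [h5]
    linarith
  · simp only
    have h2 : |2 * J * y| = 2 * J * |y| := by
      rw [abs_mul, abs_of_nonneg (by positivity)]
    have h3 : 2 * (J : ℤ) * |y| ≤ 2 * J * (2 * d * p) := by gcongr
    have h4 : 0 ≤ 2 * d * (1 + |b| * J) * p := by positivity
    have h5 : (2 * d * (1 + |b| * J) + 4 * J * d) * p = 2 * J * (2 * d * p) +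
      2 * d * (1 + |b| * J) * p := by ring
    rw [h2, h5]
    linarith

lemma R_bound (W t m N d1 d2 b : ℤ) (hW : 1 ≤ W) (ht0 : 0 ≤ t) (ht : t ≤ W) (hm0 : 0 ≤ m)
    (hm : m ≤ W) (hN0 : 0 ≤ N) (hN : N ≤ W) (hd1 : |d1| ≤ W) (hd2 : |d2| ≤ W) (hb : |b| ≤ W) :
    t ^ 2 * d1 + 2 * t * m * N + m ^ 2 * N * (d1 + b * d2) ≤ 5 * W ^ 5 := by
  have hW0 : 0 ≤ W := by linarith
  have p3 : W ^ 3 ≤ W ^ 5 := pow_le_pow_right₀ hW (by norm_num)
  have p1 : W ≤ W ^ 2 := by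
    calc W = W ^ 1 := by ring
      _ ≤ W ^ 2 := pow_le_pow_right₀ hW (by norm_num)
  have h1 : t ^ 2 * d1 ≤ W ^ 3 := by
    calc t ^ 2 * d1 ≤ t ^ 2 * |d1| := by gcongr; exact le_abs_self _
      _ ≤ W ^ 2 * W := by gcongr
      _ = W ^ 3 := by ring
  have h2 : 2 * t * m * N ≤ 2 * W ^ 3 := by
    calc 2 * t * m * N ≤ 2 * W * W * W := by gcongr
      _ = 2 * W ^ 3 := by ring
  have h3 : m ^ 2 * N ≤ W ^ 3 := by
    calc m ^ 2 * N ≤ W ^ 2 * W := by gcongr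
      _ = W ^ 3 := by ring
  have h4 : d1 + b * d2 ≤ 2 * W ^ 2 := by
    have h5 : b * d2 ≤ W * W := by
      calc b * d2 ≤ |b * d2| := le_abs_self _
        _ = |b| * |d2| := abs_mul _ _
        _ ≤ W * W := by gcongr
    have h6 := le_abs_self d1
    have : W * W = W ^ 2 := by ring
    linarith
  have h7 : m ^ 2 * N * (d1 + b * d2) ≤ 2 * W ^ 5 := by
    have h8 : 0 ≤ m ^ 2 * N := by positivity
    calc m ^ 2 * N * (d1 + b * d2) ≤ m ^ 2 * N * (2 * W ^ 2) := by gcongr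
      _ ≤ W ^ 3 * (2 * W ^ 2) := by gcongr
      _ = 2 * W ^ 5 := by ring
  linarith

/-- small slope version with bounds -/
lemma exists_deltaB {b c : ℤ} (hD : ¬ IsSquare (b ^ 2 - 4 * c))
    (J : ℕ) (hJ : 0 < J) (K : ℤ) (hK : 0 < K) :
    ∃ m0 : ℕ, 0 < m0 ∧ ∃ C2 : ℤ, 1 ≤ C2 ∧ ∀ P : Set ℕ, ∀ p ∈ P, p.Prime → p ≡ 1 [MOD m0] →
    ∃ R S : ℤ, 0 < R ∧ 0 < S ∧ (J : ℤ) ∣ S ∧ K * S ≤ R ∧ col P b c (R, S) = -1 ∧
      R ≤ C2 * p ^ 20 := by
  obtain ⟨m0, hm0, C1, hC1, hex⟩ := exists_delta0B hD J hJ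
  set E : ℤ := (3 * K + 4) ^ 2 * (1 + |b| + |c|) with hE
  have hb0 : 0 ≤ |b| := abs_nonneg b
  have hc0 : 0 ≤ |c| := abs_nonneg c
  have hF : 1 ≤ (3 * K + 4) ^ 2 := by
    have : 1 ≤ 3 * K + 4 := by linarith
    exact one_le_pow₀ this
  have hbE : 1 + |b| + |c| ≤ E := by
    rw [hE]
    calc 1 + |b| + |c| = 1 * (1 + |b| + |c|) := by ring
      _ ≤ (3 * K + 4) ^ 2 * (1 + |b| + |c|) := by gcongr
  have hE1 : 1 ≤ E := by linarith
  refine ⟨m0, hm0, 5 * (2 * E * C1 ^ 4) ^ 5, ?_, ?_⟩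
  · have h1 : 1 ≤ C1 ^ 4 := one_le_pow₀ hC1
    have h2 : 1 ≤ 2 * E * C1 ^ 4 := by
      have : 1 * 1 ≤ (2 * E) * C1 ^ 4 := mul_le_mul (by linarith) h1 (by norm_num) (by linarith)
      linarith
    have h3 : 1 ≤ (2 * E * C1 ^ 4) ^ 5 := one_le_pow₀ h2
    linarith
  intro P p hpP hp hpm
  have hpz : (1 : ℤ) ≤ p := by exact_mod_cast hp.pos
  -- normalise the trace
  obtain ⟨δ, hN, hJd, hcol, htr, hδ1, hδ2⟩ : ∃ δ : ℤ × ℤ, 0 < nrm b c δ ∧ (J : ℤ) ∣ δ.2 ∧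
      col P b c δ = -1 ∧ 0 ≤ 2 * δ.1 + b * δ.2 ∧ |δ.1| ≤ C1 * p ∧ |δ.2| ≤ C1 * p := by
    obtain ⟨δ, hN, hJd, hcol, h1, h2⟩ := hex P p hpP hp hpm
    rcases le_total 0 (2 * δ.1 + b * δ.2) with h | h
    · exact ⟨δ, hN, hJd, hcol, h, h1, h2⟩
    · have e : nrm b c (-δ.1, -δ.2) = nrm b c δ := by simp only [nrm]; ring
      refine ⟨(-δ.1, -δ.2), ?_, ?_, ?_, ?_, ?_, ?_⟩
      · rw [e]; exact hN
      · exact (dvd_neg).2 hJd
      · unfold col at *; rw [e]; exact hcol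
      · simp only; linarith
      · simp only [abs_neg]; exact h1
      · simp only [abs_neg]; exact h2
  obtain ⟨d1, d2⟩ := δ
  simp only at hJd htr hδ1 hδ2
  set N : ℤ := nrm b c (d1, d2) with hNdef
  have hNns : ¬ IsSquare N := not_isSquare_of_sgn hN.ne' hcol
  have hd2 : d2 ≠ 0 := by
    rintro rfl
    apply hNns
    exact ⟨d1, by rw [hNdef]; simp only [nrm]; ring⟩
  set m : ℤ := 3 * |d1| + 3 * K * |d2| + 1 with hm
  have hmpos : 0 < m := by rw [hm]; positivity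
  have hN1 : 1 ≤ N := hN
  set M : ℕ := (m ^ 2 * N).toNat with hM
  have hMz : (M : ℤ) = m ^ 2 * N := by
    rw [hM]; exact Int.toNat_of_nonneg (by positivity)
  set t0 : ℕ := Nat.sqrt M with ht0
  have hs1 : (t0 : ℤ) * t0 ≤ m ^ 2 * N := by
    rw [← hMz]; exact_mod_cast Nat.sqrt_le M
  have hs2 : m ^ 2 * N < ((t0 : ℤ) + 1) * (t0 + 1) := by
    rw [← hMz]; exact_mod_cast Nat.lt_succ_sqrt M
  have hns : ∀ k : ℤ, k * k ≠ m ^ 2 * N := by
    intro k hk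
    apply hNns
    exact isSquare_of_sq_eq_mul_sq' N k m hmpos.ne' (by rw [sq, hk]; ring)
  have hs1' : (t0 : ℤ) * t0 < m ^ 2 * N := lt_of_le_of_ne hs1 (hns _)
  have ht0m : m ≤ t0 := by
    by_contra h
    push Not at h
    have h1 : (t0 : ℤ) + 1 ≤ m := h
    have h0 : (0 : ℤ) ≤ t0 := by positivity
    have : ((t0 : ℤ) + 1) * (t0 + 1) ≤ m * m := by gcongr
    have : m * m ≤ m ^ 2 * N := by
      calc m * m = m ^ 2 * 1 := by ring
        _ ≤ m ^ 2 * N := by gcongr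
    linarith
  have hup : ∀ s t : ℤ, 0 ≤ s → t * t < s → s < (t + 1) * (t + 1) → 1 ≤ t → |t ^ 2 - s| ≤ 3 * t ∧
      |(t + 1) ^ 2 - s| ≤ 3 * (t + 1) := by
    intro s t hs h1 h2 h3
    have e1 : (t + 1) * (t + 1) = t * t + 2 * t + 1 := by ring
    have e2 : t ^ 2 = t * t := by ring
    have e3 : (t + 1) ^ 2 = t * t + 2 * t + 1 := by ring
    rw [e1] at h2
    rw [abs_le, abs_le, e2, e3]
    refine ⟨⟨by linarith, by linarith⟩, by linarith, by linarith⟩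
  have ht01 : (1 : ℤ) ≤ t0 := by linarith
  obtain ⟨hup1, hup2⟩ := hup (m ^ 2 * N) t0 (by positivity) hs1' hs2 ht01
  -- choose t
  obtain ⟨t, htpos, htS, htb, htt⟩ : ∃ t : ℤ, 0 < t ∧ 0 < (t ^ 2 - m ^ 2 * N) * d2 ∧
      |t ^ 2 - m ^ 2 * N| ≤ 3 * t ∧ t ≤ t0 + 1 := by
    rcases lt_or_gt_of_ne hd2 with h | h
    · refine ⟨t0, by linarith, ?_, hup1, by linarith⟩
      apply mul_pos_of_neg_of_neg _ h
      rw [sq]; linarith
    · refine ⟨t0 + 1, by linarith, ?_, hup2, le_rfl⟩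
      apply mul_pos _ h
      rw [sq]; linarith
  set R : ℤ := t ^ 2 * d1 + 2 * t * m * N + m ^ 2 * N * (d1 + b * d2) with hR
  set S : ℤ := (t ^ 2 - m ^ 2 * N) * d2 with hS
  have hRlow : t * (2 * m * N - 3 * |d1|) ≤ R := by
    have e : R = 2 * t * m * N + m ^ 2 * N * (2 * d1 + b * d2) + (t ^ 2 - m ^ 2 * N) * d1 := by
      rw [hR]; ring
    have h1 : 0 ≤ m ^ 2 * N * (2 * d1 + b * d2) := by positivity
    have h2 : -(3 * t * |d1|) ≤ (t ^ 2 - m ^ 2 * N) * d1 := by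
      have : |(t ^ 2 - m ^ 2 * N) * d1| ≤ 3 * t * |d1| := by
        rw [abs_mul]; gcongr
      exact (abs_le.1 this).1
    rw [e]; linarith
  have hSup : S ≤ 3 * t * |d2| := by
    calc S ≤ |S| := le_abs_self S
      _ = |t ^ 2 - m ^ 2 * N| * |d2| := by rw [hS, abs_mul]
      _ ≤ 3 * t * |d2| := by gcongr
  have hmN : m ≤ m * N := by
    calc m = m * 1 := by ring
      _ ≤ m * N := by gcongr
  have hd1n : 0 ≤ |d1| := abs_nonneg _
  have hd2' : 0 ≤ |d2| := abs_nonneg _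
  have hKd : 0 ≤ K * |d2| := by positivity
  have hbig : 3 * K * |d2| + 1 ≤ 2 * m * N - 3 * |d1| := by
    have : 2 * m * N = 2 * (m * N) := by ring
    rw [this]
    linarith
  have hRK : K * S ≤ R := by
    calc K * S ≤ K * (3 * t * |d2|) := by gcongr
      _ = t * (3 * K * |d2|) := by ring
      _ ≤ t * (2 * m * N - 3 * |d1|) := by gcongr; linarith
      _ ≤ R := hRlow
  have hRpos : 0 < R := by
    refine lt_of_lt_of_le ?_ hRlow
    apply mul_pos htpos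
    linarith
  refine ⟨R, S, hRpos, htS, ?_, hRK, ?_, ?_⟩
  · rw [hS]; exact Dvd.dvd.mul_left hJd _
  · -- colour
    set ξ : ℤ × ℤ := (t + m * (d1 + b * d2), -(m * d2)) with hξ
    have hξ0 : ξ ≠ 0 := by
      intro h
      have : -(m * d2) = 0 := congrArg Prod.snd h
      have : m * d2 = 0 := by linarith
      rcases mul_eq_zero.1 this with h | h
      · exact hmpos.ne' h
      · exact hd2 h
    have hδ0 : ((d1, d2) : ℤ × ℤ) ≠ 0 := by
      intro h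
      exact hd2 (congrArg Prod.snd h)
    have e : ((R, S) : ℤ × ℤ) = mulp b c (mulp b c (d1, d2) ξ) ξ := by
      simp only [mulp, hξ, hR, hS, hNdef, nrm]
      apply Prod.ext
      · simp only; ring
      · simp only; ring
    have h1 := mulp_ne_zero hD hδ0 hξ0
    rw [e, col_mulp P hD h1 hξ0, col_mulp P hD hδ0 hξ0, hcol]
    rcases col_eq_or P b c ξ with h | h <;> rw [h] <;> norm_num
  · -- size
    set d : ℤ := C1 * p with hd
    have hd1 : 1 ≤ d := by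
      rw [hd]
      calc (1 : ℤ) = 1 * 1 := by ring
        _ ≤ C1 * p := by gcongr
    have hNb : N ≤ (1 + |b| + |c|) * d ^ 2 := by
      have e1 : d1 ^ 2 ≤ d ^ 2 := by rw [← sq_abs d1]; gcongr
      have e2 : b * d1 * d2 ≤ |b| * d ^ 2 := by
        calc b * d1 * d2 ≤ |b * d1 * d2| := le_abs_self _
          _ = |b| * (|d1| * |d2|) := by rw [abs_mul, abs_mul]; ring
          _ ≤ |b| * (d * d) := by gcongr
          _ = |b| * d ^ 2 := by ring
      have e3 : c * d2 ^ 2 ≤ |c| * d ^ 2 := by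
        calc c * d2 ^ 2 ≤ |c| * d2 ^ 2 := by gcongr; exact le_abs_self _
          _ = |c| * |d2| ^ 2 := by rw [sq_abs]
          _ ≤ |c| * d ^ 2 := by gcongr
      have e4 : N = d1 ^ 2 + b * d1 * d2 + c * d2 ^ 2 := rfl
      rw [e4]
      linarith [show (1 + |b| + |c|) * d ^ 2 = d ^ 2 + |b| * d ^ 2 + |c| * d ^ 2 by ring]
    have hmb : m ≤ (3 * K + 4) * d := by
      have h1 : 3 * K * |d2| ≤ 3 * K * d := by gcongr
      have h2 : (3 * K + 4) * d = 3 * K * d + 3 * d + d := by ring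
      rw [h2, hm]
      linarith
    have hmNb : m ^ 2 * N ≤ E * d ^ 4 := by
      calc m ^ 2 * N ≤ ((3 * K + 4) * d) ^ 2 * ((1 + |b| + |c|) * d ^ 2) := by gcongr
        _ = E * d ^ 4 := by rw [hE]; ring
    have hd4 : 1 ≤ d ^ 4 := one_le_pow₀ hd1
    have hdd4 : d ≤ d ^ 4 := by
      calc d = d ^ 1 := by ring
        _ ≤ d ^ 4 := pow_le_pow_right₀ hd1 (by norm_num)
    have hEd : E ≤ E * d ^ 4 := by
      calc E = E * 1 := by ring
        _ ≤ E * d ^ 4 := by gcongr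
    have hEd2 : d ^ 4 ≤ E * d ^ 4 := by
      calc d ^ 4 = 1 * d ^ 4 := by ring
        _ ≤ E * d ^ 4 := by gcongr
    set W : ℤ := 2 * E * d ^ 4 with hW
    have hW2 : W = E * d ^ 4 + E * d ^ 4 := by rw [hW]; ring
    have hm1 : 1 ≤ m := hmpos
    have hmm : m ≤ m ^ 2 := by
      calc m = m ^ 1 := by ring
        _ ≤ m ^ 2 := pow_le_pow_right₀ hm1 (by norm_num)
    have hmN2 : m ^ 2 ≤ m ^ 2 * N := by
      calc m ^ 2 = m ^ 2 * 1 := by ring
        _ ≤ m ^ 2 * N := by gcongr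
    have hN2 : N ≤ m ^ 2 * N := by
      have : 1 ≤ m ^ 2 := by linarith
      calc N = 1 * N := by ring
        _ ≤ m ^ 2 * N := by gcongr
    have ht0b : (t0 : ℤ) ≤ m ^ 2 * N := by
      calc (t0 : ℤ) = t0 * 1 := by ring
        _ ≤ t0 * t0 := by gcongr
        _ ≤ _ := hs1
    have key := R_bound W t m N d1 d2 b (by linarith) htpos.le (by linarith) hmpos.le
      (by linarith) hN.le (by linarith) (by linarith) (by linarith) (by linarith)
    calc R ≤ 5 * W ^ 5 := key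
      _ = 5 * (2 * E * C1 ^ 4) ^ 5 * p ^ 20 := by rw [hW, hd]; ring

end Pool.Agent.Lib.MP_a17b09_nt
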