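import Pool.Agent.Lib.MP_a17b09_nt.Chain

set_option autoImplicit false

open Finset

namespace Pool.Agent.Lib.MP_a17b09_nt

lemma card_near (U : Finset ℕ) (a r : ℝ) (hr : 0 ≤ r)
    (h : ∀ j ∈ U, |(j : ℝ) + 1 / 2 - a| ≤ r) : (U.card : ℝ) ≤ 2 * r + 1 := by
  rcases U.eq_empty_or_nonempty with rfl | hne
  · simp; positivity
  · have hsub : U ⊆ Finset.Icc (U.min' hne) (U.max' hne) := by
      intro x hx
      rw [Finset.mem_Icc]
      exact ⟨U.min'_le x hx, U.le_max' x hx⟩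
    have hc := card_le_card hsub
    rw [Nat.card_Icc] at hc
    have h1 := abs_le.1 (h _ (U.min'_mem hne))
    have h2 := abs_le.1 (h _ (U.max'_mem hne))
    have hle : U.min' hne ≤ U.max' hne := U.min'_le _ (U.max'_mem hne)
    have hc' : (U.card : ℝ) ≤ (U.max' hne : ℝ) + 1 - (U.min' hne : ℝ) := by
      have : U.card + U.min' hne ≤ U.max' hne + 1 := by omega
      have : (U.card : ℝ) + (U.min' hne : ℝ) ≤ (U.max' hne : ℝ) + 1 := by exact_mod_cast this
      linarith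
    linarith [h1.1, h2.2]

theorem unpop_count {b c : ℤ} {L X0 : ℕ} (hL : 0 < L) (hX0 : 0 < X0) (M' : ℕ)
    (hM' : (M' : ℝ) + 1 ≤ L * a0 b c) (U : Finset ℕ)
    (hU : ∀ j ∈ U, j < M' ∧ ¬ Pop b c L X0 j) :
    (U.card : ℝ) ≤ 1024 * (L : ℝ) ^ 2 / (X0 : ℝ) ^ 2 := by
  classical
  have hLr : (0 : ℝ) < L := by exact_mod_cast hL
  have hXr : (1 : ℝ) ≤ X0 := by exact_mod_cast hX0
  have hBr := BBr_one b c
  -- the key approximation
  have key : ∀ j ∈ U, ∃ k y : ℕ, 0 < k ∧ ((k : ℝ) * (X0 + 1) ≤ 16 * L) ∧ y ≤ k ∧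
      |(j : ℝ) + 1 / 2 - L * AA (b : ℝ) (c : ℝ) ((y : ℝ) / k)| ≤ 8 * L / (k * (X0 + 1)) := by
    intro j hj
    obtain ⟨hjM, hjP⟩ := hU j hj
    have hjM' : (j : ℝ) + 1 ≤ M' := by exact_mod_cast hjM
    -- IVT
    have hIVT := intermediate_value_Icc (show (0 : ℝ) ≤ 1 / (8 * (BB b c : ℝ)) by positivity)
      (continuous_AA (b : ℝ) (c : ℝ)).continuousOn
    have hmem : ((j : ℝ) + 1 / 2) / L ∈
        Set.Icc (AA (b : ℝ) (c : ℝ) 0) (AA (b : ℝ) (c : ℝ) (1 / (8 * (BB b c : ℝ)))) := by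
      rw [AA_zero]
      constructor
      · positivity
      · rw [div_le_iff₀ hLr]
        have : a0 b c = AA (b : ℝ) (c : ℝ) (1 / (8 * (BB b c : ℝ))) := rfl
        rw [← this]
        linarith
    obtain ⟨s, ⟨hs0, hs1⟩, hs⟩ := hIVT hmem
    have hs8 : s ≤ 1 / 8 := by
      refine hs1.trans ?_
      apply one_div_le_one_div_of_le (by norm_num); linarith
    obtain ⟨y, k, hk0, hkX, hyk⟩ := Real.exists_int_int_abs_mul_sub_le s hX0
    have hX1 : (0 : ℝ) < (X0 : ℝ) + 1 := by positivity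
    have hinv : 1 / ((X0 : ℝ) + 1) ≤ 1 / 2 := by
      apply one_div_le_one_div_of_le (by norm_num); linarith
    have hkr : (1 : ℝ) ≤ k := by exact_mod_cast hk0
    obtain ⟨hy1, hy2⟩ := abs_le.1 hyk
    have hks : 0 ≤ (k : ℝ) * s := by positivity
    have hks2 : (k : ℝ) * s ≤ k * (1 / 8) := by gcongr
    have hy0 : 0 ≤ y := by
      have : (-1 : ℝ) < y := by linarith
      have : (-1 : ℤ) < y := by exact_mod_cast this
      linarith
    have hyk' : y ≤ k := by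
      have : (y : ℝ) < k + 1 := by linarith
      have : y < k + 1 := by exact_mod_cast this
      linarith
    -- convert to naturals
    obtain ⟨kn, rfl⟩ := Int.eq_ofNat_of_zero_le hk0.le
    obtain ⟨yn, rfl⟩ := Int.eq_ofNat_of_zero_le hy0
    have hkpos : (0 : ℝ) < (kn : ℝ) := by
      have : (1 : ℝ) ≤ (kn : ℝ) := by exact_mod_cast hkr
      linarith
    have hdist : |(yn : ℝ) / kn - s| ≤ 1 / (kn * (X0 + 1)) := by
      have e : (yn : ℝ) / kn - s = -((kn : ℝ) * s - yn) / kn := by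
        field_simp
        ring
      rw [e, abs_div, abs_neg, abs_of_pos hkpos, div_le_div_iff₀ hkpos (by positivity)]
      have h1 : |(kn : ℝ) * s - yn| ≤ 1 / ((X0 : ℝ) + 1) := by exact_mod_cast hyk
      rw [le_div_iff₀ hX1] at h1
      calc |(kn : ℝ) * s - yn| * (kn * (X0 + 1)) = (|(kn : ℝ) * s - yn| * (X0 + 1)) * kn := by ring
        _ ≤ 1 * kn := by gcongr
    have hlip := AA_lipschitz (b : ℝ) (c : ℝ) s ((yn : ℝ) / kn)
    have hmain : |(j : ℝ) + 1 / 2 - L * AA (b : ℝ) (c : ℝ) ((yn : ℝ) / kn)| ≤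
        8 * L / (kn * (X0 + 1)) := by
      have e : (j : ℝ) + 1 / 2 - L * AA (b : ℝ) (c : ℝ) ((yn : ℝ) / kn) =
          -(L * (AA (b : ℝ) (c : ℝ) ((yn : ℝ) / kn) - AA (b : ℝ) (c : ℝ) s)) := by
        rw [hs]
        field_simp
        ring
      rw [e, abs_neg, abs_mul, abs_of_pos hLr]
      calc (L : ℝ) * |AA (b : ℝ) (c : ℝ) ((yn : ℝ) / kn) - AA (b : ℝ) (c : ℝ) s|
          ≤ L * (8 * |(yn : ℝ) / kn - s|) := by gcongr
        _ ≤ L * (8 * (1 / (kn * (X0 + 1)))) := by gcongr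
        _ = 8 * L / (kn * (X0 + 1)) := by ring
    refine ⟨kn, yn, by exact_mod_cast hk0, ?_, by exact_mod_cast hyk', hmain⟩
    by_contra hlt
    push Not at hlt
    apply hjP
    have hsmall : 8 * (L : ℝ) / (kn * (X0 + 1)) < 1 / 2 := by
      rw [div_lt_div_iff₀ (by positivity) (by norm_num)]
      linarith
    have habs := abs_le.1 hmain
    refine ⟨((kn : ℤ), (yn : ℤ)), hk0, hkX, ?_, ?_⟩
    · unfold ang slope
      simp only
      push_cast
      linarith [habs.2]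
    · unfold ang slope
      simp only
      push_cast
      linarith [habs.1]
  -- counting
  set Km : ℕ := ⌊16 * (L : ℝ) / X0⌋₊ with hKm
  obtain ⟨F, hF⟩ : ∃ F : ℕ → ℕ → Finset ℕ, ∀ k y j : ℕ, j ∈ F k y ↔ (j ∈ U ∧
      ((k : ℝ) * (X0 + 1) ≤ 16 * L) ∧
        |(j : ℝ) + 1 / 2 - L * AA (b : ℝ) (c : ℝ) ((y : ℝ) / k)| ≤ 8 * L / (k * (X0 + 1))) := by
    refine ⟨fun k y => U.filter (fun j : ℕ => ((k : ℝ) * (X0 + 1) ≤ 16 * L) ∧
        |(j : ℝ) + 1 / 2 - L * AA (b : ℝ) (c : ℝ) ((y : ℝ) / k)| ≤ 8 * L / (k * (X0 + 1))), ?_⟩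
    intro k y j
    rw [mem_filter]
  have hcover : U ⊆ (Finset.Icc 1 Km).biUnion (fun k => (range (k + 1)).biUnion (F k)) := by
    intro j hj
    obtain ⟨k, y, hk, hkL, hyk, hjky⟩ := key j hj
    rw [mem_biUnion]
    refine ⟨k, ?_, ?_⟩
    · rw [Finset.mem_Icc]
      refine ⟨hk, ?_⟩
      apply Nat.le_floor
      rw [le_div_iff₀ (by linarith)]
      have : (0 : ℝ) ≤ k := by positivity
      nlinarith
    · rw [mem_biUnion]
      refine ⟨y, mem_range.2 (by omega), ?_⟩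
      rw [hF]
      exact ⟨hj, hkL, hjky⟩
  have hX1 : (0 : ℝ) < (X0 : ℝ) + 1 := by positivity
  have hXpos : (0 : ℝ) < (X0 : ℝ) := by linarith
  have hinner : ∀ k ∈ Finset.Icc 1 Km, ∀ y ∈ range (k + 1),
      ((F k y).card : ℝ) ≤ 32 * L / (k * X0) := by
    intro k hk y _
    have hk1 : (1 : ℝ) ≤ k := by exact_mod_cast (Finset.mem_Icc.1 hk).1
    by_cases hkL : (k : ℝ) * (X0 + 1) ≤ 16 * L
    · have h := card_near (F k y)
        (L * AA (b : ℝ) (c : ℝ) ((y : ℝ) / k)) (8 * L / (k * (X0 + 1))) (by positivity) (by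
          intro j hj
          exact ((hF k y j).1 hj).2.2)
      refine h.trans ?_
      have h1 : (1 : ℝ) ≤ 16 * L / (k * (X0 + 1)) := by
        rw [le_div_iff₀ (by positivity)]; linarith
      have h2 : 32 * (L : ℝ) / (k * (X0 + 1)) ≤ 32 * L / (k * X0) := by
        apply div_le_div_of_nonneg_left (by positivity) (by positivity)
        have : (0 : ℝ) ≤ k := by linarith
        nlinarith
      have h3 : 2 * (8 * (L : ℝ) / (k * (X0 + 1))) + 16 * L / (k * (X0 + 1)) =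
          32 * L / (k * (X0 + 1)) := by ring
      linarith
    · have : F k y = ∅ := by
        rw [eq_empty_iff_forall_notMem]
        intro j hcon
        exact hkL ((hF k y j).1 hcon).2.1
      rw [this, card_empty, Nat.cast_zero]
      positivity
  have h1 : (U.card : ℝ) ≤ ∑ k ∈ Finset.Icc 1 Km, ∑ y ∈ range (k + 1),
      32 * (L : ℝ) / (k * X0) := by
    have ha := (card_le_card hcover).trans card_biUnion_le
    have ha' : (U.card : ℝ) ≤ ((∑ k ∈ Finset.Icc 1 Km, ((range (k + 1)).biUnion (F k)).card : ℕ)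
      : ℝ) := by exact_mod_cast ha
    refine ha'.trans ?_
    rw [Nat.cast_sum]
    apply sum_le_sum
    intro k hk
    have hb : (((range (k + 1)).biUnion (F k)).card : ℝ) ≤
        ((∑ y ∈ range (k + 1), (F k y).card : ℕ) : ℝ) := by exact_mod_cast card_biUnion_le
    refine hb.trans ?_
    rw [Nat.cast_sum]
    apply sum_le_sum
    intro y hy
    exact hinner k hk y hy
  have h2 : ∑ k ∈ Finset.Icc 1 Km, ∑ y ∈ range (k + 1), 32 * (L : ℝ) / (k * X0) ≤
      ∑ k ∈ Finset.Icc 1 Km, 64 * (L : ℝ) / X0 := by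
    apply sum_le_sum
    intro k hk
    have hk1 : (1 : ℝ) ≤ k := by exact_mod_cast (Finset.mem_Icc.1 hk).1
    rw [sum_const, card_range, nsmul_eq_mul]
    push_cast
    rw [← mul_div_assoc, div_le_div_iff₀ (by positivity) (by positivity)]
    have : ((k : ℝ) + 1) ≤ 2 * k := by linarith
    calc ((k : ℝ) + 1) * (32 * L) * X0 ≤ (2 * k) * (32 * L) * X0 := by gcongr
      _ = 64 * L * (k * X0) := by ring
  have h3 : ∑ k ∈ Finset.Icc 1 Km, 64 * (L : ℝ) / X0 = Km * (64 * L / X0) := by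
    rw [sum_const, Nat.card_Icc, nsmul_eq_mul, Nat.add_sub_cancel]
  have h4 : (Km : ℝ) ≤ 16 * L / X0 := Nat.floor_le (by positivity)
  calc (U.card : ℝ) ≤ _ := h1
    _ ≤ _ := h2
    _ = Km * (64 * L / X0) := h3
    _ ≤ (16 * L / X0) * (64 * L / X0) := by gcongr
    _ = 1024 * (L : ℝ) ^ 2 / (X0 : ℝ) ^ 2 := by
      field_simp
      ring

end Pool.Agent.Lib.MP_a17b09_nt
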