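import Pool.Agent.Lib.MP_a17b09_nt.Sector

set_option autoImplicit false

open Filter

namespace Pool.Agent.Lib.MP_a17b09_nt

lemma ev_rpow (a b C : ℝ) (h : a < b) : ∀ᶠ N : ℕ in atTop, C * (N : ℝ) ^ a ≤ (N : ℝ) ^ b := by
  have h1 : Tendsto (fun N : ℕ => (N : ℝ) ^ (b - a)) atTop atTop :=
    (tendsto_rpow_atTop (by linarith)).comp tendsto_natCast_atTop_atTop
  filter_upwards [h1.eventually_ge_atTop C, eventually_gt_atTop 0] with N hN hN0
  have hNr : (0 : ℝ) < N := by exact_mod_cast hN0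
  have e : (N : ℝ) ^ b = (N : ℝ) ^ (b - a) * (N : ℝ) ^ a := by
    rw [← Real.rpow_add hNr]; congr 1; ring
  rw [e]
  gcongr

lemma ang_le_slope (b c : ℤ) {u : ℤ × ℤ} (hu : 0 ≤ slope u) : ang b c u ≤ 8 * slope u := by
  have h := AA_lipschitz (b : ℝ) (c : ℝ) 0 (slope u)
  rw [AA_zero, sub_zero, sub_zero, abs_of_nonneg hu] at h
  exact (le_abs_self _).trans h

end Pool.Agent.Lib.MP_a17b09_nt
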