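import Pool.Agent.Lib.MP_a17b09_nt.Chain
import Pool.Agent.Lib.MP_a17b09_nt.DeltaB
import Pool.Agent.Lib.MP_a17b09_nt.Misc

set_option autoImplicit false

open Finset

namespace Pool.Agent.Lib.MP_a17b09_nt

lemma prod_choose {k : ℕ} (hk : 0 < k) (f : ℕ → ℤ) (hf : ∀ i, f i = 1 ∨ f i = -1) :
    ∏ i ∈ range (2 ^ k + 1), f i ^ (2 ^ k).choose i = f 0 * f (2 ^ k) := by
  have hJ : 0 < 2 ^ k := by positivity
  rw [Finset.prod_eq_mul 0 (2 ^ k) hJ.ne]
  · simp
  · intro i hi hne
    have hdvd : 2 ∣ (2 ^ k).choose i := by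
      apply Nat.Prime.dvd_choose_pow Nat.prime_two
      · exact hne.1
      · exact hne.2
    have hev : Even ((2 ^ k).choose i) := even_iff_two_dvd.2 hdvd
    rcases hf i with h | h
    · rw [h, one_pow]
    · rw [h, hev.neg_one_pow]
  · intro h; exact absurd (mem_range.2 (by omega)) h
  · intro h; exact absurd (mem_range.2 (by omega)) h

theorem notNice_lowerB {b c : ℤ} (hD : ¬ IsSquare (b ^ 2 - 4 * c)) (k : ℕ) (hk : 0 < k) :
    ∃ m0 : ℕ, 0 < m0 ∧ ∃ C2 : ℤ, 1 ≤ C2 ∧ ∃ C0 : ℝ, 0 ≤ C0 ∧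
      ∀ P : Set ℕ, ∀ p ∈ P, p.Prime → p ≡ 1 [MOD m0] →
      ∃ R : ℤ, 0 < R ∧ R ≤ C2 * p ^ 20 ∧ ∀ L m : ℕ, 0 < L → 0 < m →
      C0 * L ≤ ((m : ℝ) * R) ^ (2 ^ k) → ∀ X0 Xm : ℤ, X0 ≤ Xm → 2 * (X0 * (m * R)) ≤ Xm →
      ∀ M M' : ℕ, (M : ℝ) + L * a0 b c / 4 ≤ M' → (M' : ℝ) + 1 ≤ L * a0 b c →
      ∀ bad : Finset ℕ, (∀ j < M', ¬ Nice P b c L X0 Xm j → j ∈ bad) →
      M ≤ (3 * 2 ^ (2 ^ k) + 4) * bad.card := by
  classical
  set J : ℕ := 2 ^ k with hJdef
  set n : ℕ := 2 ^ J with hn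
  have hJpos : 0 < J := by rw [hJdef]; positivity
  have hJeven : Even J := by
    rw [hJdef]
    exact (Nat.even_pow.2 ⟨even_two, hk.ne'⟩)
  have ha0 := a0_pos b c
  have hBr := BBr_one b c
  set K : ℤ := 8 * BB b c + (⌈(32 * (n : ℝ)) / a0 b c⌉₊ : ℕ) with hK
  have hKB : 8 * BB b c ≤ K := by
    rw [hK]
    have : (0 : ℤ) ≤ ((⌈(32 * (n : ℝ)) / a0 b c⌉₊ : ℕ) : ℤ) := Int.natCast_nonneg _
    linarith
  have hKpos : 0 < K := by have := BB_pos b c; linarith
  have hKn : 32 * (n : ℝ) ≤ a0 b c * K := by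
    have h1 : (32 * (n : ℝ)) / a0 b c ≤ (⌈(32 * (n : ℝ)) / a0 b c⌉₊ : ℕ) := Nat.le_ceil _
    have h2 : (32 * (n : ℝ)) / a0 b c ≤ K := by
      rw [hK]; push_cast
      linarith
    rw [div_le_iff₀ ha0] at h2
    linarith
  obtain ⟨m0, hm0, C2, hC2, hex⟩ := exists_deltaB hD J hJpos K hKpos
  obtain ⟨C0, hC0, hC⟩ := fwdDiff_bound (1 / (2 * (BB b c : ℝ))) J (AA (b : ℝ) (c : ℝ))
    (contDiffOn_AA hBr (BBr_b b c) (BBr_c b c) J) (1 / (8 * (BB b c : ℝ))) (by
      apply one_div_lt_one_div_of_lt (by positivity); linarith)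
  refine ⟨m0, hm0, C2, hC2, C0, hC0, ?_⟩
  intro P p hpP hp hpm
  obtain ⟨R, S, hR, hS, hJS, hKS, hcol, hRb⟩ := hex P p hpP hp hpm
  refine ⟨R, hR, hRb, ?_⟩
  intro L m hL hm hLm X0 Xm hX0 hX M M' hM hM' bad hbad
  obtain ⟨y, hy0, hyJ, hycol⟩ := exists_step hJpos hR hS hJS hD hcol m hm
  have hmz : (0 : ℤ) < m := by exact_mod_cast hm
  have hmR : 0 < (m : ℤ) * R := mul_pos hmz hR
  have hmRr : (0 : ℝ) < (m : ℝ) * R := by exact_mod_cast hmR
  set κ : ℕ → ℤ × ℤ := fun i => ((m : ℤ) * R, y + i) with hκ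
  have hKy : ∀ i ≤ J, K * (y + i) ≤ m * R := by
    intro i hi
    have hi' : (i : ℤ) ≤ J := by exact_mod_cast hi
    calc K * (y + i) ≤ K * (y + J) := by gcongr
      _ ≤ K * (m * S) := by gcongr
      _ = m * (K * S) := by ring
      _ ≤ m * R := by gcongr
  have hsec : ∀ i ≤ J, Sec b c (κ i) := by
    intro i hi
    refine ⟨hmR, by simp only [hκ]; positivity, ?_⟩
    simp only [hκ]
    calc 8 * BB b c * (y + i) ≤ K * (y + i) := by gcongr
      _ ≤ m * R := hKy i hi
  have hsl : ∀ i : ℕ, slope (κ i) = (y : ℝ) / (m * R) + i * (1 / (m * R)) := by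
    intro i
    simp only [hκ, slope]
    push_cast
    field_simp
  have hsl0 : ∀ i : ℕ, 0 ≤ slope (κ i) := by
    intro i
    rw [hsl]
    have : (0 : ℝ) ≤ y := by exact_mod_cast hy0
    positivity
  have hslK : ∀ i ≤ J, slope (κ i) ≤ 1 / K := by
    intro i hi
    have h := hKy i hi
    simp only [hκ, slope]
    have hKr : (0 : ℝ) < K := by exact_mod_cast hKpos
    have h' : (K : ℝ) * (y + i) ≤ m * R := by exact_mod_cast h
    push_cast
    rw [div_le_div_iff₀ hmRr hKr]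
    linarith
  have hn0 : (0 : ℝ) < n := by rw [hn]; positivity
  have hangb : ∀ i ≤ J, ang b c (κ i) ≤ a0 b c / (4 * n) := by
    intro i hi
    have hKr : (0 : ℝ) < K := by exact_mod_cast hKpos
    calc ang b c (κ i) ≤ 8 * slope (κ i) := ang_le_slope b c (hsl0 i)
      _ ≤ 8 * (1 / K) := by gcongr; exact hslK i hi
      _ ≤ a0 b c / (4 * n) := by
        rw [mul_one_div, div_le_div_iff₀ hKr (by positivity)]
        linarith
  set w1 : ℕ → ℕ := fun i => if Even i then J.choose i else 0 with hw1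
  set w2 : ℕ → ℕ := fun i => if Even i then 0 else J.choose i with hw2
  set l1 := mkl κ w1 (J + 1) with hl1
  set l2 := mkl κ w2 (J + 1) with hl2
  have hm1 : ∀ x ∈ l1, ∃ i ≤ J, x = κ i := by
    intro x hx
    obtain ⟨i, hi, e⟩ := mkl_mem hx
    exact ⟨i, by omega, e⟩
  have hm2 : ∀ x ∈ l2, ∃ i ≤ J, x = κ i := by
    intro x hx
    obtain ⟨i, hi, e⟩ := mkl_mem hx
    exact ⟨i, by omega, e⟩
  have hs1 : ∀ x ∈ l1, Sec b c x ∧ x.1 ≤ m * R := by
    intro x hx
    obtain ⟨i, hi, rfl⟩ := hm1 x hx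
    exact ⟨hsec i hi, le_refl _⟩
  have hs2 : ∀ x ∈ l2, Sec b c x ∧ x.1 ≤ m * R := by
    intro x hx
    obtain ⟨i, hi, rfl⟩ := hm2 x hx
    exact ⟨hsec i hi, le_refl _⟩
  have hlen1 : l1.length ≤ n := by
    rw [hl1, mkl_length, hn, ← Nat.sum_range_choose]
    apply sum_le_sum
    intro i _
    simp only [hw1]
    split_ifs <;> simp
  have hlen2 : l2.length ≤ n := by
    rw [hl2, mkl_length, hn, ← Nat.sum_range_choose]
    apply sum_le_sum
    intro i _
    simp only [hw2]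
    split_ifs <;> simp
  -- colours
  have hprod : (l1.map (col P b c)).prod * (l2.map (col P b c)).prod = -1 := by
    rw [hl1, hl2, mkl_prod, mkl_prod, ← prod_mul_distrib]
    have e : ∀ i ∈ range (J + 1), col P b c (κ i) ^ w1 i * col P b c (κ i) ^ w2 i =
        (fun i => col P b c (κ i)) i ^ J.choose i := by
      intro i _
      rw [← pow_add]
      simp only [hw1, hw2]
      split_ifs <;> simp
    rw [prod_congr rfl e, hJdef, prod_choose hk _ (fun i => col_eq_or P b c (κ i)), ← hJdef]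
    simp only [hκ]
    rw [Nat.cast_zero, add_zero]
    exact hycol
  have hprod' : (l1.map (col P b c)).prod ≠ (l2.map (col P b c)).prod := by
    intro h
    rw [h] at hprod
    have := mul_self_nonneg (l2.map (col P b c)).prod
    linarith
  -- angles
  have hS1 := off_sum_le (b := b) (c := c) (L := L) l1 (fun x hx => (hs1 x hx).1)
  have hS2 := off_sum_le (b := b) (c := c) (L := L) l2 (fun x hx => (hs2 x hx).1)
  have hLr : (0 : ℝ) < L := by exact_mod_cast hL
  have hdiff : |(l1.map (fun κ => (L : ℝ) * ang b c κ)).sum -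
      (l2.map (fun κ => (L : ℝ) * ang b c κ)).sum| ≤ 1 := by
    have hb := hC ((y : ℝ) / (m * R)) (1 / (m * R)) (by
      have : (0 : ℝ) ≤ y := by exact_mod_cast hy0
      have h1 : (0 : ℝ) ≤ (y : ℝ) / (m * R) := by positivity
      have h2 : (0 : ℝ) < 1 / (8 * (BB b c : ℝ)) := by positivity
      linarith) (by positivity) (by
      rw [← hsl J]
      have h8 : (8 * (BB b c : ℝ)) ≤ K := by exact_mod_cast hKB
      calc slope (κ J) ≤ 1 / K := hslK J le_rfl
        _ ≤ 1 / (8 * (BB b c : ℝ)) := by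
          apply one_div_le_one_div_of_le (by positivity) h8)
    rw [fwdDiff_iter_eq_sum_shift] at hb
    have e : (l1.map (fun κ => (L : ℝ) * ang b c κ)).sum -
      (l2.map (fun κ => (L : ℝ) * ang b c κ)).sum = L * ∑ i ∈ range (J + 1),
        ((-1 : ℤ) ^ (J - i) * (J.choose i : ℤ)) •
          AA (b : ℝ) (c : ℝ) ((y : ℝ) / (m * R) + i • (1 / (m * R))) := by
      rw [hl1, hl2, mkl_sum, mkl_sum, ← sum_sub_distrib, mul_sum]
      apply sum_congr rfl
      intro i hi
      have hi' : i ≤ J := by have := mem_range.1 hi; omega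
      have e2 : AA (b : ℝ) (c : ℝ) ((y : ℝ) / (m * R) + i • (1 / (m * R))) = ang b c (κ i) := by
        unfold ang
        rw [hsl, nsmul_eq_mul]
      rw [e2]
      simp only [hw1, hw2]
      by_cases hev : Even i
      · have : Even (J - i) := by rw [Nat.even_sub hi']; tauto
        rw [if_pos hev, if_pos hev, this.neg_one_pow, one_mul, zero_smul, sub_zero, nsmul_eq_mul,
          zsmul_eq_mul]
        push_cast
        ring
      · have : Odd (J - i) := by
          rw [← Nat.not_even_iff_odd, Nat.even_sub hi']; tauto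
        rw [if_neg hev, if_neg hev, this.neg_one_pow, zero_smul, zero_sub, nsmul_eq_mul,
          zsmul_eq_mul]
        push_cast
        ring
    rw [e, abs_mul, abs_of_pos hLr]
    calc (L : ℝ) * |_| ≤ L * (C0 * (1 / (m * R)) ^ J) := by
          apply mul_le_mul_of_nonneg_left hb hLr.le
      _ = (C0 * L) / ((m : ℝ) * R) ^ J := by
        rw [one_div, inv_pow]; ring
      _ ≤ 1 := by
        rw [div_le_one (by positivity)]
        exact hLm
  obtain ⟨hd1, hd2⟩ := abs_le.1 hdiff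
  have hlen1r : (l1.length : ℝ) ≤ n := by exact_mod_cast hlen1
  have hlen2r : (l2.length : ℝ) ≤ n := by exact_mod_cast hlen2
  have h12 : (l1.map (off b c L)).sum ≤ (l2.map (off b c L)).sum + (n + 1) := by
    have : (((l1.map (off b c L)).sum : ℕ) : ℝ) ≤ ((l2.map (off b c L)).sum : ℕ) + (n + 1) := by
      linarith [hS1.1, hS2.2]
    exact_mod_cast this
  have h21 : (l2.map (off b c L)).sum ≤ (l1.map (off b c L)).sum + (n + 1) := by
    have : (((l2.map (off b c L)).sum : ℕ) : ℝ) ≤ ((l1.map (off b c L)).sum : ℕ) + (n + 1) := by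
      linarith [hS2.1, hS1.2]
    exact_mod_cast this
  have hT : ∀ l : List (ℤ × ℤ), (∀ x ∈ l, ∃ i ≤ J, x = κ i) → l.length ≤ n →
      (((l.map (off b c L)).sum : ℕ) : ℝ) ≤ L * a0 b c / 4 := by
    intro l hl hlen
    have h1 := (off_sum_le (b := b) (c := c) (L := L) l (fun x hx => by
      obtain ⟨i, hi, rfl⟩ := hl x hx
      exact hsec i hi)).1
    have h2 : (l.map (fun κ => (L : ℝ) * ang b c κ)).sum ≤
        (l.map (fun κ => (L : ℝ) * ang b c κ)).length • (L * (a0 b c / (4 * n))) := by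
      apply List.sum_le_card_nsmul
      intro x hx
      rw [List.mem_map] at hx
      obtain ⟨z, hz, rfl⟩ := hx
      obtain ⟨i, hi, rfl⟩ := hl z hz
      apply mul_le_mul_of_nonneg_left (hangb i hi) hLr.le
    rw [List.length_map, nsmul_eq_mul] at h2
    have h3 : (l.length : ℝ) * (L * (a0 b c / (4 * n))) ≤ n * (L * (a0 b c / (4 * n))) := by
      have : (l.length : ℝ) ≤ n := by exact_mod_cast hlen
      gcongr
    have h4 : (n : ℝ) * (L * (a0 b c / (4 * n))) = L * a0 b c / 4 := by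
      field_simp
    linarith
  have hTm : (((max (l1.map (off b c L)).sum (l2.map (off b c L)).sum : ℕ)) : ℝ) ≤
      L * a0 b c / 4 := by
    rcases le_total (l1.map (off b c L)).sum (l2.map (off b c L)).sum with h | h
    · rw [max_eq_right h]; exact hT l2 hm2 hlen2
    · rw [max_eq_left h]; exact hT l1 hm1 hlen1
  have hpig := pigeon (fun j => ¬ Nice P b c L X0 Xm j) M M' (OO b c L n l1 l2) (by
    intro j hj
    have hjr : (j : ℝ) ≤ M := by exact_mod_cast hj.le
    exact chain hD hL hX0 hX hs1 hs2 hlen1 hlen2 hprod' j (by linarith)) (by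
    intro o ho
    have h1 := OO_le ho
    have h2 : (o : ℝ) ≤ (max (l1.map (off b c L)).sum (l2.map (off b c L)).sum : ℕ) := by
      exact_mod_cast h1
    have : (M : ℝ) + o ≤ M' := by linarith
    exact_mod_cast this)
  have hOc := OO_card (b := b) (c := c) (L := L) (n := n) h12 h21
  have hsub : ((range M').filter (fun j => ¬ Nice P b c L X0 Xm j)).card ≤ bad.card := by
    apply card_le_card
    intro j hj
    rw [mem_filter, mem_range] at hj
    exact hbad j hj.1 hj.2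
  calc M ≤ (OO b c L n l1 l2).card * ((range M').filter (fun j => ¬ Nice P b c L X0 Xm j)).card :=
        hpig
    _ ≤ (3 * n + 4) * bad.card := by gcongr

end Pool.Agent.Lib.MP_a17b09_nt
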