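import Mathlib

set_option autoImplicit false

namespace Pool.Agent.Lib.MP_a17b09_nt

open ArithmeticFunction vonMangoldt Filter Topology LSeries Complex


lemma residueClass_upper {q : ℕ} [NeZero q] {a : ZMod q} (ha : IsUnit a) :
    ∃ C : ℝ, 0 ≤ C ∧ ∀ {x : ℝ} (_ : x ∈ Set.Ioc 1 2),
      ∑' n, residueClass a n / (n : ℝ) ^ x ≤ (q.totient : ℝ)⁻¹ / (x - 1) + C := by
  have H {x : ℝ} (hx : 1 < x) :
      ∑' n, residueClass a n / (n : ℝ) ^ x =
        (LFunctionResidueClassAux a x).re + (q.totient : ℝ)⁻¹ / (x - 1) := by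
    refine ofReal_injective ?_
    simp only [ofReal_tsum, ofReal_div, ofReal_cpow (Nat.cast_nonneg _), ofReal_natCast,
      ofReal_add, ofReal_inv, ofReal_sub, ofReal_one]
    simp_rw [← LFunctionResidueClassAux_real ha hx,
      eqOn_LFunctionResidueClassAux ha <| Set.mem_ofPred.mpr (ofReal_re x ▸ hx), sub_add_cancel,
      LSeries, term]
    refine tsum_congr fun n ↦ ?_
    split_ifs with hn
    · simp only [hn, residueClass_apply_zero, ofReal_zero, zero_div]
    · rfl
  have : ContinuousOn (fun x : ℝ ↦ (LFunctionResidueClassAux a x).re) (Set.Icc 1 2) :=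
    continuous_re.continuousOn.comp (t := Set.univ) (continuousOn_LFunctionResidueClassAux a)
      (fun ⦃x⦄ a ↦ trivial) |>.comp continuous_ofReal.continuousOn fun x hx ↦ by
        simpa only [Set.mem_ofPred_eq, ofReal_re] using hx.1
  obtain ⟨C, hC⟩ := bddAbove_def.mp <| IsCompact.bddAbove_image isCompact_Icc this
  replace hC {x : ℝ} (hx : x ∈ Set.Icc 1 2) : (LFunctionResidueClassAux a x).re ≤ C :=
    hC (LFunctionResidueClassAux a x).re <|
      Set.mem_image_of_mem (fun x : ℝ ↦ (LFunctionResidueClassAux a x).re) hx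
  refine ⟨max C 0, le_max_right _ _, fun {x} hx ↦ ?_⟩
  rw [H hx.1, add_comm, add_le_add_iff_left]
  exact (hC <| Set.mem_Icc_of_Ioc hx).trans (le_max_left _ _)

lemma summable_residueClass {q : ℕ} (a : ZMod q) {x : ℝ} (hx : 1 < x) :
    Summable fun n : ℕ => residueClass a n / (n : ℝ) ^ x :=
  summable_real_of_abscissaOfAbsConv_lt <|
    (abscissaOfAbsConv_residueClass_le_one a).trans_lt <| mod_cast hx

lemma residueClass_one (n : ℕ) : residueClass (1 : ZMod 1) n = ArithmeticFunction.vonMangoldt n := by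
  rw [residueClass, Set.indicator_of_mem]
  show ((n : ℕ) : ZMod 1) = 1
  exact Subsingleton.elim _ _

/-- a polynomial form of Dirichlet's theorem -/
theorem exists_prime_between (q : ℕ) (hq : 0 < q) :
    ∃ C : ℝ, 1 < C ∧ ∃ z0 : ℝ, ∀ z : ℝ, z0 ≤ z →
      ∃ p : ℕ, p.Prime ∧ p ≡ 1 [MOD q] ∧ z < p ∧ (p : ℝ) ≤ z ^ C := by
  have : NeZero q := ⟨hq.ne'⟩
  have hu : IsUnit (1 : ZMod q) := isUnit_one
  obtain ⟨C1, hC1⟩ := LSeries_residueClass_lower_bound hu
  obtain ⟨C2, hC20, hC2⟩ := residueClass_upper (q := 1) (a := 1) isUnit_one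
  have hC2' : ∀ {x : ℝ}, x ∈ Set.Ioc 1 2 → ∑' n : ℕ, ArithmeticFunction.vonMangoldt n / (n : ℝ) ^ x ≤ 1 / (x - 1) + C2 := by
    intro x hx
    have h := hC2 hx
    simp only [residueClass_one, Nat.totient_one, Nat.cast_one, inv_one] at h
    exact h
  have hsumΛ : ∀ {x : ℝ}, 1 < x → Summable fun n : ℕ => ArithmeticFunction.vonMangoldt n / (n : ℝ) ^ x := by
    intro x hx
    have h := summable_residueClass (1 : ZMod 1) hx
    simp only [residueClass_one] at h
    exact h
  set C3 : ℝ := ∑' n : ℕ, (if n.Prime then 0 else residueClass (1 : ZMod q) n) / n with hC3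
  have hφ : 0 < (q.totient : ℝ) := by exact_mod_cast Nat.totient_pos.2 hq
  have hφ1 : 1 ≤ (q.totient : ℝ) := by exact_mod_cast Nat.totient_pos.2 hq
  set K : ℝ := 8 * q.totient with hK
  have hK8 : 8 ≤ K := by rw [hK]; linarith
  have hK0 : 0 < K := by linarith
  set C : ℝ := 2 * K * Real.log (2 * K) with hC
  have hlog : 1 ≤ Real.log (2 * K) := by
    rw [Real.le_log_iff_exp_le (by linarith)]
    have := Real.exp_one_lt_d9
    linarith
  refine ⟨C, ?_, Real.exp (1 + (|C1| + |C3| + 5 * C2)), ?_⟩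
  · rw [hC]
    have : 16 * 1 ≤ 2 * K * Real.log (2 * K) := by gcongr; linarith
    linarith
  intro z hz
  by_contra hcon
  push Not at hcon
  have hzexp : Real.exp 1 ≤ z := by
    refine le_trans ?_ hz
    apply Real.exp_le_exp.2
    have := abs_nonneg C1
    have := abs_nonneg C3
    linarith
  have hz0 : 0 < z := lt_of_lt_of_le (Real.exp_pos 1) hzexp
  have hlz : 1 + (|C1| + |C3| + 5 * C2) ≤ Real.log z := by
    rw [Real.le_log_iff_exp_le hz0]; exact hz
  have hlz1 : 1 ≤ Real.log z := by
    have := abs_nonneg C1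
    have := abs_nonneg C3
    linarith
  set l : ℝ := Real.log z with hl
  have hl0 : 0 < l := by linarith
  set η' : ℝ := 1 / l with hη'
  set η : ℝ := 1 / (K * l) with hη
  have hη'0 : 0 < η' := by positivity
  have hη0 : 0 < η := by positivity
  have hη'1 : η' ≤ 1 := by
    rw [hη', div_le_one hl0]; exact hlz1
  have hη1 : η ≤ 1 := by
    rw [hη, div_le_one (by positivity)]
    nlinarith
  have hzη' : z ^ η' = Real.exp 1 := by
    rw [Real.rpow_def_of_pos hz0, ← hl, hη']
    congr 1
    field_simp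
  have hzC : (z ^ C) ^ (-(η / 2)) = (2 * K)⁻¹ := by
    rw [← Real.rpow_mul hz0.le, Real.rpow_def_of_pos hz0, ← hl]
    have e : l * (C * -(η / 2)) = - Real.log (2 * K) := by
      rw [hC, hη]
      field_simp
    rw [e, Real.exp_neg, Real.exp_log (by positivity)]
  -- termwise bound
  have hterm : ∀ n : ℕ, residueClass (1 : ZMod q) n / (n : ℝ) ^ (1 + η) ≤
      (if n.Prime then 0 else residueClass (1 : ZMod q) n) / n +
      (Real.exp 1 * (ArithmeticFunction.vonMangoldt n / (n : ℝ) ^ (1 + η')) +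
      (2 * K)⁻¹ * (ArithmeticFunction.vonMangoldt n / (n : ℝ) ^ (1 + η / 2))) := by
    intro n
    rcases Nat.eq_zero_or_pos n with rfl | hn
    · simp
    have hn1 : (1 : ℝ) ≤ n := by exact_mod_cast hn
    have hn0 : (0 : ℝ) < n := by linarith
    have hΛ := vonMangoldt_nonneg (n := n)
    have hr0 := residueClass_nonneg (1 : ZMod q) n
    have hrΛ := residueClass_le (1 : ZMod q) n
    have t2 : 0 ≤ Real.exp 1 * (ArithmeticFunction.vonMangoldt n / (n : ℝ) ^ (1 + η')) := by positivity
    have t3 : 0 ≤ (2 * K)⁻¹ * (ArithmeticFunction.vonMangoldt n / (n : ℝ) ^ (1 + η / 2)) := by positivity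
    have hnη : (n : ℝ) ≤ (n : ℝ) ^ (1 + η) := by
      conv_lhs => rw [← Real.rpow_one (n : ℝ)]
      exact Real.rpow_le_rpow_of_exponent_le hn1 (by linarith)
    by_cases hp : n.Prime
    · rw [if_pos hp, zero_div, zero_add]
      by_cases hr : (n : ZMod q) = 1
      · have hmod : n ≡ 1 [MOD q] := by
          rw [← ZMod.natCast_eq_natCast_iff]
          simpa using hr
        rcases le_or_gt (n : ℝ) z with hnz | hnz
        · -- small n
          have h1 : residueClass (1 : ZMod q) n / (n : ℝ) ^ (1 + η) ≤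
              Real.exp 1 * (ArithmeticFunction.vonMangoldt n / (n : ℝ) ^ (1 + η')) := by
            calc residueClass (1 : ZMod q) n / (n : ℝ) ^ (1 + η) ≤ ArithmeticFunction.vonMangoldt n / n := by
                  gcongr
              _ ≤ Real.exp 1 * (ArithmeticFunction.vonMangoldt n / (n : ℝ) ^ (1 + η')) := by
                rw [← hzη', Real.rpow_add hn0, Real.rpow_one]
                have h2 : (n : ℝ) ^ η' ≤ z ^ η' := by gcongr
                have h3 : 0 < (n : ℝ) ^ η' := by positivity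
                calc ArithmeticFunction.vonMangoldt n / n = (n : ℝ) ^ η' * (ArithmeticFunction.vonMangoldt n / (n * (n : ℝ) ^ η')) := by
                      field_simp
                  _ ≤ z ^ η' * (ArithmeticFunction.vonMangoldt n / (n * (n : ℝ) ^ η')) := by gcongr
          linarith
        · -- large n
          have hnC : z ^ C < n := hcon n hp hmod hnz
          have h1 : residueClass (1 : ZMod q) n / (n : ℝ) ^ (1 + η) ≤
              (2 * K)⁻¹ * (ArithmeticFunction.vonMangoldt n / (n : ℝ) ^ (1 + η / 2)) := by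
            have h2 : (n : ℝ) ^ (-(η / 2)) ≤ (z ^ C) ^ (-(η / 2)) :=
              Real.rpow_le_rpow_of_nonpos (by positivity) hnC.le (by linarith)
            rw [hzC] at h2
            have e : 1 + η = (1 + η / 2) + η / 2 := by ring
            calc residueClass (1 : ZMod q) n / (n : ℝ) ^ (1 + η) ≤ ArithmeticFunction.vonMangoldt n / (n : ℝ) ^ (1 + η) := by
                  gcongr
              _ = (n : ℝ) ^ (-(η / 2)) * (ArithmeticFunction.vonMangoldt n / (n : ℝ) ^ (1 + η / 2)) := by
                  rw [e, Real.rpow_add hn0, Real.rpow_neg hn0.le]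
                  field_simp
              _ ≤ _ := by gcongr
          linarith
      · have : residueClass (1 : ZMod q) n = 0 := by
          rw [residueClass, Set.indicator_of_notMem]
          exact hr
        rw [this, zero_div]
        linarith
    · rw [if_neg hp]
      have : residueClass (1 : ZMod q) n / (n : ℝ) ^ (1 + η) ≤ residueClass (1 : ZMod q) n / n := by
        gcongr
      linarith
  have hs1 := summable_residueClass (1 : ZMod q) (x := 1 + η) (by linarith)
  have hs2 := summable_residueClass_non_primes_div (1 : ZMod q)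
  have hs3 := (hsumΛ (x := 1 + η') (by linarith)).mul_left (Real.exp 1)
  have hs4 := (hsumΛ (x := 1 + η / 2) (by linarith)).mul_left ((2 * K)⁻¹)
  have hle := Summable.tsum_le_tsum hterm hs1 (hs2.add (hs3.add hs4))
  rw [hs2.tsum_add (hs3.add hs4), hs3.tsum_add hs4, tsum_mul_left, tsum_mul_left] at hle
  have hlow := hC1 (x := 1 + η) ⟨by linarith, by linarith⟩
  have hup1 := hC2' (x := 1 + η') ⟨by linarith, by linarith⟩
  have hup2 := hC2' (x := 1 + η / 2) ⟨by linarith, by linarith⟩
  have e1 : (q.totient : ℝ)⁻¹ / (1 + η - 1) = 8 * l := by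
    rw [hη, hK]; field_simp; ring
  have e2 : 1 / (1 + η' - 1) = l := by
    rw [hη']; field_simp; ring
  have e3 : 1 / (1 + η / 2 - 1) = 2 * K * l := by
    rw [hη]; field_simp; ring
  rw [e1] at hlow
  rw [e2] at hup1
  rw [e3] at hup2
  have hexp : Real.exp 1 ≤ 3 := by
    have := Real.exp_one_lt_d9
    linarith
  have h5 : Real.exp 1 * ∑' n : ℕ, ArithmeticFunction.vonMangoldt n / (n : ℝ) ^ (1 + η') ≤ 3 * (l + C2) := by
    have : 0 ≤ l + C2 := by linarith
    calc Real.exp 1 * ∑' n : ℕ, ArithmeticFunction.vonMangoldt n / (n : ℝ) ^ (1 + η') ≤ Real.exp 1 * (l + C2) := by gcongr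
      _ ≤ 3 * (l + C2) := by gcongr
  have h6 : (2 * K)⁻¹ * ∑' n : ℕ, ArithmeticFunction.vonMangoldt n / (n : ℝ) ^ (1 + η / 2) ≤ l + C2 := by
    calc (2 * K)⁻¹ * ∑' n : ℕ, ArithmeticFunction.vonMangoldt n / (n : ℝ) ^ (1 + η / 2) ≤ (2 * K)⁻¹ * (2 * K * l + C2) := by
          gcongr
      _ = l + (2 * K)⁻¹ * C2 := by field_simp
      _ ≤ l + C2 := by
        have h7 : (2 * K)⁻¹ ≤ 1 := inv_le_one_of_one_le₀ (by linarith)
        nlinarith
  have h8 := le_abs_self C1
  have h9 := le_abs_self C3
  rw [← hC3] at hle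
  linarith

end Pool.Agent.Lib.MP_a17b09_nt
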