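import Pool.Agent.Lib.MP_a17b09_nt.Count
import Pool.Agent.Lib.MP_a17b09_nt.Unpop
import Pool.Agent.Lib.MP_a17b09_nt.Divisor
import Pool.Agent.Lib.MP_a17b09_nt.Misc
import Pool.Agent.Lib.MP_a17b09_nt.LowerB

set_option autoImplicit false

open Finset Filter

namespace Pool.Agent.Lib.MP_a17b09_nt

open Classical in
/-- the set of `1 ≤ t ≤ N` with `f(t) > 0` of negative sign -/
noncomputable def goodset (P : Set ℕ) (b c : ℤ) (N : ℕ) : Finset ℕ :=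
  (Finset.Icc 1 N).filter (fun t : ℕ => 0 < ff b c t ∧ sgn P (ff b c t) = -1)

lemma coreB {b c : ℤ} (hD : ¬ IsSquare (b ^ 2 - 4 * c)) (θ : ℝ)
    (hθ : 0 < θ) : ∃ m0 : ℕ, 0 < m0 ∧ ∃ C2 : ℤ, 1 ≤ C2 ∧ ∃ B' : ℝ, 0 < B' ∧
      ∀ᶠ L : ℕ in atTop, ∀ P : Set ℕ, ∀ p ∈ P, p.Prime → p ≡ 1 [MOD m0] → ∀ N Dm : ℕ,
      128 * ((C2 : ℝ) * (p : ℝ) ^ 20) ^ 2 * (L : ℝ) ^ (1 + 4 * θ) ≤ N →
      (∀ t ∈ Finset.Icc 1 N, 0 < ff b c t → (ff b c t).natAbs.divisors.card ≤ Dm) →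
      B' * L ≤ Dm * ((goodset P b c N).card : ℝ) := by
  classical
  set k : ℕ := ⌈2 / θ⌉₊ + 1 with hk
  have hk0 : 0 < k := by omega
  obtain ⟨m0, hm0, C2, hC2, C0, hC0, hlowU⟩ := notNice_lowerB hD k hk0
  set J : ℕ := 2 ^ k with hJ
  set Wc : ℕ := 3 * 2 ^ J + 4 with hWc
  have hJθ : 2 ≤ θ * J := by
    have h1 : 2 / θ ≤ ⌈2 / θ⌉₊ := Nat.le_ceil _
    have h2 : k ≤ J := by rw [hJ]; exact (Nat.lt_two_pow_self).le
    have h3 : (2 / θ : ℝ) ≤ J := by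
      have : ((⌈2 / θ⌉₊ : ℕ) : ℝ) ≤ (J : ℝ) := by exact_mod_cast (by omega : ⌈2 / θ⌉₊ ≤ J)
      linarith
    rw [div_le_iff₀ hθ] at h3
    linarith
  have ha0 := a0_pos b c
  have hWr : (0 : ℝ) < Wc := by rw [hWc]; positivity
  refine ⟨m0, hm0, C2, hC2, a0 b c / (16 * Wc), by positivity, ?_⟩
  have hev3 := ev_rpow (1 - 2 * θ) 1 (1024 * Wc * 8 / a0 b c) (by linarith)
  filter_upwards [hev3, eventually_gt_atTop 0, eventually_ge_atTop ⌈C0⌉₊,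
    eventually_ge_atTop ⌈8 / a0 b c⌉₊] with L h3 hL hLC hLa P p hpP hp hpm N Dm hN0 hDm
  obtain ⟨R, hR, hRb, hlow⟩ := hlowU P p hpP hp hpm
  have hRr : (1 : ℝ) ≤ R := by exact_mod_cast hR
  have hRb' : (R : ℝ) ≤ (C2 : ℝ) * (p : ℝ) ^ 20 := by exact_mod_cast hRb
  have hN : 128 * (R : ℝ) ^ 2 * (L : ℝ) ^ (1 + 4 * θ) ≤ N := by
    refine le_trans ?_ hN0
    gcongr
  have hLr : (1 : ℝ) ≤ L := by exact_mod_cast hL
  have hLpos : (0 : ℝ) < L := by linarith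
  have hLC' : C0 ≤ L := (Nat.le_ceil _).trans (by exact_mod_cast hLC)
  have hLa' : 8 ≤ L * a0 b c := by
    have : 8 / a0 b c ≤ L := (Nat.le_ceil _).trans (by exact_mod_cast hLa)
    rwa [div_le_iff₀ ha0] at this
  -- parameters
  set m : ℕ := ⌈(L : ℝ) ^ θ⌉₊ with hm
  set X0 : ℕ := ⌈(L : ℝ) ^ (1 / 2 + θ)⌉₊ with hX0
  have hLθ : 1 ≤ (L : ℝ) ^ θ := Real.one_le_rpow hLr hθ.le
  have hLX : 1 ≤ (L : ℝ) ^ (1 / 2 + θ) := Real.one_le_rpow hLr (by linarith)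
  have hm1 : (L : ℝ) ^ θ ≤ m := Nat.le_ceil _
  have hm2 : (m : ℝ) ≤ 2 * (L : ℝ) ^ θ := by
    have := Nat.ceil_lt_add_one (a := (L : ℝ) ^ θ) (by linarith)
    linarith
  have hX1 : (L : ℝ) ^ (1 / 2 + θ) ≤ X0 := Nat.le_ceil _
  have hX2 : (X0 : ℝ) ≤ 2 * (L : ℝ) ^ (1 / 2 + θ) := by
    have := Nat.ceil_lt_add_one (a := (L : ℝ) ^ (1 / 2 + θ)) (by linarith)
    linarith
  have hmpos : 0 < m := by
    have : (0 : ℝ) < m := by linarith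
    exact_mod_cast this
  have hX0pos : 0 < X0 := by
    have : (0 : ℝ) < X0 := by linarith
    exact_mod_cast this
  set Xm : ℤ := 2 * ((X0 : ℤ) * (m * R)) with hXm
  have hmz : (1 : ℤ) ≤ m := by exact_mod_cast hmpos
  have hX0z : (1 : ℤ) ≤ X0 := by exact_mod_cast hX0pos
  have hRz : 1 ≤ R := hR
  have hX0Xm : (X0 : ℤ) ≤ Xm := by
    rw [hXm]
    have h1 : (1 : ℤ) ≤ m * R := by nlinarith
    nlinarith
  -- power bound
  have hpow : C0 * L ≤ ((m : ℝ) * R) ^ J := by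
    calc C0 * (L : ℝ) ≤ L * L := by gcongr
      _ = (L : ℝ) ^ (2 : ℝ) := by rw [Real.rpow_two]; ring
      _ ≤ (L : ℝ) ^ (θ * J) := Real.rpow_le_rpow_of_exponent_le hLr hJθ
      _ = ((L : ℝ) ^ θ) ^ J := by rw [Real.rpow_mul hLpos.le, Real.rpow_natCast]
      _ ≤ ((m : ℝ) * R) ^ J := by
        have h1 : (L : ℝ) ^ θ ≤ (m : ℝ) * R := by
          calc (L : ℝ) ^ θ ≤ m := hm1
            _ = m * 1 := by ring
            _ ≤ (m : ℝ) * R := by gcongr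
        gcongr
  set M : ℕ := ⌊L * a0 b c / 2⌋₊ with hM
  set M' : ℕ := ⌈(M : ℝ) + L * a0 b c / 4⌉₊ with hM'
  have hM1 : (M : ℝ) ≤ L * a0 b c / 2 := Nat.floor_le (by positivity)
  have hM2 : L * a0 b c / 2 < (M : ℝ) + 1 := Nat.lt_floor_add_one _
  have hM'1 : (M : ℝ) + L * a0 b c / 4 ≤ M' := Nat.le_ceil _
  have hM'2 : (M' : ℝ) < (M : ℝ) + L * a0 b c / 4 + 1 := Nat.ceil_lt_add_one (by positivity)
  have hM'3 : (M' : ℝ) + 1 ≤ L * a0 b c := by linarith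
  -- the bad set
  set badM : Finset ℕ := (range M').filter (fun j => ¬ Mono P b c L Xm j) with hbadM
  set badU : Finset ℕ := (range M').filter (fun j => ¬ Pop b c L X0 j) with hbadU
  have hlow' := hlow L m hL hmpos hpow X0 Xm hX0Xm le_rfl M M' hM'1 hM'3 (badM ∪ badU) (by
    intro j hj hnice
    rw [mem_union, hbadM, hbadU, mem_filter, mem_filter, mem_range]
    unfold Nice at hnice
    tauto)
  have hU := unpop_count hL hX0pos M' hM'3 badU (by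
    intro j hj
    rw [hbadU, mem_filter, mem_range] at hj
    exact hj)
  have hSN : ∀ t : ℕ, 0 < t → (t : ℤ) ≤ 2 * Xm ^ 2 → 0 < ff b c t → sgn P (ff b c t) = -1 →
      t ∈ goodset P b c N := by
    intro t ht htX hf hs
    unfold goodset
    rw [mem_filter, Finset.mem_Icc]
    refine ⟨⟨ht, ?_⟩, hf, hs⟩
    have h1 : (Xm : ℝ) ≤ 8 * R * (L : ℝ) ^ (1 / 2 + 2 * θ) := by
      rw [hXm]
      push_cast
      calc 2 * ((X0 : ℝ) * (m * R)) ≤ 2 * ((2 * (L : ℝ) ^ (1 / 2 + θ)) * ((2 * (L : ℝ) ^ θ) * R)) := by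
            gcongr
        _ = 8 * R * ((L : ℝ) ^ (1 / 2 + θ) * (L : ℝ) ^ θ) := by ring
        _ = 8 * R * (L : ℝ) ^ (1 / 2 + 2 * θ) := by
            rw [← Real.rpow_add hLpos]; congr 2; ring
    have hXm0 : (0 : ℝ) ≤ Xm := by
      have : (0 : ℤ) ≤ Xm := by linarith
      exact_mod_cast this
    have h2 : (t : ℝ) ≤ N := by
      calc (t : ℝ) ≤ 2 * (Xm : ℝ) ^ 2 := by exact_mod_cast htX
        _ ≤ 2 * (8 * R * (L : ℝ) ^ (1 / 2 + 2 * θ)) ^ 2 := by gcongr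
        _ = 128 * (R : ℝ) ^ 2 * (((L : ℝ) ^ (1 / 2 + 2 * θ)) ^ 2) := by ring
        _ = 128 * (R : ℝ) ^ 2 * (L : ℝ) ^ (1 + 4 * θ) := by
            congr 1
            rw [← Real.rpow_natCast, ← Real.rpow_mul hLpos.le]; congr 1; push_cast; ring
        _ ≤ N := hN
    exact_mod_cast h2
  have hB := bad_count hD hL (Xm := Xm) M' hM'3 badM (by
    intro j hj
    rw [hbadM, mem_filter, mem_range] at hj
    exact hj) (goodset P b c N) hSN Dm (by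
    intro t ht
    unfold goodset at ht
    rw [mem_filter] at ht
    exact hDm t ht.1 ht.2.1)
  -- conclusion
  have hcardU : (badU.card : ℝ) ≤ 1024 * (L : ℝ) ^ (1 - 2 * θ) := by
    refine hU.trans ?_
    have hXsq : (L : ℝ) ^ (1 + 2 * θ) ≤ (X0 : ℝ) ^ 2 := by
      calc (L : ℝ) ^ (1 + 2 * θ) = ((L : ℝ) ^ (1 / 2 + θ)) ^ 2 := by
            rw [← Real.rpow_natCast, ← Real.rpow_mul hLpos.le]; congr 1; push_cast; ring
        _ ≤ (X0 : ℝ) ^ 2 := by gcongr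
    have hLp : 0 < (L : ℝ) ^ (1 + 2 * θ) := by positivity
    calc 1024 * (L : ℝ) ^ 2 / (X0 : ℝ) ^ 2 ≤ 1024 * (L : ℝ) ^ 2 / (L : ℝ) ^ (1 + 2 * θ) := by
          gcongr
      _ = 1024 * ((L : ℝ) ^ (2 : ℝ) / (L : ℝ) ^ (1 + 2 * θ)) := by
          rw [Real.rpow_two]; ring
      _ = 1024 * (L : ℝ) ^ (1 - 2 * θ) := by
          rw [← Real.rpow_sub hLpos]; congr 2; ring
  have h4 : 1024 * (Wc : ℝ) * (L : ℝ) ^ (1 - 2 * θ) ≤ L * a0 b c / 8 := by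
    rw [Real.rpow_one] at h3
    have : 1024 * (Wc : ℝ) * 8 / a0 b c * (L : ℝ) ^ (1 - 2 * θ) =
      (1024 * (Wc : ℝ) * (L : ℝ) ^ (1 - 2 * θ)) * (8 / a0 b c) := by ring
    rw [this, ← le_div_iff₀ (by positivity)] at h3
    refine h3.trans (le_of_eq ?_)
    field_simp
  have hMW : (M : ℝ) ≤ Wc * ((badM.card : ℝ) + badU.card) := by
    have h5 : M ≤ Wc * (badM.card + badU.card) :=
      hlow'.trans (Nat.mul_le_mul_left _ (card_union_le _ _))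
    exact_mod_cast h5
  have hBr : (badM.card : ℝ) ≤ (goodset P b c N).card * (2 * Dm) := by exact_mod_cast hB
  have h6 : L * a0 b c / 4 ≤ Wc * ((goodset P b c N).card * (2 * Dm)) + L * a0 b c / 8 := by
    calc L * a0 b c / 4 ≤ M := by linarith
      _ ≤ Wc * ((badM.card : ℝ) + badU.card) := hMW
      _ ≤ Wc * ((goodset P b c N).card * (2 * Dm) + 1024 * (L : ℝ) ^ (1 - 2 * θ)) := by gcongr
      _ = Wc * ((goodset P b c N).card * (2 * Dm)) + 1024 * (Wc : ℝ) * (L : ℝ) ^ (1 - 2 * θ) := by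
          ring
      _ ≤ _ := by gcongr
  rw [div_mul_eq_mul_div, div_le_iff₀ (by positivity)]
  linarith

theorem uniform_sgn {b c : ℤ} (hD : ¬ IsSquare (b ^ 2 - 4 * c)) (ε : ℝ) (hε : 0 < ε) :
    ∃ m0 : ℕ, 0 < m0 ∧ ∃ δ : ℝ, 0 < δ ∧ ∀ᶠ N : ℕ in atTop, ∀ P : Set ℕ,
      (∃ p ∈ P, p.Prime ∧ p ≡ 1 [MOD m0] ∧ (p : ℝ) ≤ (N : ℝ) ^ δ) →
      (N : ℝ) ^ (1 - ε) ≤ ((goodset P b c N).card : ℝ) := by
  -- reduce to small ε
  wlog hε1 : ε ≤ 1 / 2 generalizing ε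
  · push Not at hε1
    obtain ⟨m0, hm0, δ, hδ, h⟩ := this (1 / 2) (by norm_num) le_rfl
    refine ⟨m0, hm0, δ, hδ, ?_⟩
    filter_upwards [h, eventually_gt_atTop 0] with N hN hN0 P hP
    have hN1 : (1 : ℝ) ≤ N := by exact_mod_cast hN0
    refine le_trans ?_ (hN P hP)
    exact Real.rpow_le_rpow_of_exponent_le hN1 (by linarith)
  set θ : ℝ := ε / 10 with hθ
  have hθ0 : 0 < θ := by positivity
  have hθ1 : θ ≤ 1 / 20 := by rw [hθ]; linarith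
  obtain ⟨m0, hm0, C2, hC2, B', hB', hcore⟩ := coreB hD θ hθ0
  obtain ⟨Cd, hCd, hdiv⟩ := card_divisors_le θ hθ0
  set Cf : ℝ := 1 + |(b : ℝ)| + |(c : ℝ)| with hCf
  have hCf1 : 1 ≤ Cf := by
    rw [hCf]
    have := abs_nonneg (b : ℝ)
    have := abs_nonneg (c : ℝ)
    linarith
  have hL : Tendsto (fun N : ℕ => ⌊(N : ℝ) ^ (1 - 5 * θ)⌋₊) atTop atTop :=
    tendsto_nat_floor_atTop.comp
      ((tendsto_rpow_atTop (by linarith)).comp tendsto_natCast_atTop_atTop)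
  have hev := hL.eventually hcore
  have hev1 := ev_rpow (2 / 5 * θ + (1 - 5 * θ) * (1 + 4 * θ)) 1 (128 * (C2 : ℝ) ^ 2)
    (by nlinarith)
  have hev2 := ev_rpow (1 - 10 * θ + 2 * θ) (1 - 5 * θ) (Cd * Cf ^ θ * 2 / B') (by linarith)
  refine ⟨m0, hm0, θ / 100, by positivity, ?_⟩
  filter_upwards [hev, hev1, hev2, eventually_gt_atTop 0] with N h0 h1 h2 hN0 P hP
  obtain ⟨p, hpP, hp, hpm, hpN⟩ := hP
  have hN1 : (1 : ℝ) ≤ N := by exact_mod_cast hN0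
  have hNpos : (0 : ℝ) < N := by linarith
  set L : ℕ := ⌊(N : ℝ) ^ (1 - 5 * θ)⌋₊ with hLdef
  have hL1 : (L : ℝ) ≤ (N : ℝ) ^ (1 - 5 * θ) := Nat.floor_le (by positivity)
  have hL2 : (N : ℝ) ^ (1 - 5 * θ) / 2 ≤ L := by
    have h3 : 1 ≤ (N : ℝ) ^ (1 - 5 * θ) := Real.one_le_rpow hN1 (by linarith)
    have h4 : (N : ℝ) ^ (1 - 5 * θ) < L + 1 := Nat.lt_floor_add_one _
    have h5 : 1 ≤ L := by
      rw [hLdef]; exact Nat.le_floor (by simpa using h3)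
    have h6 : (1 : ℝ) ≤ L := by exact_mod_cast h5
    linarith
  have hC2r : (1 : ℝ) ≤ C2 := by exact_mod_cast hC2
  have hpp : ((C2 : ℝ) * (p : ℝ) ^ 20) ^ 2 ≤ (C2 : ℝ) ^ 2 * (N : ℝ) ^ (2 / 5 * θ) := by
    calc ((C2 : ℝ) * (p : ℝ) ^ 20) ^ 2 ≤ ((C2 : ℝ) * ((N : ℝ) ^ (θ / 100)) ^ 20) ^ 2 := by gcongr
      _ = (C2 : ℝ) ^ 2 * ((N : ℝ) ^ (θ / 100)) ^ 40 := by ring
      _ = (C2 : ℝ) ^ 2 * (N : ℝ) ^ (2 / 5 * θ) := by
        congr 1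
        rw [← Real.rpow_natCast, ← Real.rpow_mul hNpos.le]
        congr 1
        push_cast
        ring
  have hAN : 128 * ((C2 : ℝ) * (p : ℝ) ^ 20) ^ 2 * (L : ℝ) ^ (1 + 4 * θ) ≤ N := by
    calc 128 * ((C2 : ℝ) * (p : ℝ) ^ 20) ^ 2 * (L : ℝ) ^ (1 + 4 * θ)
        ≤ 128 * ((C2 : ℝ) ^ 2 * (N : ℝ) ^ (2 / 5 * θ)) *
          ((N : ℝ) ^ (1 - 5 * θ)) ^ (1 + 4 * θ) := by gcongr
      _ = 128 * (C2 : ℝ) ^ 2 * ((N : ℝ) ^ (2 / 5 * θ) *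
          (N : ℝ) ^ ((1 - 5 * θ) * (1 + 4 * θ))) := by
        rw [← Real.rpow_mul hNpos.le]; ring
      _ = 128 * (C2 : ℝ) ^ 2 * (N : ℝ) ^ (2 / 5 * θ + (1 - 5 * θ) * (1 + 4 * θ)) := by
        rw [← Real.rpow_add hNpos]
      _ ≤ (N : ℝ) ^ (1 : ℝ) := h1
      _ = N := Real.rpow_one _
  set Dm : ℕ := ⌊Cd * (Cf ^ θ * (N : ℝ) ^ (2 * θ))⌋₊ with hDm
  have hDm1 : (Dm : ℝ) ≤ Cd * (Cf ^ θ * (N : ℝ) ^ (2 * θ)) := Nat.floor_le (by positivity)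
  have hdivs : ∀ t ∈ Finset.Icc 1 N, 0 < ff b c t → (ff b c t).natAbs.divisors.card ≤ Dm := by
    intro t ht hf
    rw [Finset.mem_Icc] at ht
    apply Nat.le_floor
    have h3 := hdiv (ff b c t).natAbs (by omega)
    refine h3.trans ?_
    have h4 : (((ff b c t).natAbs : ℕ) : ℝ) ≤ Cf * (N : ℝ) ^ 2 := by
      have e : (((ff b c t).natAbs : ℕ) : ℝ) = ((ff b c t : ℤ) : ℝ) := by
        rw [Nat.cast_natAbs, abs_of_pos hf]
      rw [e]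
      unfold ff
      push_cast
      have ht1 : (1 : ℝ) ≤ t := by exact_mod_cast ht.1
      have ht2 : (t : ℝ) ≤ N := by exact_mod_cast ht.2
      have hb1 : (b : ℝ) * t ≤ |(b : ℝ)| * (N : ℝ) ^ 2 := by
        calc (b : ℝ) * t ≤ |(b : ℝ)| * t := by gcongr; exact le_abs_self _
          _ ≤ |(b : ℝ)| * N := by gcongr
          _ ≤ |(b : ℝ)| * (N : ℝ) ^ 2 := by
            have : (N : ℝ) ≤ (N : ℝ) ^ 2 := by nlinarith
            gcongr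
      have hc1 : (c : ℝ) ≤ |(c : ℝ)| * (N : ℝ) ^ 2 := by
        calc (c : ℝ) ≤ |(c : ℝ)| := le_abs_self _
          _ = |(c : ℝ)| * 1 := by ring
          _ ≤ |(c : ℝ)| * (N : ℝ) ^ 2 := by
            have : (1 : ℝ) ≤ (N : ℝ) ^ 2 := one_le_pow₀ hN1
            gcongr
      have ht3 : (t : ℝ) ^ 2 ≤ (N : ℝ) ^ 2 := by gcongr
      rw [hCf]
      calc (t : ℝ) ^ 2 + b * t + c ≤ (N : ℝ) ^ 2 + |(b : ℝ)| * (N : ℝ) ^ 2 +
            |(c : ℝ)| * (N : ℝ) ^ 2 := by linarith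
        _ = _ := by ring
    calc Cd * (((ff b c t).natAbs : ℕ) : ℝ) ^ θ ≤ Cd * (Cf * (N : ℝ) ^ 2) ^ θ := by gcongr
      _ = Cd * (Cf ^ θ * (N : ℝ) ^ (2 * θ)) := by
        rw [Real.mul_rpow (by linarith) (by positivity)]
        congr 2
        rw [← Real.rpow_natCast, ← Real.rpow_mul hNpos.le]
        norm_num
  have hfin := h0 P p hpP hp hpm N Dm hAN hdivs
  -- conclude
  set s : ℝ := ((goodset P b c N).card : ℝ) with hs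
  have hs0 : 0 ≤ s := by rw [hs]; positivity
  have hK : 0 < Cd * (Cf ^ θ * (N : ℝ) ^ (2 * θ)) := by positivity
  have h7 : B' * ((N : ℝ) ^ (1 - 5 * θ) / 2) ≤ (Cd * (Cf ^ θ * (N : ℝ) ^ (2 * θ))) * s := by
    calc B' * ((N : ℝ) ^ (1 - 5 * θ) / 2) ≤ B' * L := by gcongr
      _ ≤ Dm * s := hfin
      _ ≤ _ := by gcongr
  have h8 : (Cd * (Cf ^ θ * (N : ℝ) ^ (2 * θ))) * (N : ℝ) ^ (1 - ε) ≤
      B' * ((N : ℝ) ^ (1 - 5 * θ) / 2) := by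
    have e1 : (N : ℝ) ^ (2 * θ) * (N : ℝ) ^ (1 - ε) = (N : ℝ) ^ (1 - 10 * θ + 2 * θ) := by
      rw [← Real.rpow_add hNpos]; congr 1; rw [hθ]; ring
    calc (Cd * (Cf ^ θ * (N : ℝ) ^ (2 * θ))) * (N : ℝ) ^ (1 - ε)
        = Cd * Cf ^ θ * ((N : ℝ) ^ (2 * θ) * (N : ℝ) ^ (1 - ε)) := by ring
      _ = (B' / 2) * (Cd * Cf ^ θ * 2 / B' * (N : ℝ) ^ (1 - 10 * θ + 2 * θ)) := by
          rw [e1]; field_simp
      _ ≤ (B' / 2) * (N : ℝ) ^ (1 - 5 * θ) := by gcongr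
      _ = _ := by ring
  exact le_of_mul_le_mul_left (h8.trans h7) hK

end Pool.Agent.Lib.MP_a17b09_nt
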