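import Pool.Agent.Lib.MP_a17b09_nt.Basic
import Pool.Agent.Lib.MP_a17b09_nt.Angle

set_option autoImplicit false

namespace Pool.Agent.Lib.MP_a17b09_nt

/-- the constant `B = |b| + |c| + 1` -/
def BB (b c : ℤ) : ℤ := |b| + |c| + 1

/-- narrow sector around the positive real axis -/
def Sec (b c : ℤ) (u : ℤ × ℤ) : Prop := 0 < u.1 ∧ 0 ≤ u.2 ∧ 8 * BB b c * u.2 ≤ u.1

lemma BB_pos (b c : ℤ) : 0 < BB b c := by
  unfold BB; have := abs_nonneg b; have := abs_nonneg c; linarith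

lemma one_le_BB (b c : ℤ) : 1 ≤ BB b c := BB_pos b c

lemma abs_b_le (b c : ℤ) : |b| ≤ BB b c := by
  unfold BB; have := abs_nonneg c; linarith

lemma abs_c_le (b c : ℤ) : |c| ≤ BB b c := by
  unfold BB; have := abs_nonneg b; linarith

/-- the mixed terms are small in the sector -/
lemma sec_b_term {b c : ℤ} {u : ℤ × ℤ} (hu : Sec b c u) {t : ℤ} (ht : 0 ≤ t) :
    8 * |b * t * u.2| ≤ u.1 * t := by
  obtain ⟨h1, h2, h3⟩ := hu
  rw [abs_mul, abs_mul, abs_of_nonneg ht, abs_of_nonneg h2]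
  calc 8 * (|b| * t * u.2) = (8 * |b| * u.2) * t := by ring
    _ ≤ (8 * BB b c * u.2) * t := by
      have := abs_b_le b c
      gcongr
    _ ≤ u.1 * t := by gcongr

lemma sec_c_term {b c : ℤ} {u v : ℤ × ℤ} (hu : Sec b c u) (hv : Sec b c v) :
    64 * |c * u.2 * v.2| ≤ u.1 * v.1 := by
  obtain ⟨h1, h2, h3⟩ := hu
  obtain ⟨k1, k2, k3⟩ := hv
  have hB := one_le_BB b c
  rw [abs_mul, abs_mul, abs_of_nonneg k2, abs_of_nonneg h2]
  have h4 : 8 * v.2 ≤ v.1 := by
    calc 8 * v.2 = 8 * 1 * v.2 := by ring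
      _ ≤ 8 * BB b c * v.2 := by gcongr
      _ ≤ v.1 := k3
  calc 64 * (|c| * u.2 * v.2) = (8 * |c| * u.2) * (8 * v.2) := by ring
    _ ≤ (8 * BB b c * u.2) * (8 * v.2) := by
      have := abs_c_le b c
      gcongr
    _ ≤ u.1 * v.1 := by gcongr

lemma lab_bounds {b c : ℤ} {u v : ℤ × ℤ} (hu : Sec b c u) (hv : Sec b c v) :
    3 * (u.1 * v.1) ≤ 4 * lab b c u v ∧ 4 * lab b c u v ≤ 5 * (u.1 * v.1) := by
  have h1 := sec_b_term hu (t := v.1) hv.1.le
  have h2 := sec_c_term hu hv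
  have h3 := abs_le.1 (le_refl |b * v.1 * u.2|)
  have h4 := abs_le.1 (le_refl |c * u.2 * v.2|)
  have hpos : 0 < u.1 * v.1 := mul_pos hu.1 hv.1
  unfold lab
  constructor <;> linarith [h3.1, h3.2, h4.1, h4.2]

lemma lab_pos {b c : ℤ} {u v : ℤ × ℤ} (hu : Sec b c u) (hv : Sec b c v) : 0 < lab b c u v := by
  have h := (lab_bounds hu hv).1
  have hpos : 0 < u.1 * v.1 := mul_pos hu.1 hv.1
  linarith

lemma lab_self (b c : ℤ) (u : ℤ × ℤ) : lab b c u u = nrm b c u := by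
  simp only [lab, nrm]; ring

lemma nrm_bounds {b c : ℤ} {u : ℤ × ℤ} (hu : Sec b c u) :
    3 * u.1 ^ 2 ≤ 4 * nrm b c u ∧ 4 * nrm b c u ≤ 5 * u.1 ^ 2 := by
  have h := lab_bounds hu hu
  rw [lab_self] at h
  rw [← sq] at h
  exact h

lemma nrm_pos {b c : ℤ} {u : ℤ × ℤ} (hu : Sec b c u) : 0 < nrm b c u := by
  have h := (nrm_bounds hu).1
  have : 0 < u.1 ^ 2 := pow_pos hu.1 2
  linarith

lemma mulp_fst_bounds {b c : ℤ} {u v : ℤ × ℤ} (hu : Sec b c u) (hv : Sec b c v) :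
    0 < (mulp b c u v).1 ∧ (mulp b c u v).1 ≤ 2 * (u.1 * v.1) := by
  have h2 := sec_c_term hu hv
  have h4 := abs_le.1 (le_refl |c * u.2 * v.2|)
  have hpos : 0 < u.1 * v.1 := mul_pos hu.1 hv.1
  unfold mulp
  simp only
  constructor <;> linarith

lemma Sec.ne_zero {b c : ℤ} {u : ℤ × ℤ} (hu : Sec b c u) : u ≠ 0 := by
  intro h; have := hu.1; rw [h] at this; simp at this

/-- Fibre lemma. -/
theorem fiber_lemma {b c : ℤ} {u v u' v' : ℤ × ℤ} (hu : Sec b c u)
    (hu' : Sec b c u') (hd : det u v = 1) (hd' : det u' v' = 1)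
    (hl : lab b c u v = lab b c u' v') (hn : nrm b c u = nrm b c u') : u = u' ∧ v = v' := by
  set A := nrm b c u with hA
  have hApos : 0 < A := nrm_pos hu
  -- e = v.2 u' - u.2 v'
  set e1 : ℤ := v.2 * u'.1 - u.2 * v'.1 with he1
  set e2 : ℤ := v.2 * u'.2 - u.2 * v'.2 with he2
  set R : ℤ := lab b c u u' with hR
  set T : ℤ := det u u' with hT
  -- ρ = (R, T): ρ u = A u', ρ v = A v'
  have k1 : R * u.1 - c * T * u.2 = A * u'.1 := by
    rw [hR, hT, hA]; simp only [lab, det, nrm]; ring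
  have k2 : R * u.2 + T * u.1 + b * T * u.2 = A * u'.2 := by
    rw [hR, hT, hA]; simp only [lab, det, nrm]; ring
  -- v * conj u = X + ω in coordinates
  have hX1 : v.1 * A = lab b c u v * u.1 - c * u.2 * det u v := by
    rw [hA]; simp only [lab, det, nrm]; ring
  have hX2 : v.2 * A = lab b c u v * u.2 + (u.1 + b * u.2) * det u v := by
    rw [hA]; simp only [lab, det, nrm]; ring
  have hX1' : v'.1 * A = lab b c u' v' * u'.1 - c * u'.2 * det u' v' := by
    rw [hn]; simp only [lab, det, nrm]; ring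
  have hX2' : v'.2 * A = lab b c u' v' * u'.2 + (u'.1 + b * u'.2) * det u' v' := by
    rw [hn]; simp only [lab, det, nrm]; ring
  rw [hd] at hX1 hX2
  rw [hd', ← hl] at hX1' hX2'
  set X := lab b c u v with hX
  have k3 : A * (R * v.1 - c * T * v.2) = A * (A * v'.1) := by
    have e : A * (R * v.1 - c * T * v.2) = R * (v.1 * A) - c * T * (v.2 * A) := by ring
    have e' : A * (A * v'.1) = A * (v'.1 * A) := by ring
    rw [e, e', hX1, hX2, hX1']
    linear_combination X * k1 - c * k2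
  have k4 : A * (R * v.2 + T * v.1 + b * T * v.2) = A * (A * v'.2) := by
    have e : A * (R * v.2 + T * v.1 + b * T * v.2) = (R + b * T) * (v.2 * A) + T * (v.1 * A) := by
      ring
    have e' : A * (A * v'.2) = A * (v'.2 * A) := by ring
    rw [e, e', hX1, hX2, hX2']
    linear_combination (X + b) * k2 + k1
  have k3' := mul_left_cancel₀ hApos.ne' k3
  have k4' := mul_left_cancel₀ hApos.ne' k4
  have hRe : R = A * e1 := by
    have h1 : det u v = 1 := hd
    simp only [det] at h1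
    rw [he1]
    linear_combination (-R) * h1 + v.2 * k1 - u.2 * k3'
  have hTe : T = A * e2 := by
    have h1 : det u v = 1 := hd
    simp only [det] at h1
    rw [he2]
    linear_combination (-T) * h1 + v.2 * k2 - u.2 * k4'
  have hnormρ : nrm b c u * nrm b c u' = R ^ 2 + b * R * T + c * T ^ 2 := by
    rw [nrm_mul_nrm]
  have hnorme : e1 ^ 2 + b * e1 * e2 + c * e2 ^ 2 = 1 := by
    have h : A ^ 2 * (e1 ^ 2 + b * e1 * e2 + c * e2 ^ 2) = A ^ 2 * 1 := by
      have h2 : A * A = R ^ 2 + b * R * T + c * T ^ 2 := by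
        rw [← hnormρ, ← hn]
      rw [hRe, hTe] at h2
      linarith
    exact mul_left_cancel₀ (pow_ne_zero 2 hApos.ne') h
  have hRpos : 0 < R := lab_pos hu hu'
  have hRb := (lab_bounds hu hu').1
  have he1pos : 0 < e1 := by
    rw [hRe] at hRpos
    exact (mul_pos_iff_of_pos_left hApos).1 hRpos
  -- |T| small
  have hTb : 8 * BB b c * |T| ≤ u.1 * u'.1 := by
    have h1 : 8 * BB b c * (u.1 * u'.2) ≤ u.1 * u'.1 := by
      calc 8 * BB b c * (u.1 * u'.2) = u.1 * (8 * BB b c * u'.2) := by ring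
        _ ≤ u.1 * u'.1 := by
          have := hu'.2.2
          have := hu.1
          gcongr
    have h2 : 8 * BB b c * (u.2 * u'.1) ≤ u.1 * u'.1 := by
      calc 8 * BB b c * (u.2 * u'.1) = (8 * BB b c * u.2) * u'.1 := by ring
        _ ≤ u.1 * u'.1 := by
          have := hu.2.2
          have := hu'.1
          gcongr
    have hBp := BB_pos b c
    have h3 : 0 ≤ u.2 * u'.1 := mul_nonneg hu.2.1 hu'.1.le
    have h4 : 0 ≤ u.1 * u'.2 := mul_nonneg hu.1.le hu'.2.1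
    have hTle : |T| ≤ max (u.1 * u'.2) (u.2 * u'.1) := by
      rw [hT]; simp only [det]
      rw [abs_le]
      constructor
      · have := le_max_right (u.1 * u'.2) (u.2 * u'.1); linarith
      · have := le_max_left (u.1 * u'.2) (u.2 * u'.1); linarith
    rcases le_total (u.1 * u'.2) (u.2 * u'.1) with h | h
    · rw [max_eq_right h] at hTle
      calc 8 * BB b c * |T| ≤ 8 * BB b c * (u.2 * u'.1) := by gcongr
        _ ≤ _ := h2
    · rw [max_eq_left h] at hTle
      calc 8 * BB b c * |T| ≤ 8 * BB b c * (u.1 * u'.2) := by gcongr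
        _ ≤ _ := h1
  have he2 : 6 * BB b c * |e2| ≤ e1 := by
    have h1 : A * (6 * BB b c * |e2|) ≤ A * e1 := by
      have : |T| = A * |e2| := by rw [hTe, abs_mul, abs_of_pos hApos]
      rw [← hRe]
      calc A * (6 * BB b c * |e2|) = 6 * BB b c * |T| := by rw [this]; ring
        _ ≤ R := by linarith
    exact le_of_mul_le_mul_left h1 hApos
  have he2z : e2 = 0 := by
    by_contra hne
    have habs : 1 ≤ |e2| := Int.one_le_abs hne
    have hBp := one_le_BB b c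
    have he1b : 6 ≤ e1 := by
      calc (6 : ℤ) = 6 * 1 * 1 := by norm_num
        _ ≤ 6 * BB b c * |e2| := by gcongr
        _ ≤ e1 := he2
    have he1sq : 36 ≤ e1 ^ 2 := by
      calc (36 : ℤ) = 6 ^ 2 := by norm_num
        _ ≤ e1 ^ 2 := by gcongr
    have hb1 : |b * e1 * e2| * 6 ≤ e1 ^ 2 := by
      rw [abs_mul, abs_mul, abs_of_pos he1pos]
      have := abs_b_le b c
      calc |b| * e1 * |e2| * 6 ≤ BB b c * e1 * |e2| * 6 := by gcongr
        _ = (6 * BB b c * |e2|) * e1 := by ring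
        _ ≤ e1 * e1 := by gcongr
        _ = e1 ^ 2 := by ring
    have hc1 : |c * e2 ^ 2| * 6 ≤ e1 ^ 2 := by
      rw [abs_mul, abs_pow]
      have := abs_c_le b c
      have h6 : |e2| ≤ e1 := by
        calc |e2| = 1 * 1 * |e2| := by ring
          _ ≤ 6 * BB b c * |e2| := by gcongr; norm_num
          _ ≤ e1 := he2
      calc |c| * |e2| ^ 2 * 6 ≤ BB b c * |e2| ^ 2 * 6 := by gcongr
        _ = (6 * BB b c * |e2|) * |e2| := by ring
        _ ≤ e1 * e1 := by gcongr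
        _ = e1 ^ 2 := by ring
    have h3 := (abs_le.1 (le_refl |b * e1 * e2|)).1
    have h4 := (abs_le.1 (le_refl |c * e2 ^ 2|)).1
    linarith
  have he1z : e1 = 1 := by
    rw [he2z] at hnorme
    have h5 : e1 ^ 2 = 1 := by linarith
    have h6 : (e1 - 1) * (e1 + 1) = 0 := by linear_combination h5
    rcases mul_eq_zero.1 h6 with h7 | h7
    · linarith
    · linarith
  have hTz : T = 0 := by rw [hTe, he2z]; ring
  have hRz : R = A := by rw [hRe, he1z]; ring
  rw [hTz, hRz] at k1 k2 k3' k4'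
  constructor
  · apply Prod.ext
    · exact mul_left_cancel₀ hApos.ne' (by linarith)
    · exact mul_left_cancel₀ hApos.ne' (by linarith)
  · apply Prod.ext
    · exact mul_left_cancel₀ hApos.ne' (by linarith)
    · exact mul_left_cancel₀ hApos.ne' (by linarith)

/-- slope -/
noncomputable def slope (u : ℤ × ℤ) : ℝ := (u.2 : ℝ) / u.1

/-- additive angle -/
noncomputable def ang (b c : ℤ) (u : ℤ × ℤ) : ℝ := AA b c (slope u)

/-- the angle of the boundary of the sector -/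
noncomputable def a0 (b c : ℤ) : ℝ := AA b c (1 / (8 * (BB b c : ℝ)))

lemma BBr_one (b c : ℤ) : (1 : ℝ) ≤ (BB b c : ℝ) := by exact_mod_cast one_le_BB b c
lemma BBr_b (b c : ℤ) : |(b : ℝ)| ≤ (BB b c : ℝ) := by exact_mod_cast abs_b_le b c
lemma BBr_c (b c : ℤ) : |(c : ℝ)| ≤ (BB b c : ℝ) := by exact_mod_cast abs_c_le b c

lemma a0_pos (b c : ℤ) : 0 < a0 b c := by
  unfold a0
  rw [← AA_zero (b : ℝ) (c : ℝ)]
  apply strictMono_AA
  have := BBr_one b c
  positivity

lemma slope_nonneg {b c : ℤ} {u : ℤ × ℤ} (hu : Sec b c u) : 0 ≤ slope u := by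
  unfold slope
  have h1 : (0 : ℝ) < u.1 := by exact_mod_cast hu.1
  have h2 : (0 : ℝ) ≤ u.2 := by exact_mod_cast hu.2.1
  positivity

lemma slope_le {b c : ℤ} {u : ℤ × ℤ} (hu : Sec b c u) : slope u ≤ 1 / (8 * (BB b c : ℝ)) := by
  unfold slope
  have h1 : (0 : ℝ) < u.1 := by exact_mod_cast hu.1
  have hB := BBr_one b c
  have h3 : 8 * (BB b c : ℝ) * u.2 ≤ u.1 := by exact_mod_cast hu.2.2
  rw [div_le_div_iff₀ h1 (by positivity)]
  linarith

lemma sec_of_slope {b c : ℤ} {u : ℤ × ℤ} (h1 : 0 < u.1) (h2 : 0 ≤ u.2)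
    (h3 : slope u ≤ 1 / (8 * (BB b c : ℝ))) : Sec b c u := by
  refine ⟨h1, h2, ?_⟩
  unfold slope at h3
  have h1' : (0 : ℝ) < u.1 := by exact_mod_cast h1
  have hB := BBr_one b c
  rw [div_le_div_iff₀ h1' (by positivity)] at h3
  have : 8 * (BB b c : ℝ) * u.2 ≤ u.1 := by linarith
  exact_mod_cast this

lemma sec_of_ang {b c : ℤ} {u : ℤ × ℤ} (h1 : 0 < u.1) (h2 : 0 ≤ ang b c u)
    (h3 : ang b c u ≤ a0 b c) : Sec b c u := by
  have hs : slope u ≤ 1 / (8 * (BB b c : ℝ)) := (strictMono_AA (b : ℝ) (c : ℝ)).le_iff_le.1 h3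
  have hs0 : 0 ≤ slope u := by
    rw [← AA_zero (b : ℝ) (c : ℝ)] at h2
    exact (strictMono_AA (b : ℝ) (c : ℝ)).le_iff_le.1 h2
  apply sec_of_slope h1 _ hs
  unfold slope at hs0
  have h1' : (0 : ℝ) < u.1 := by exact_mod_cast h1
  have := mul_nonneg hs0 h1'.le
  rw [div_mul_cancel₀ _ h1'.ne'] at this
  exact_mod_cast this

lemma ang_nonneg {b c : ℤ} {u : ℤ × ℤ} (hu : Sec b c u) : 0 ≤ ang b c u := by
  unfold ang
  rw [← AA_zero (b : ℝ) (c : ℝ)]
  exact (strictMono_AA (b : ℝ) (c : ℝ)).monotone (slope_nonneg hu)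

lemma ang_mulp {b c : ℤ} {u v : ℤ × ℤ} (hu : Sec b c u) (hv : Sec b c v) :
    ang b c (mulp b c u v) = ang b c u + ang b c v := by
  unfold ang
  rw [← AA_oplus (BBr_one b c) (BBr_b b c) (BBr_c b c) (slope_nonneg hu) (slope_le hu)
    (slope_nonneg hv) (slope_le hv)]
  congr 1
  unfold slope oplus mulp
  have h1 : (u.1 : ℝ) ≠ 0 := by exact_mod_cast hu.1.ne'
  have h2 : (v.1 : ℝ) ≠ 0 := by exact_mod_cast hv.1.ne'
  have h3 : ((u.1 : ℝ) * v.1 - c * u.2 * v.2) ≠ 0 := by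
    have := (mulp_fst_bounds hu hv).1
    unfold mulp at this
    simp only at this
    exact_mod_cast this.ne'
  have h4 : (1 - (c : ℝ) * (u.2 / u.1) * (v.2 / v.1)) ≠ 0 := by
    have : (1 - (c : ℝ) * (u.2 / u.1) * (v.2 / v.1)) =
        ((u.1 : ℝ) * v.1 - c * u.2 * v.2) / (u.1 * v.1) := by
      field_simp
    rw [this]
    exact div_ne_zero h3 (mul_ne_zero h1 h2)
  push_cast
  rw [div_eq_div_iff h3 h4]
  field_simp
  ring

end Pool.Agent.Lib.MP_a17b09_nt
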